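import Pool.Agent.Work.MP_96a720_co.L.Defs

/-!
Module Aff (S-M). PROOFS. `aff q t x = t + q x`, q >= 1 natural.

`gg_aff`, `nn_aff`: the coordinates of aff q t a - aff q t b are q times those of a - b; `Int.gcd_mul_left`,
`Int.natAbs_mul`, `Nat.mul_max_mul_left`. `good_aff`: aff q t is injective (q >= 1), divide by q.
`noThree_image`: the determinant of the images is q^2 times the determinant. `ee_image`: the filtered product of the
images is the image under (aff, aff) of the filtered product (card of an injective image).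
`card_le_two_mul`: for X in `box L` without three in line: every column x = c contains at most two points of X (three
points with equal first coordinate are collinear), the first coordinates lie in Ico 0 L, so X.card <= 2 L
(`Finset.card_le_mul_card_image` with the first projection).
`conf_card`: s * |X| <= Λ * ee <= Λ * |X|^2 (ee <= |X x X|), so s <= Λ |X| <= 2 Λ L.
`no_conf`: if `¬ Conf W s M Λ'` and Z is the image under aff q t of a set Y in `box M`, Z without three in line,
Z.card <= s, then Λ' * ee W Z <= s * Z.card: transport to Y (if Y is empty both sides are 0), and if the inequality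
fails then Y is a configuration.
-/

set_option autoImplicit false
open Classical

namespace Pool.Agent.NTL

theorem gg_aff (q : ℕ) (t a b : Pt) : gg (aff q t a) (aff q t b) = q * gg a b := by
  unfold gg aff
  have h1 : (t.1 + (q : ℤ) * a.1) - (t.1 + q * b.1) = q * (a.1 - b.1) := by ring
  have h2 : (t.2 + (q : ℤ) * a.2) - (t.2 + q * b.2) = q * (a.2 - b.2) := by ring
  simp only [h1, h2, Int.gcd_mul_left, Int.natAbs_natCast]

theorem nn_aff (q : ℕ) (t a b : Pt) : nn (aff q t a) (aff q t b) = q * nn a b := by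
  unfold nn aff
  have h1 : (t.1 + (q : ℤ) * a.1) - (t.1 + q * b.1) = q * (a.1 - b.1) := by ring
  have h2 : (t.2 + (q : ℤ) * a.2) - (t.2 + q * b.2) = q * (a.2 - b.2) := by ring
  simp only [h1, h2, Int.natAbs_mul, Int.natAbs_natCast]
  rw [← Nat.mul_max_mul_left]

theorem aff_injective (q : ℕ) (hq : 1 ≤ q) (t : Pt) : Function.Injective (aff q t) := by
  intro a b h
  unfold aff at h
  have hq' : (q : ℤ) ≠ 0 := by exact_mod_cast (by omega : q ≠ 0)
  have h1 := congrArg Prod.fst h
  have h2 := congrArg Prod.snd h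
  simp only [add_right_inj] at h1 h2
  exact Prod.ext (mul_left_cancel₀ hq' h1) (mul_left_cancel₀ hq' h2)

theorem good_aff (W q : ℕ) (hq : 1 ≤ q) (t a b : Pt) :
    Good W (aff q t a) (aff q t b) ↔ Good W a b := by
  unfold Good
  rw [gg_aff, nn_aff, (aff_injective q hq t).ne_iff]
  have h : W * (q * gg a b) = q * (W * gg a b) := by ring
  rw [h]
  have hq' : 0 < q := hq
  constructor
  · rintro ⟨h1, h2⟩
    exact ⟨h1, Nat.le_of_mul_le_mul_left h2 hq'⟩
  · rintro ⟨h1, h2⟩
    exact ⟨h1, Nat.mul_le_mul_left q h2⟩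

theorem noThree_image (q : ℕ) (hq : 1 ≤ q) (t : Pt) (Y : Finset Pt) :
    NoThree (Y.image (aff q t)) ↔ NoThree Y := by
  have hq' : (q : ℤ) ≠ 0 := by exact_mod_cast (by omega : q ≠ 0)
  have key : ∀ a b c : Pt,
      ((aff q t b).1 - (aff q t a).1) * ((aff q t c).2 - (aff q t a).2) ≠
        ((aff q t c).1 - (aff q t a).1) * ((aff q t b).2 - (aff q t a).2) ↔
      (b.1 - a.1) * (c.2 - a.2) ≠ (c.1 - a.1) * (b.2 - a.2) := by
    intro a b c
    unfold aff
    have e1 : (t.1 + (q : ℤ) * b.1 - (t.1 + q * a.1)) * (t.2 + q * c.2 - (t.2 + q * a.2)) =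
        (q * q) * ((b.1 - a.1) * (c.2 - a.2)) := by ring
    have e2 : (t.1 + (q : ℤ) * c.1 - (t.1 + q * a.1)) * (t.2 + q * b.2 - (t.2 + q * a.2)) =
        (q * q) * ((c.1 - a.1) * (b.2 - a.2)) := by ring
    simp only [e1, e2]
    have hqq : (q : ℤ) * q ≠ 0 := mul_ne_zero hq' hq'
    constructor
    · intro h h'
      exact h (by rw [h'])
    · intro h h'
      exact h (mul_left_cancel₀ hqq h')
  have hinj := aff_injective q hq t
  constructor
  · intro h a ha b hb c hc hab hac hbc
    rw [← key]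
    exact h _ (Finset.mem_image_of_mem _ ha) _ (Finset.mem_image_of_mem _ hb) _
      (Finset.mem_image_of_mem _ hc) (hinj.ne hab) (hinj.ne hac) (hinj.ne hbc)
  · intro h a' ha' b' hb' c' hc' hab hac hbc
    obtain ⟨a, ha, rfl⟩ := Finset.mem_image.1 ha'
    obtain ⟨b, hb, rfl⟩ := Finset.mem_image.1 hb'
    obtain ⟨c, hc, rfl⟩ := Finset.mem_image.1 hc'
    rw [key]
    exact h a ha b hb c hc (fun e => hab (by rw [e])) (fun e => hac (by rw [e]))
      (fun e => hbc (by rw [e]))

theorem ee_image (W q : ℕ) (hq : 1 ≤ q) (t : Pt) (Y : Finset Pt) :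
    ee W (Y.image (aff q t)) = ee W Y := by
  unfold ee
  have hinj := aff_injective q hq t
  have h : ((Y.image (aff q t) ×ˢ Y.image (aff q t)).filter fun p => Good W p.1 p.2) =
      ((Y ×ˢ Y).filter fun p => Good W p.1 p.2).image (Prod.map (aff q t) (aff q t)) := by
    ext p
    rw [Finset.mem_filter, Finset.mem_product, Finset.mem_image, Finset.mem_image, Finset.mem_image]
    constructor
    · rintro ⟨⟨⟨a, ha, hap⟩, ⟨b, hb, hbp⟩⟩, hg⟩
      rw [← hap, ← hbp, good_aff W q hq t a b] at hg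
      refine ⟨(a, b), Finset.mem_filter.2 ⟨Finset.mem_product.2 ⟨ha, hb⟩, hg⟩, ?_⟩
      exact Prod.ext hap hbp
    · rintro ⟨⟨a, b⟩, hab, hp⟩
      rw [Finset.mem_filter, Finset.mem_product] at hab
      rw [← hp]
      exact ⟨⟨⟨a, hab.1.1, rfl⟩, ⟨b, hab.1.2, rfl⟩⟩, (good_aff W q hq t a b).2 hab.2⟩
  rw [h, Finset.card_image_of_injective _ (hinj.prodMap hinj)]

theorem card_le_two_mul (L : ℕ) (X : Finset Pt) (hX : X ⊆ box L) (h3 : NoThree X) :
    X.card ≤ 2 * L := by
  have h1 : X.card ≤ 2 * (X.image Prod.fst).card := by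
    refine Finset.card_le_mul_card_image X 2 ?_
    intro c hc
    by_contra hlt
    rw [not_le, Finset.two_lt_card] at hlt
    obtain ⟨a, ha, b, hb, d, hd, hab, had, hbd⟩ := hlt
    rw [Finset.mem_filter] at ha hb hd
    refine h3 a ha.1 b hb.1 d hd.1 hab had hbd ?_
    rw [ha.2, hb.2, hd.2]
    ring
  have h2 : (X.image Prod.fst).card ≤ L := by
    have h : X.image Prod.fst ⊆ Finset.Ico (0 : ℤ) L := by
      intro c hc
      obtain ⟨a, ha, rfl⟩ := Finset.mem_image.1 hc
      have := mem_box.1 (hX ha)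
      rw [Finset.mem_Ico]
      omega
    have := Finset.card_le_card h
    simpa using this
  omega

theorem conf_card (W s L : ℕ) (Λ : ℝ) (hΛ : 0 ≤ Λ) (h : Conf W s L Λ) :
    (s : ℝ) ≤ 2 * Λ * L := by
  obtain ⟨X, h1, h2, h3, h4, h5⟩ := h
  have hc : (0 : ℝ) < X.card := by exact_mod_cast h3.card_pos
  have he : ee W X ≤ X.card * X.card := by
    unfold ee
    refine (Finset.card_filter_le _ _).trans ?_
    rw [Finset.card_product]
  have he' : (ee W X : ℝ) ≤ X.card * X.card := by exact_mod_cast he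
  have h6 : (s : ℝ) * X.card ≤ (Λ * X.card) * X.card := by
    calc (s : ℝ) * X.card ≤ Λ * ee W X := h5
      _ ≤ Λ * (X.card * X.card) := mul_le_mul_of_nonneg_left he' hΛ
      _ = (Λ * X.card) * X.card := by ring
  have h7 : (s : ℝ) ≤ Λ * X.card := le_of_mul_le_mul_right h6 hc
  have h8 : (X.card : ℝ) ≤ 2 * L := by exact_mod_cast card_le_two_mul L X h1 h2
  calc (s : ℝ) ≤ Λ * X.card := h7
    _ ≤ Λ * (2 * L) := mul_le_mul_of_nonneg_left h8 hΛ
    _ = 2 * Λ * L := by ring

theorem no_conf (W s M : ℕ) (Λ' : ℝ) (hno : ¬ Conf W s M Λ') (q : ℕ) (hq : 1 ≤ q) (t : Pt)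
    (Y : Finset Pt) (hY : Y ⊆ box M) (Z : Finset Pt) (hZ : Z = Y.image (aff q t)) (h3 : NoThree Z)
    (hs : Z.card ≤ s) : Λ' * ee W Z ≤ s * Z.card := by
  have hinj := aff_injective q hq t
  subst hZ
  rw [ee_image W q hq t Y]
  rw [Finset.card_image_of_injective _ hinj] at hs ⊢
  rw [noThree_image q hq t Y] at h3
  rcases Y.eq_empty_or_nonempty with rfl | hne
  · simp [ee]
  · by_contra hlt
    rw [not_le] at hlt
    exact hno ⟨Y, hY, h3, hne, hs, hlt.le⟩

end Pool.Agent.NTL
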