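import Pool.Agent.Work.MP_96a720_co.L.Params

/-!
Module AsymA (M, real exponents only). PROOF. k <= 679, so x := 1 - k/2000 >= 0.6605 and 1 - (k+1)/2000 >= 0.66. From `Bad`:
s < n^(2/3 + c0), W = Wn n s <= 8 s^2/n + 1 <= 8 n^(1/3 + 2 c0) + 1 <= 9 n^(1/3+2c0) (c0 tiny: c0 <= 10^(-6)). L = Lk n k <= n^x,
M = Lk n (k+1) >= n^(x - 1/2000) - 1, 4 n^(1/2000) <= Q = Qn n <= 5 n^(1/2000). For large n:
* 1 <= M/2: M tends to infinity.
* L/Q + 1 <= M: L/Q <= n^x/(4 n^(1/2000)) = n^(x - 1/2000)/4.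
* G = (M/2)/W >= (n^(x-1/2000)/2 - 2)/(9 n^(1/3+2c0)) - 1 >= n^(x - 1/2000 - 1/3 - 2 c0)/20 (x - 1/2000 - 1/3 >= 0.32).
  G^22 >= 20^(-22) n^(22 (x - 1/2000 - 1/3 - 2 c0)), and 2070 L^10 (sqrt L + 1) Q^231 <= 2070 * n^(10 x) * 2 n^(x/2) * 5^231 n^(231/2000).
  Exponents: 22 (x - 1/2000 - 1/3 - 2c0) - 10.5 x - 231/2000 = 11.5 x - 22/3 - 253/2000 - 44 c0 >= 11.5*0.6605 - 7.33334 - 0.1265 - 0.0001
  = 0.1358 > 0. So the inequality holds for large n (uniformly in s). Note `Nat.sqrt L <= sqrt L`, L >= 1.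
-/

set_option autoImplicit false

namespace Pool.Agent.NTL

private lemma c0_le : c0 ≤ 1 / 10 ^ 6 := by
  unfold c0
  apply one_div_le_one_div_of_le (by norm_num)
  have h : (24 : ℝ) ^ 2 ≤ 24 ^ 680 := pow_le_pow_right₀ (by norm_num) (by norm_num)
  calc (10 : ℝ) ^ 6 ≤ 4000 * 24 ^ 2 := by norm_num
    _ ≤ 4000 * 24 ^ 680 := mul_le_mul_of_nonneg_left h (by norm_num)

private lemma final_ineq (N x c K v t u w : ℝ) (hN : 1 ≤ N) (hx : 0.6605 ≤ x) (hc : c ≤ 1 / 10 ^ 6)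
    (hv : v = N ^ x) (ht : t = N ^ (1 / 2000 : ℝ)) (hu : u = N ^ (x - 1 / 2000))
    (hw : w = N ^ (1 / 3 + 2 * c)) (hKN : K < N ^ (1 / 10 : ℝ)) :
    K * (v ^ 10 * v ^ (1 / 2 : ℝ) * t ^ 231) < (u / w) ^ 22 := by
  have hN0 : 0 < N := by linarith
  have h1 : v ^ 10 * v ^ (1 / 2 : ℝ) * t ^ 231 = N ^ (10 * x + x / 2 + 231 / 2000) := by
    have e1 : v ^ 10 = N ^ (10 * x) := by
      rw [hv, ← Real.rpow_natCast, ← Real.rpow_mul hN0.le]
      congr 1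
      push_cast
      ring
    have e2 : v ^ (1 / 2 : ℝ) = N ^ (x / 2) := by
      rw [hv, ← Real.rpow_mul hN0.le]
      congr 1
      ring
    have e3 : t ^ 231 = N ^ (231 / 2000 : ℝ) := by
      rw [ht, ← Real.rpow_natCast, ← Real.rpow_mul hN0.le]
      congr 1
      push_cast
      ring
    rw [e1, e2, e3, ← Real.rpow_add hN0, ← Real.rpow_add hN0]
  have h2 : (u / w) ^ 22 = N ^ (22 * (x - 1 / 2000 - (1 / 3 + 2 * c))) := by
    rw [hu, hw, ← Real.rpow_sub hN0, ← Real.rpow_natCast, ← Real.rpow_mul hN0.le]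
    congr 1
    push_cast
    ring
  rw [h1, h2]
  have hpos : 0 < N ^ (10 * x + x / 2 + 231 / 2000) := Real.rpow_pos_of_pos hN0 _
  calc K * N ^ (10 * x + x / 2 + 231 / 2000)
      < N ^ (1 / 10 : ℝ) * N ^ (10 * x + x / 2 + 231 / 2000) :=
        mul_lt_mul_of_pos_right hKN hpos
    _ = N ^ (1 / 10 + (10 * x + x / 2 + 231 / 2000)) := by rw [← Real.rpow_add hN0]
    _ ≤ N ^ (22 * (x - 1 / 2000 - (1 / 3 + 2 * c))) := by
      apply Real.rpow_le_rpow_of_exponent_le hN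
      norm_num at hx hc ⊢
      linarith

theorem asymA (k : ℕ) (hk : k < 680) : ∀ᶠ n : ℕ in Filter.atTop, ∀ s : ℕ, Bad n s →
    1 ≤ Lk n (k + 1) / 2 ∧ 1 ≤ Qn n ∧ Lk n k / Qn n + 1 ≤ Lk n (k + 1) ∧
      2070 * Lk n k ^ 10 * (Nat.sqrt (Lk n k) + 1) * Qn n ^ 231 <
        (Lk n (k + 1) / 2 / Wn n s) ^ 22 := by
  obtain ⟨F5, hF5⟩ : ∃ F5 : ℝ, F5 = 5 ^ 231 := ⟨_, rfl⟩
  have hF50 : 0 ≤ F5 := by rw [hF5]; positivity
  obtain ⟨K, hK⟩ : ∃ K : ℝ, K = 4140 * F5 * 72 ^ 22 := ⟨_, rfl⟩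
  have hK72 : 72 ≤ K := by
    rw [hK]
    have h1 : (1 : ℝ) ≤ F5 := by
      rw [hF5]
      exact one_le_pow₀ (by norm_num)
    have h2 : (1 : ℝ) ≤ 72 ^ 22 := one_le_pow₀ (by norm_num)
    have h3 : (1 : ℝ) ≤ F5 * 72 ^ 22 := one_le_mul_of_one_le_of_one_le h1 h2
    calc (72 : ℝ) ≤ 4140 * 1 := by norm_num
      _ ≤ 4140 * (F5 * 72 ^ 22) := mul_le_mul_of_nonneg_left h3 (by norm_num)
      _ = 4140 * F5 * 72 ^ 22 := by ring
  have hev : ∀ᶠ n : ℕ in Filter.atTop, K < (n : ℝ) ^ (1 / 10 : ℝ) :=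
    ((tendsto_rpow_atTop (by norm_num : (0 : ℝ) < 1 / 10)).comp
      tendsto_natCast_atTop_atTop).eventually_gt_atTop K
  filter_upwards [hev, Filter.eventually_ge_atTop 1] with n hn hn1 s hs
  obtain ⟨hs1, hs2⟩ := hs
  obtain ⟨N, hNdef⟩ : ∃ N : ℝ, N = (n : ℝ) := ⟨_, rfl⟩
  rw [← hNdef] at hn hs1 hs2
  have hN : 1 ≤ N := by rw [hNdef]; exact_mod_cast hn1
  have hN0 : 0 < N := by linarith
  have hc := c0_le
  have hcp := c0_pos
  obtain ⟨x, hxdef⟩ : ∃ x : ℝ, x = 1 - (k : ℝ) / 2000 := ⟨_, rfl⟩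
  have hk' : (k : ℝ) ≤ 679 := by
    have : k ≤ 679 := by omega
    exact_mod_cast this
  have hx : 0.6605 ≤ x := by
    rw [hxdef]
    norm_num
    linarith
  obtain ⟨v, hv⟩ : ∃ v : ℝ, v = N ^ x := ⟨_, rfl⟩
  obtain ⟨t, ht⟩ : ∃ t : ℝ, t = N ^ (1 / 2000 : ℝ) := ⟨_, rfl⟩
  obtain ⟨u, hu⟩ : ∃ u : ℝ, u = N ^ (x - 1 / 2000) := ⟨_, rfl⟩
  obtain ⟨w, hw⟩ : ∃ w : ℝ, w = N ^ (1 / 3 + 2 * c0) := ⟨_, rfl⟩
  have hvut : v = u * t := by
    rw [hv, hu, ht, ← Real.rpow_add hN0]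
    congr 1
    ring
  have ht1 : 1 ≤ t := by rw [ht]; exact Real.one_le_rpow hN (by norm_num)
  have hw1 : 1 ≤ w := by rw [hw]; exact Real.one_le_rpow hN (by linarith)
  have hv1 : 1 ≤ v := by
    rw [hv]
    exact Real.one_le_rpow hN (by norm_num at hx; linarith)
  have hu72 : 72 ≤ u := by
    refine hK72.trans (hn.le.trans ?_)
    rw [hu]
    apply Real.rpow_le_rpow_of_exponent_le hN
    norm_num at hx ⊢
    linarith
  have huw : 72 ≤ u / w := by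
    refine hK72.trans (hn.le.trans ?_)
    rw [hu, hw, ← Real.rpow_sub hN0]
    apply Real.rpow_le_rpow_of_exponent_le hN
    norm_num at hx hc ⊢
    linarith
  -- the integers
  obtain ⟨M, hMdef⟩ : ∃ M : ℕ, M = Lk n (k + 1) := ⟨_, rfl⟩
  obtain ⟨L, hLdef⟩ : ∃ L : ℕ, L = Lk n k := ⟨_, rfl⟩
  obtain ⟨Q, hQdef⟩ : ∃ Q : ℕ, Q = Qn n := ⟨_, rfl⟩
  obtain ⟨W, hWdef⟩ : ∃ W : ℕ, W = Wn n s := ⟨_, rfl⟩
  have hMu : u < M + 1 := by
    have h1 : M = ⌊u⌋₊ := by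
      rw [hMdef, hu, hxdef, hNdef]
      unfold Lk
      congr 2
      push_cast
      ring
    rw [h1]
    exact Nat.lt_floor_add_one u
  have hLv : (L : ℝ) ≤ v := by
    have h1 : L = ⌊v⌋₊ := by
      rw [hLdef, hv, hxdef, hNdef]
      rfl
    rw [h1]
    exact Nat.floor_le (by linarith)
  have hQ1 : 4 * t ≤ Q := by
    have h1 : Q = ⌈4 * t⌉₊ := by
      rw [hQdef, ht, hNdef]
      rfl
    rw [h1]
    exact Nat.le_ceil _
  have hQ2 : (Q : ℝ) ≤ 5 * t := by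
    have h1 : Q = ⌈4 * t⌉₊ := by
      rw [hQdef, ht, hNdef]
      rfl
    rw [h1]
    have := Nat.ceil_lt_add_one (a := 4 * t) (by linarith)
    linarith
  have hs0 : (0 : ℝ) < s := by
    rcases Nat.eq_zero_or_pos s with h | h
    · exfalso
      rw [h] at hs1
      norm_num at hs1
      nlinarith
    · exact_mod_cast h
  have hWW : W = ⌈8 * (s : ℝ) ^ 2 / N⌉₊ := by
    rw [hWdef, hNdef]
    rfl
  have hW0 : 0 < W := by
    rw [hWW]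
    exact Nat.ceil_pos.2 (by positivity)
  have hW9 : (W : ℝ) ≤ 9 * w := by
    have h1 : (s : ℝ) ^ 2 / N ≤ w := by
      rw [div_le_iff₀ hN0]
      have h2 : (s : ℝ) ^ 2 ≤ (N ^ (2 / 3 + c0 : ℝ)) ^ 2 := pow_le_pow_left₀ hs0.le hs2.le 2
      have h3 : (N ^ (2 / 3 + c0 : ℝ)) ^ 2 = w * N := by
        rw [hw, ← Real.rpow_natCast, ← Real.rpow_mul hN0.le]
        nth_rewrite 3 [← Real.rpow_one N]
        rw [← Real.rpow_add hN0]
        congr 1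
        push_cast
        ring
      rw [← h3]
      exact h2
    rw [hWW]
    have h2 := Nat.ceil_lt_add_one (a := 8 * (s : ℝ) ^ 2 / N) (by positivity)
    have h3 : 8 * (s : ℝ) ^ 2 / N = 8 * ((s : ℝ) ^ 2 / N) := by ring
    rw [h3] at h2 ⊢
    linarith
  rw [← hMdef, ← hLdef, ← hQdef, ← hWdef]
  refine ⟨?_, ?_, ?_, ?_⟩
  · have h1 : (2 : ℝ) ≤ M := by linarith
    have h2 : 2 ≤ M := by exact_mod_cast h1
    omega
  · have h1 : (1 : ℝ) ≤ Q := by linarith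
    exact_mod_cast h1
  · have h1 : ((L / Q : ℕ) : ℝ) ≤ (L : ℝ) / Q := Nat.cast_div_le
    have h2 : (L : ℝ) / Q ≤ u / 4 := by
      rw [div_le_iff₀ (by linarith)]
      calc (L : ℝ) ≤ u * t := by rw [← hvut]; exact hLv
        _ = u / 4 * (4 * t) := by ring
        _ ≤ u / 4 * Q := mul_le_mul_of_nonneg_left hQ1 (by linarith)
    have h3 : ((L / Q + 1 : ℕ) : ℝ) < M := by
      push_cast
      linarith
    have h4 : L / Q + 1 < M := by exact_mod_cast h3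
    exact h4.le
  · obtain ⟨G, hG⟩ : ∃ G : ℕ, G = M / 2 / W := ⟨_, rfl⟩
    rw [← hG]
    have hGl : u / w / 72 ≤ G := by
      have h1 : M / 2 < W * (G + 1) := by
        rw [hG]
        have := Nat.div_add_mod (M / 2) W
        have h2 := Nat.mod_lt (M / 2) hW0
        rw [Nat.mul_add]
        omega
      have h2 : M < 2 * (W * (G + 1)) := by omega
      have h3 : (M : ℝ) + 1 ≤ 2 * (W * (G + 1)) := by exact_mod_cast h2
      have h4 : u ≤ 2 * (9 * w * (G + 1)) := by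
        have h5 : (W : ℝ) * (G + 1) ≤ 9 * w * (G + 1) :=
          mul_le_mul_of_nonneg_right hW9 (by positivity)
        linarith
      have h6 : u / w ≤ 18 * (G + 1) := by
        rw [div_le_iff₀ (by linarith)]
        linarith
      linarith
    have hG0 : (0 : ℝ) ≤ u / w / 72 := by linarith
    have hG22 : (u / w / 72) ^ 22 ≤ (G : ℝ) ^ 22 := pow_le_pow_left₀ hG0 hGl 22
    have hsq : ((Nat.sqrt L : ℕ) : ℝ) + 1 ≤ 2 * v ^ (1 / 2 : ℝ) := by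
      have h1 : ((Nat.sqrt L : ℕ) : ℝ) ≤ √(L : ℝ) := Real.nat_sqrt_le_real_sqrt
      have h2 : √(L : ℝ) ≤ √v := Real.sqrt_le_sqrt hLv
      rw [Real.sqrt_eq_rpow v] at h2
      have h3 : 1 ≤ v ^ (1 / 2 : ℝ) := Real.one_le_rpow hv1 (by norm_num)
      linarith
    have hL10 : (L : ℝ) ^ 10 ≤ v ^ 10 := pow_le_pow_left₀ (Nat.cast_nonneg _) hLv 10
    have hQ231 : (Q : ℝ) ^ 231 ≤ F5 * t ^ 231 := by
      rw [hF5, ← mul_pow]
      exact pow_le_pow_left₀ (Nat.cast_nonneg _) hQ2 231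
    have hfin := final_ineq N x c0 K v t u w hN hx hc hv ht hu hw hn
    have hmain : 2070 * (L : ℝ) ^ 10 * ((Nat.sqrt L : ℕ) + 1) * (Q : ℝ) ^ 231 < (G : ℝ) ^ 22 := by
      refine lt_of_le_of_lt ?_ (lt_of_lt_of_le ?_ hG22) (b := 4140 * F5 *
        (v ^ 10 * v ^ (1 / 2 : ℝ) * t ^ 231))
      · have hm1 : 2070 * (L : ℝ) ^ 10 ≤ 2070 * v ^ 10 :=
          mul_le_mul_of_nonneg_left hL10 (by norm_num)
        have hm2 : 2070 * (L : ℝ) ^ 10 * ((Nat.sqrt L : ℕ) + 1) ≤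
            2070 * v ^ 10 * (2 * v ^ (1 / 2 : ℝ)) :=
          mul_le_mul hm1 hsq (by positivity) (by positivity)
        have hv12 : 0 ≤ 2070 * v ^ 10 * (2 * v ^ (1 / 2 : ℝ)) := by positivity
        have hq0 : 0 ≤ (Q : ℝ) ^ 231 := pow_nonneg (Nat.cast_nonneg _) _
        calc 2070 * (L : ℝ) ^ 10 * ((Nat.sqrt L : ℕ) + 1) * (Q : ℝ) ^ 231
            ≤ 2070 * v ^ 10 * (2 * v ^ (1 / 2 : ℝ)) * (F5 * t ^ 231) :=
              mul_le_mul hm2 hQ231 hq0 hv12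
          _ = 4140 * F5 * (v ^ 10 * v ^ (1 / 2 : ℝ) * t ^ 231) := by ring
      · rw [div_pow, lt_div_iff₀ (by positivity)]
        calc 4140 * F5 * (v ^ 10 * v ^ (1 / 2 : ℝ) * t ^ 231) * 72 ^ 22
            = K * (v ^ 10 * v ^ (1 / 2 : ℝ) * t ^ 231) := by rw [hK]; ring
          _ < (u / w) ^ 22 := hfin
    exact_mod_cast hmain

end Pool.Agent.NTL
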