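import Pool.Agent.Work.MP_96a720_co.L.Params

/-!
Module AsymB (M, real exponents only). PROOF. λ_k > 0, λ_(k+1) = 24 λ_k, 23 λ_k <= λ_680 = 1/1000 for k < 680 (24 λ_k = λ_(k+1) <= λ_680,
λ is increasing), λ_k >= 4 c0. `Bad` gives s >= (n^2/256)^(1/3) >= n^(2/3)/7.
* 1 <= Lam n k (n >= 1). * 16 Lam n k <= Lam n (k+1) = (Lam n k)^24: Lam n k >= n^(4 c0) tends to infinity.
* 10^6 Λ^23 (1/s + 2 τ/Λ') with Λ' = Λ^24: first part <= 10^6 n^(1/1000) * 7 n^(-2/3) -> 0; second part = 2*10^6 τ/Λ <=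
  2*10^6 A n^c0 / n^(4 c0) -> 0.
* last: 1200 Λ^23 C L^(3/5) <= 1200 C n^(1/1000) n^(3/5) = o(n^(2/3)).
-/

set_option autoImplicit false

namespace Pool.Agent.NTL

private lemma lam_pos (k : ℕ) : 0 < lam k := by
  unfold lam
  have := c0_pos
  positivity

private lemma four_c0_le (k : ℕ) : 4 * c0 ≤ lam k := by
  unfold lam
  have h := c0_pos
  have h1 : (1 : ℝ) ≤ 24 ^ k := one_le_pow₀ (by norm_num)
  nlinarith

private lemma lam_mono {i j : ℕ} (h : i ≤ j) : lam i ≤ lam j := by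
  unfold lam
  have h0 := c0_pos
  have h1 : (24 : ℝ) ^ i ≤ 24 ^ j := pow_le_pow_right₀ (by norm_num) h
  exact mul_le_mul_of_nonneg_left h1 (by positivity)

private lemma lam_le {k : ℕ} (hk : k < 680) : 23 * lam k ≤ 1 / 1000 := by
  have h1 : lam (k + 1) ≤ lam 680 := lam_mono hk
  rw [lam_last, lam_succ] at h1
  have := lam_pos k
  linarith

private lemma ev_ge {e : ℝ} (he : 0 < e) (B : ℝ) : ∀ᶠ n : ℕ in Filter.atTop, B < (n : ℝ) ^ e :=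
  ((tendsto_rpow_atTop he).comp tendsto_natCast_atTop_atTop).eventually_gt_atTop B

theorem asymB (A C : ℝ) (hA : 1 ≤ A) (hC : 0 < C) (k : ℕ) (hk : k < 680) :
    ∀ᶠ n : ℕ in Filter.atTop, ∀ s : ℕ, Bad n s →
      1 ≤ Lam n k ∧ 16 * Lam n k ≤ Lam n (k + 1) ∧
      10 ^ 6 * Lam n k ^ 23 * (1 / (s : ℝ) + 2 * tau A n / Lam n (k + 1)) ≤ 1 ∧
      1200 * Lam n k ^ 23 * (C * (Lk n k : ℝ) ^ (3 / 5 : ℝ)) < s := by
  have hc := c0_pos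
  have hl := lam_pos k
  filter_upwards [Filter.eventually_ge_atTop 1, ev_ge (e := 23 * lam k) (by linarith) 16,
    ev_ge (e := 2 / 3 - 1 / 1000) (by norm_num) (14 * 10 ^ 6),
    ev_ge (e := 3 * c0) (by linarith) (4 * 10 ^ 6 * A),
    ev_ge (e := 2 / 3 - 3 / 5 - 1 / 1000) (by norm_num) (8400 * C)] with n hn1 e1 e2 e3 e4 s hs
  obtain ⟨hs1, -⟩ := hs
  have hn : (1 : ℝ) ≤ n := by exact_mod_cast hn1
  have hn0 : (0 : ℝ) < n := by linarith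
  obtain ⟨Λ, hΛ⟩ : ∃ Λ : ℝ, Λ = Lam n k := ⟨_, rfl⟩
  have hΛ' : (n : ℝ) ^ lam k = Λ := by rw [hΛ]; rfl
  have hΛ1 : 1 ≤ Λ := by rw [← hΛ']; exact Real.one_le_rpow hn hl.le
  have hΛ0 : 0 < Λ := by linarith
  have h23 : (n : ℝ) ^ (23 * lam k) = Λ ^ 23 := by
    rw [← hΛ', ← Real.rpow_natCast ((n : ℝ) ^ lam k) 23, ← Real.rpow_mul hn0.le]
    congr 1
    push_cast
    ring
  have h24 : Lam n (k + 1) = Λ * Λ ^ 23 := by
    unfold Lam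
    rw [lam_succ, ← h23, ← hΛ', ← Real.rpow_add hn0]
    congr 1
    ring
  have h23le : Λ ^ 23 ≤ (n : ℝ) ^ (1 / 1000 : ℝ) := by
    rw [← h23]
    exact Real.rpow_le_rpow_of_exponent_le hn (lam_le hk)
  have hΛ23 : 0 < Λ ^ 23 := by positivity
  -- the lower bound for `s`
  have hs7 : (n : ℝ) ^ (2 / 3 : ℝ) ≤ 7 * s := by
    have h1 : (n : ℝ) ^ 2 ≤ (7 * (s : ℝ)) ^ 3 := by
      have : 0 ≤ (s : ℝ) ^ 3 := by positivity
      nlinarith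
    have h2 : ((n : ℝ) ^ 2) ^ (1 / 3 : ℝ) ≤ ((7 * (s : ℝ)) ^ 3) ^ (1 / 3 : ℝ) :=
      Real.rpow_le_rpow (by positivity) h1 (by norm_num)
    rw [← Real.rpow_natCast (n : ℝ) 2, ← Real.rpow_natCast (7 * (s : ℝ)) 3,
      ← Real.rpow_mul hn0.le, ← Real.rpow_mul (by positivity)] at h2
    norm_num at h2
    exact h2
  have hnp : 0 < (n : ℝ) ^ (2 / 3 : ℝ) := by positivity
  have hs0 : (0 : ℝ) < s := by linarith
  rw [← hΛ, h24]
  refine ⟨hΛ1, ?_, ?_, ?_⟩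
  · rw [h23] at e1
    nlinarith
  · -- third
    have f1 : (14 * 10 ^ 6 : ℝ) * (Λ ^ 23) ≤ (n : ℝ) ^ (2 / 3 : ℝ) := by
      have : (n : ℝ) ^ (2 / 3 : ℝ) = (n : ℝ) ^ (2 / 3 - 1 / 1000 : ℝ) * (n : ℝ) ^ (1 / 1000 : ℝ) := by
        rw [← Real.rpow_add hn0]
        congr 1
        ring
      rw [this]
      exact mul_le_mul e2.le h23le hΛ23.le (by positivity)
    have g1 : 10 ^ 6 * Λ ^ 23 * (1 / (s : ℝ)) ≤ 1 / 2 := by
      rw [mul_one_div, div_le_iff₀ hs0]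
      linarith
    have f2 : 4 * 10 ^ 6 * (tau A n : ℝ) ≤ Λ := by
      have h5 : (tau A n : ℝ) ≤ A * (n : ℝ) ^ c0 := Nat.floor_le (by positivity)
      have h6 : (n : ℝ) ^ (4 * c0) ≤ Λ := by
        rw [← hΛ']
        exact Real.rpow_le_rpow_of_exponent_le hn (four_c0_le k)
      have h7 : (n : ℝ) ^ (4 * c0) = (n : ℝ) ^ (3 * c0) * (n : ℝ) ^ c0 := by
        rw [← Real.rpow_add hn0]
        congr 1
        ring
      have h8 : 4 * 10 ^ 6 * A * (n : ℝ) ^ c0 ≤ (n : ℝ) ^ (3 * c0) * (n : ℝ) ^ c0 :=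
        mul_le_mul_of_nonneg_right e3.le (by positivity)
      calc 4 * 10 ^ 6 * (tau A n : ℝ) ≤ 4 * 10 ^ 6 * (A * (n : ℝ) ^ c0) := by linarith
        _ = 4 * 10 ^ 6 * A * (n : ℝ) ^ c0 := by ring
        _ ≤ _ := h8
        _ = _ := h7.symm
        _ ≤ Λ := h6
    have g2 : 10 ^ 6 * Λ ^ 23 * (2 * (tau A n : ℝ) / (Λ * Λ ^ 23)) ≤ 1 / 2 := by
      have : 10 ^ 6 * Λ ^ 23 * (2 * (tau A n : ℝ) / (Λ * Λ ^ 23)) =
          2 * 10 ^ 6 * (tau A n : ℝ) / Λ := by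
        field_simp
      rw [this, div_le_iff₀ hΛ0]
      linarith
    rw [mul_add]
    linarith
  · -- fourth
    have hL : (Lk n k : ℝ) ≤ n := by
      have h5 : (Lk n k : ℝ) ≤ (n : ℝ) ^ (1 - (k : ℝ) / 2000) := Nat.floor_le (by positivity)
      have h6 : (n : ℝ) ^ (1 - (k : ℝ) / 2000) ≤ (n : ℝ) ^ (1 : ℝ) := by
        refine Real.rpow_le_rpow_of_exponent_le hn ?_
        have : (0 : ℝ) ≤ (k : ℝ) / 2000 := by positivity
        linarith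
      rw [Real.rpow_one] at h6
      exact h5.trans h6
    have hL2 : (Lk n k : ℝ) ^ (3 / 5 : ℝ) ≤ (n : ℝ) ^ (3 / 5 : ℝ) :=
      Real.rpow_le_rpow (by positivity) hL (by norm_num)
    have f1 : Λ ^ 23 * (Lk n k : ℝ) ^ (3 / 5 : ℝ) ≤
        (n : ℝ) ^ (1 / 1000 : ℝ) * (n : ℝ) ^ (3 / 5 : ℝ) :=
      mul_le_mul h23le hL2 (by positivity) (by positivity)
    have f2 : (n : ℝ) ^ (2 / 3 : ℝ) = (n : ℝ) ^ (2 / 3 - 3 / 5 - 1 / 1000 : ℝ) *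
        ((n : ℝ) ^ (1 / 1000 : ℝ) * (n : ℝ) ^ (3 / 5 : ℝ)) := by
      rw [← Real.rpow_add hn0, ← Real.rpow_add hn0]
      congr 1
      ring
    have f3 : 8400 * C * ((n : ℝ) ^ (1 / 1000 : ℝ) * (n : ℝ) ^ (3 / 5 : ℝ)) <
        (n : ℝ) ^ (2 / 3 : ℝ) := by
      rw [f2]
      exact mul_lt_mul_of_pos_right e4 (by positivity)
    have f4 : 8400 * C * (Λ ^ 23 * (Lk n k : ℝ) ^ (3 / 5 : ℝ)) ≤
        8400 * C * ((n : ℝ) ^ (1 / 1000 : ℝ) * (n : ℝ) ^ (3 / 5 : ℝ)) :=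
      mul_le_mul_of_nonneg_left f1 (by positivity)
    nlinarith

end Pool.Agent.NTL
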