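import Pool.Agent.Work.MP_96a720_co.L.Params

/-!
Module AsymC (S-M, real exponents only). PROOF. `Bad`: n^(2/3)/7 <= s < n^(2/3+c0), c0 <= 10^(-6).
* 2 s <= n for large n. * 8 s^2 <= Wn n s * n (definition of the ceiling, n >= 1; exact for n >= 1).
* 256 s^3/n^2 <= 256 n^(3 c0) <= n^(4 c0) = Lam n 0 for large n.
* 2 Lam n 680 * Lk n 680 <= 2 n^(1/1000) n^(1 - 680/2000) = 2 n^0.661 < n^(2/3)/7 <= s for large n.
`asymD`: s < n^(2/3+c0) <= n^0.7 and 2 n^0.7 <= n for large n.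
-/

set_option autoImplicit false

namespace Pool.Agent.NTL

private lemma c0_le : c0 ≤ 1 / 12 := by
  unfold c0
  have h : (1 : ℝ) ≤ 24 ^ 680 := one_le_pow₀ (by norm_num)
  generalize (24 : ℝ) ^ 680 = x at h ⊢
  rw [div_le_div_iff₀ (by positivity) (by norm_num)]
  linarith

private lemma ev_ge (C δ : ℝ) (hδ : 0 < δ) : ∀ᶠ n : ℕ in Filter.atTop, C ≤ (n : ℝ) ^ δ :=
  ((tendsto_rpow_atTop hδ).comp tendsto_natCast_atTop_atTop).eventually_ge_atTop C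

private lemma ev_gt (C δ : ℝ) (hδ : 0 < δ) : ∀ᶠ n : ℕ in Filter.atTop, C < (n : ℝ) ^ δ :=
  ((tendsto_rpow_atTop hδ).comp tendsto_natCast_atTop_atTop).eventually_gt_atTop C

theorem asymD : ∀ᶠ n : ℕ in Filter.atTop, ∀ s : ℕ, (s : ℝ) < (n : ℝ) ^ (2 / 3 + c0 : ℝ) →
    2 * s ≤ n := by
  filter_upwards [ev_ge 2 (1 / 4) (by norm_num), Filter.eventually_ge_atTop 1] with n h1 h2 s hs
  have hn : (1 : ℝ) ≤ n := by exact_mod_cast h2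
  have hn0 : (0 : ℝ) < n := by linarith
  have h3 : (n : ℝ) ^ (2 / 3 + c0 : ℝ) ≤ (n : ℝ) ^ (3 / 4 : ℝ) :=
    Real.rpow_le_rpow_of_exponent_le hn (by have := c0_le; linarith)
  have h4 : (n : ℝ) ^ (1 / 4 : ℝ) * (n : ℝ) ^ (3 / 4 : ℝ) = n := by
    rw [← Real.rpow_add hn0]; norm_num
  have h5 : (2 : ℝ) * s ≤ n := by
    calc (2 : ℝ) * s ≤ (n : ℝ) ^ (1 / 4 : ℝ) * (n : ℝ) ^ (3 / 4 : ℝ) :=
          mul_le_mul h1 (hs.le.trans h3) (Nat.cast_nonneg _) (by positivity)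
      _ = n := h4
  exact_mod_cast h5

theorem asymC : ∀ᶠ n : ℕ in Filter.atTop, ∀ s : ℕ, Bad n s →
    2 * s ≤ n ∧ 8 * s ^ 2 ≤ Wn n s * n ∧ 256 * (s : ℝ) ^ 3 / (n : ℝ) ^ 2 ≤ Lam n 0 ∧
      2 * Lam n 680 * Lk n 680 < s := by
  filter_upwards [asymD, Filter.eventually_ge_atTop 1, ev_ge 256 c0 c0_pos,
    ev_gt 2048 (17 / 1000) (by norm_num)] with n h1 h2 h3 h4 s hs
  obtain ⟨hs1, hs2⟩ := hs
  have hn : (1 : ℝ) ≤ n := by exact_mod_cast h2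
  have hn0 : (0 : ℝ) < n := by linarith
  refine ⟨h1 s hs2, ?_, ?_, ?_⟩
  · have h5 : 8 * (s : ℝ) ^ 2 / n ≤ (Wn n s : ℝ) := by
      unfold Wn
      exact Nat.le_ceil _
    rw [div_le_iff₀ hn0] at h5
    exact_mod_cast h5
  · have h5 : (s : ℝ) ^ 3 ≤ (n : ℝ) ^ (2 + 3 * c0 : ℝ) := by
      have h6 : (s : ℝ) ^ 3 ≤ ((n : ℝ) ^ (2 / 3 + c0 : ℝ)) ^ 3 :=
        pow_le_pow_left₀ (Nat.cast_nonneg _) hs2.le 3
      refine h6.trans (le_of_eq ?_)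
      rw [← Real.rpow_natCast, ← Real.rpow_mul hn0.le]
      congr 1
      push_cast
      ring
    have h7 : (n : ℝ) ^ (2 + 3 * c0 : ℝ) = (n : ℝ) ^ 2 * (n : ℝ) ^ (3 * c0 : ℝ) := by
      rw [Real.rpow_add hn0]
      norm_num
    have h8 : Lam n 0 = (n : ℝ) ^ c0 * (n : ℝ) ^ (3 * c0 : ℝ) := by
      unfold Lam
      rw [lam_zero, ← Real.rpow_add hn0]
      congr 1
      ring
    rw [div_le_iff₀ (by positivity), h8]
    calc 256 * (s : ℝ) ^ 3 ≤ (n : ℝ) ^ c0 * ((n : ℝ) ^ 2 * (n : ℝ) ^ (3 * c0 : ℝ)) :=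
          mul_le_mul h3 (h5.trans (le_of_eq h7)) (by positivity) (by positivity)
      _ = (n : ℝ) ^ c0 * (n : ℝ) ^ (3 * c0 : ℝ) * (n : ℝ) ^ 2 := by ring
  · by_contra hcon
    push Not at hcon
    have h5 : (Lk n 680 : ℝ) ≤ (n : ℝ) ^ (660 / 1000 : ℝ) := by
      unfold Lk
      have h6 : (1 - ((680 : ℕ) : ℝ) / 2000) = (660 / 1000 : ℝ) := by norm_num
      rw [h6]
      exact Nat.floor_le (by positivity)
    have h6 : Lam n 680 = (n : ℝ) ^ (1 / 1000 : ℝ) := by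
      unfold Lam
      rw [lam_last]
    have h7 : (s : ℝ) ≤ 2 * (n : ℝ) ^ (661 / 1000 : ℝ) := by
      refine hcon.trans ?_
      rw [h6]
      have h8 : (n : ℝ) ^ (661 / 1000 : ℝ) = (n : ℝ) ^ (1 / 1000 : ℝ) * (n : ℝ) ^ (660 / 1000 : ℝ) := by
        rw [← Real.rpow_add hn0]; norm_num
      rw [h8, mul_assoc]
      exact mul_le_mul_of_nonneg_left (mul_le_mul_of_nonneg_left h5 (by positivity)) (by norm_num)
    have h8 : (s : ℝ) ^ 3 ≤ 8 * (n : ℝ) ^ (1983 / 1000 : ℝ) := by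
      have h9 : (s : ℝ) ^ 3 ≤ (2 * (n : ℝ) ^ (661 / 1000 : ℝ)) ^ 3 :=
        pow_le_pow_left₀ (Nat.cast_nonneg _) h7 3
      refine h9.trans (le_of_eq ?_)
      rw [mul_pow, ← Real.rpow_natCast ((n : ℝ) ^ (661 / 1000 : ℝ)), ← Real.rpow_mul hn0.le]
      norm_num
    have h9 : (n : ℝ) ^ 2 = (n : ℝ) ^ (17 / 1000 : ℝ) * (n : ℝ) ^ (1983 / 1000 : ℝ) := by
      rw [← Real.rpow_add hn0]
      norm_num
    have h10 : (0 : ℝ) < (n : ℝ) ^ (1983 / 1000 : ℝ) := by positivity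
    have h11 := mul_lt_mul_of_pos_right h4 h10
    rw [← h9] at h11
    linarith

end Pool.Agent.NTL
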