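import Pool.Agent.Work.MP_96a720_co.L.CDefs

/-!
Module CClass (S-M). PROOF. F mod p := `MvPolynomial.map (Int.castRingHom (ZMod p)) F` is nonzero: otherwise all
coefficients of F are divisible by p, hence all of `dy F`, hence p | ev a (dy F) (`map_pderiv`/`MvPolynomial.pderiv_map`,
`eval_map`). Its totalDegree is <= 8 (`MvPolynomial.totalDegree_map_le`). The classes of the points of A are zeros of
F mod p in (ZMod p)^2, at most 8 p by Schwartz-Zippel (`MvPolynomial.schwartz_zippel_totalDegree` with S = univ,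
n = 2: #zeros / p^2 <= totalDegree / p; p prime so ZMod p is a field).
-/

set_option autoImplicit false
open Classical

namespace Pool.Agent.NTL

private lemma cclass_eval (p : ℕ) (b : Pt) (F : MvPolynomial (Fin 2) ℤ) :
    MvPolynomial.eval ![(b.1 : ZMod p), (b.2 : ZMod p)]
      (MvPolynomial.map (Int.castRingHom (ZMod p)) F) = ((ev b F : ℤ) : ZMod p) := by
  have h := MvPolynomial.eval₂_comp_left (Int.castRingHom (ZMod p)) (RingHom.id ℤ) ![b.1, b.2] F
  have h1 : (Int.castRingHom (ZMod p)) ∘ ![b.1, b.2] = ![(b.1 : ZMod p), (b.2 : ZMod p)] := by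
    ext i
    fin_cases i <;> simp
  rw [h1, RingHom.comp_id] at h
  unfold ev
  rw [MvPolynomial.eval_map, ← h]
  simp [MvPolynomial.eval₂_id]

theorem cclass (p : ℕ) (hp : p.Prime) (F : MvPolynomial (Fin 2) ℤ) (hd : F.totalDegree ≤ 8)
    (a : Pt) (ha : ¬ (p : ℤ) ∣ ev a (dy F)) (A : Finset Pt) (hv : ∀ a ∈ A, ev a F = 0) :
    (A.image fun b : Pt => ((b.1 : ZMod p), (b.2 : ZMod p))).card ≤ 8 * p := by
  have := Fact.mk hp
  set G : MvPolynomial (Fin 2) (ZMod p) := MvPolynomial.map (Int.castRingHom (ZMod p)) F with hG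
  have hG0 : G ≠ 0 := by
    intro h0
    apply ha
    have h1 : MvPolynomial.map (Int.castRingHom (ZMod p)) (dy F) = 0 := by
      unfold dy
      rw [← MvPolynomial.pderiv_map, ← hG, h0, map_zero]
    have h2 := cclass_eval p a (dy F)
    rw [h1, map_zero] at h2
    exact (ZMod.intCast_zmod_eq_zero_iff_dvd _ p).1 h2.symm
  have hGd : G.totalDegree ≤ 8 := by
    refine le_trans ?_ hd
    unfold MvPolynomial.totalDegree
    exact Finset.sup_mono (MvPolynomial.support_map_subset _ _)
  have hsz := MvPolynomial.schwartz_zippel_totalDegree hG0 (Finset.univ : Finset (ZMod p))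
  have hcardp : (Finset.univ : Finset (ZMod p)).card = p := by
    rw [Finset.card_univ, ZMod.card]
  rw [hcardp] at hsz
  set Z : Finset (Fin 2 → ZMod p) :=
    Finset.filter (fun f => MvPolynomial.eval f G = 0)
      (Fintype.piFinset fun _ => (Finset.univ : Finset (ZMod p))) with hZ
  have hp0 : (0 : ℚ≥0) < p := by exact_mod_cast hp.pos
  have h3 : (Z.card : ℚ≥0) ≤ 8 * p := by
    have h4 : (Z.card : ℚ≥0) ≤ G.totalDegree / p * (p : ℚ≥0) ^ 2 := by
      rw [div_le_iff₀ (by positivity)] at hsz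
      convert hsz
    have h5 : (G.totalDegree : ℚ≥0) / p * (p : ℚ≥0) ^ 2 = G.totalDegree * p := by
      field_simp
    rw [h5] at h4
    refine h4.trans ?_
    have h6 : (G.totalDegree : ℚ≥0) ≤ 8 := by exact_mod_cast hGd
    gcongr
  have h3' : Z.card ≤ 8 * p := by exact_mod_cast h3
  refine le_trans ?_ h3'
  apply Finset.card_le_card_of_injOn (fun x : ZMod p × ZMod p => (![x.1, x.2] : Fin 2 → ZMod p))
  · intro x hx
    rw [Finset.mem_coe, Finset.mem_image] at hx
    obtain ⟨b, hb, rfl⟩ := hx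
    rw [Finset.mem_coe, hZ, Finset.mem_filter]
    refine ⟨by rw [Fintype.mem_piFinset]; intro i; exact Finset.mem_univ _, ?_⟩
    rw [hG]
    rw [cclass_eval p b F, hv b hb]
    simp
  · intro x _ y _ hxy
    have h7 := congrFun hxy 0
    have h8 := congrFun hxy 1
    simp at h7 h8
    exact Prod.ext h7 h8

end Pool.Agent.NTL
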