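import Pool.Agent.Work.MP_96a720_co.L.Defs

set_option autoImplicit false
open Classical

namespace Pool.Agent.NTL

/-- Evaluation of a rational polynomial at an integer point. -/
noncomputable def evQ (a : Pt) (F : MvPolynomial (Fin 2) ℚ) : ℚ :=
  MvPolynomial.eval ![(a.1 : ℚ), (a.2 : ℚ)] F

/-- No nonzero polynomial of degree less than `k` vanishes on at least half of `A`. -/
def Many (k : ℕ) (A : Finset Pt) : Prop :=
  ∀ G : MvPolynomial (Fin 2) ℚ, G ≠ 0 → G.totalDegree + 1 ≤ k →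
    2 * (A.filter fun a => evQ a G = 0).card < A.card

/-- The five monomials `1, x, y, x^2, x y` at a point. -/
def mon (a : Pt) : Fin 5 → ℤ := ![1, a.1, a.2, a.1 ^ 2, a.1 * a.2]

/-- The partial derivative with respect to `y = X 1`. -/
noncomputable def dy (F : MvPolynomial (Fin 2) ℤ) : MvPolynomial (Fin 2) ℤ :=
  MvPolynomial.pderiv 1 F

lemma evQ_map (a : Pt) (F : MvPolynomial (Fin 2) ℤ) :
    evQ a (MvPolynomial.map (Int.castRingHom ℚ) F) = (ev a F : ℚ) := by
  have h := MvPolynomial.eval₂_comp_left (Int.castRingHom ℚ) (RingHom.id ℤ) ![a.1, a.2] F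
  have h1 : (Int.castRingHom ℚ) ∘ ![a.1, a.2] = ![(a.1 : ℚ), (a.2 : ℚ)] := by
    ext i
    fin_cases i <;> simp
  rw [h1, RingHom.comp_id] at h
  unfold evQ ev
  rw [MvPolynomial.eval_map, ← h]
  simp [MvPolynomial.eval₂_id]

end Pool.Agent.NTL
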