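import Mathlib

/-!
Module CDet (M). PROOF. Column j of the matrix is sum over m in range D of coeff (g j) m * p^m * (t i)^m, D larger than
all degrees. Expand the determinant multilinearly in the columns (transpose: rows; `Matrix.detRowAlternating`,
`MultilinearMap.map_sum`, `MultilinearMap.map_smul_univ`): det = sum over m : Fin n -> range D of
(prod_j coeff (g j) (m j) p^(m j)) * det((t i)^(m j)). If m is not injective the last determinant has two equal columns
and is 0 (`Matrix.det_zero_of_column_eq`). If m is injective then sum_j m j >= 0 + 1 + ... + (n-1) = n(n-1)/2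
(`Finset.sum_range_id_mul_two`; the sum of n distinct naturals is at least that: `Finset.sum_range_le_sum`-type lemma,
or sort, or induction removing the maximum), so p^(n(n-1)/2) divides the term.
-/

set_option autoImplicit false
open Classical

namespace Pool.Agent.NTL

private theorem sum_ge (s : Finset ℕ) : ∑ i ∈ Finset.range s.card, i ≤ ∑ x ∈ s, x := by
  induction s using Finset.induction_on_max with
  | empty => simp
  | insert a s ha ih =>
    have h1 : a ∉ s := fun h => lt_irrefl _ (ha a h)
    rw [Finset.card_insert_of_notMem h1, Finset.sum_insert h1, Finset.sum_range_succ]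
    have h2 : s ⊆ Finset.range a := fun x hx => Finset.mem_range.mpr (ha x hx)
    have h3 := Finset.card_le_card h2
    rw [Finset.card_range] at h3
    omega

theorem det_dvd (n : ℕ) (p : ℤ) (g : Fin n → Polynomial ℤ) (t : Fin n → ℤ) :
    p ^ (n * (n - 1) / 2) ∣ Matrix.det (Matrix.of fun i j => (g j).eval (p * t i)) := by
  obtain ⟨D, hD⟩ : ∃ D, ∀ j, (g j).natDegree < D :=
    ⟨(Finset.univ.sup fun j => (g j).natDegree) + 1, fun j => Nat.lt_succ_of_le
      (Finset.le_sup (f := fun j => (g j).natDegree) (Finset.mem_univ j))⟩
  rw [← Matrix.det_transpose]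
  have h1 : (Matrix.of fun i j => (g j).eval (p * t i)).transpose =
      (fun j => ∑ m ∈ Finset.range D, ((g j).coeff m * p ^ m) • (fun i => t i ^ m) :
        Matrix (Fin n) (Fin n) ℤ) := by
    ext j i
    rw [Matrix.transpose_apply, Matrix.of_apply, Finset.sum_apply,
      Polynomial.eval_eq_sum_range' (hD j)]
    refine Finset.sum_congr rfl fun m _ => ?_
    rw [Pi.smul_apply, smul_eq_mul, mul_pow, mul_assoc]
  rw [h1]
  change p ^ _ ∣ Matrix.detRowAlternating.toMultilinearMap
    (fun j => ∑ m ∈ Finset.range D, ((g j).coeff m * p ^ m) • (fun i => t i ^ m))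
  rw [MultilinearMap.map_sum_finset]
  refine Finset.dvd_sum fun r _ => ?_
  rw [MultilinearMap.map_smul_univ, smul_eq_mul]
  by_cases hinj : Function.Injective r
  · refine Dvd.dvd.mul_right ?_ _
    rw [Finset.prod_mul_distrib, Finset.prod_pow_eq_pow_sum]
    refine Dvd.dvd.mul_left (pow_dvd_pow p ?_) _
    rw [← Finset.sum_range_id]
    have h2 := sum_ge (Finset.univ.image r)
    rw [Finset.card_image_of_injective _ hinj, Finset.card_univ, Fintype.card_fin,
      Finset.sum_image fun a _ b _ h => hinj h] at h2
    exact h2
  · have h2 : ∃ a b, r a = r b ∧ a ≠ b := by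
      by_contra h
      push Not at h
      exact hinj fun a b hab => h a b hab
    obtain ⟨a, b, hab, hne⟩ := h2
    have h3 : Matrix.detRowAlternating.toMultilinearMap (fun j => (fun i : Fin n => t i ^ r j)) =
        0 := by
      change Matrix.detRowAlternating (fun j => (fun i : Fin n => t i ^ r j)) = 0
      exact AlternatingMap.map_eq_zero_of_eq _ _ (by rw [hab]) hne
    rw [h3, mul_zero]
    exact dvd_zero _

end Pool.Agent.NTL
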