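import Mathlib

/-!
Module CFactor (S-M). PROOF. Let ρ = aeval (X 0) r in MvPolynomial (Fin 2) ℚ and let σ be the algebra automorphism
X 0 -> X 0, X 1 -> X 1 + ρ (`MvPolynomial.aeval`/`bind₁`), inverse X 1 -> X 1 - ρ. G = σ F. The polynomial G(x, 0) = F(x, r(x)) = 0,
i.e. aeval ![X, 0] G = 0 in ℚ[X]; hence no monomial of G is free of X 1 (the coefficient of x^i in G(x,0) is
coeff (single 0 i) G), so X 1 divides G (`MvPolynomial.X_dvd_iff_modMonomial_eq_zero`, or `MvPolynomial.mem_ideal_span_X_image`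
for the set {1}: every monomial in the support has positive exponent at 1). G = X 1 * H', apply the inverse:
F = (X 1 - ρ) * σ^(-1) H'.
-/

set_option autoImplicit false
open Classical

namespace Pool.Agent.NTL

/-- a congruence: `F(X 0, X 1) - F(X 0, ρ)` is divisible by `X 1 - ρ` -/
private theorem cong (F : MvPolynomial (Fin 2) ℚ) (ρ : MvPolynomial (Fin 2) ℚ) :
    MvPolynomial.X 1 - ρ ∣ F - MvPolynomial.aeval ![(MvPolynomial.X 0 : MvPolynomial (Fin 2) ℚ), ρ] F := by
  induction F using MvPolynomial.induction_on with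
  | C a => simp [MvPolynomial.algebraMap_eq]
  | add F G hF hG =>
    rw [map_add]
    have e : F + G - (MvPolynomial.aeval ![(MvPolynomial.X 0 : MvPolynomial (Fin 2) ℚ), ρ] F +
        MvPolynomial.aeval ![(MvPolynomial.X 0 : MvPolynomial (Fin 2) ℚ), ρ] G) =
        (F - MvPolynomial.aeval ![(MvPolynomial.X 0 : MvPolynomial (Fin 2) ℚ), ρ] F) +
        (G - MvPolynomial.aeval ![(MvPolynomial.X 0 : MvPolynomial (Fin 2) ℚ), ρ] G) := by ring
    rw [e]
    exact dvd_add hF hG
  | mul_X F i hF =>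
    rw [map_mul, MvPolynomial.aeval_X]
    have h1 : MvPolynomial.X 1 - ρ ∣ MvPolynomial.X i -
        (![(MvPolynomial.X 0 : MvPolynomial (Fin 2) ℚ), ρ] : Fin 2 → MvPolynomial (Fin 2) ℚ) i := by
      fin_cases i
      · simp
      · simp
    have e : F * MvPolynomial.X i -
        MvPolynomial.aeval ![(MvPolynomial.X 0 : MvPolynomial (Fin 2) ℚ), ρ] F *
          (![(MvPolynomial.X 0 : MvPolynomial (Fin 2) ℚ), ρ] : Fin 2 → MvPolynomial (Fin 2) ℚ) i =
        (F - MvPolynomial.aeval ![(MvPolynomial.X 0 : MvPolynomial (Fin 2) ℚ), ρ] F) *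
          MvPolynomial.X i +
        MvPolynomial.aeval ![(MvPolynomial.X 0 : MvPolynomial (Fin 2) ℚ), ρ] F *
          (MvPolynomial.X i -
            (![(MvPolynomial.X 0 : MvPolynomial (Fin 2) ℚ), ρ] : Fin 2 → MvPolynomial (Fin 2) ℚ) i) := by
      ring
    rw [e]
    exact dvd_add (Dvd.dvd.mul_right hF _) (Dvd.dvd.mul_left h1 _)

theorem factor (F : MvPolynomial (Fin 2) ℚ) (r : Polynomial ℚ)
    (h : MvPolynomial.aeval ![(Polynomial.X : Polynomial ℚ), r] F = 0) :
    ∃ H : MvPolynomial (Fin 2) ℚ,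
      F = (MvPolynomial.X 1 - Polynomial.aeval (MvPolynomial.X 0) r) * H := by
  have h1 := cong F (Polynomial.aeval (MvPolynomial.X 0) r)
  have h2 : MvPolynomial.aeval ![(MvPolynomial.X 0 : MvPolynomial (Fin 2) ℚ),
      Polynomial.aeval (MvPolynomial.X 0) r] F = 0 := by
    have h3 : (Polynomial.aeval (MvPolynomial.X 0 : MvPolynomial (Fin 2) ℚ))
        (MvPolynomial.aeval ![(Polynomial.X : Polynomial ℚ), r] F) = 0 := by
      rw [h, map_zero]
    rw [← h3, ← AlgHom.comp_apply]
    congr 1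
    refine MvPolynomial.algHom_ext fun i => ?_
    rw [MvPolynomial.aeval_X, AlgHom.comp_apply, MvPolynomial.aeval_X]
    fin_cases i
    · simp
    · simp
  rw [h2, sub_zero] at h1
  exact h1

end Pool.Agent.NTL
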