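import Pool.Agent.Work.MP_96a720_co.L.CMin
import Pool.Agent.Work.MP_96a720_co.L.CFactor

/-!
Module CFew (M-L). PROOF. Work over ℚ: F over ℚ by `evQ_map`; c = (c0,c1,c2,c3,c4): on Z we have
c0 + c1 x + c2 y + c3 x^2 + c4 x y = 0. Let u(x) = c2 + c4 x, v(x) = c0 + c1 x + c3 x^2 : u(x) y + v(x) = 0 on Z.
(0) Each x is the first coordinate of at most two points of Z (NoThree: three points in one column are collinear); each
line contains at most two points of Z (`card_le_two` of CMin for the linear polynomial).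
(A) c2 = c4 = 0: v <> 0 vanishes at the x-coordinates of Z, at most 2 values (`Polynomial.card_roots'`), |Z| <= 4.
(B) c4 <> 0, x0 = -c2/c4. If v(x0) = 0 then v(x) = u(x) ℓ(x) with ℓ linear (or constant) over ℚ, so on Z
u(x)(y + ℓ(x)) = 0, two lines, |Z| <= 4. If v(x0) <> 0: let F = sum f_(i,j) x^i y^j, i + j <= k and
R(x) = sum f_(i,j) x^i u(x)^(k-j) (-v(x))^j, of natDegree <= i + (k-j) + 2j <= 2k <= 16. For z = (x,y) in Z:
u(x)^k F(x,y) = R(x) as u y = -v, so R(x) = 0. R(x0) = f_(0,k) (-v(x0))^k <> 0 (u(x0) = 0, only j = k, hence i = 0,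
contributes). So R <> 0, at most 16 values of x, |Z| <= 32.
(C) c4 = 0, c2 <> 0: y = r(x) on Z, r = -(c0 + c1 X + c3 X^2)/c2. If F(x, r(x)) := aeval ![X, r] F is not the zero
polynomial: its degree is <= i + 2j <= 16, so |Z| <= 32. If it is 0: `factor` gives F = G H, G = X 1 - r(X 0), H <> 0
(F <> 0 by `hc`), totalDegree G + totalDegree H = totalDegree F <= k (`MvPolynomial.totalDegree_mul_of_isDomain`),
totalDegree G is 2 if c3 <> 0 and 1 otherwise (G <> constant: coefficient of X 1 is 1). H has degree <= k - 1. If also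
totalDegree G + 1 <= k then `Many` for G and for H: A is the union of the zero sets, so |A| < |A|/2 + |A|/2,
contradiction. Otherwise k = 2 and totalDegree G = 2, so H is a constant and the coefficient of y^2 in F is
H * (coefficient of y^2 in G) = 0, contradiction with `hc`.
-/

set_option autoImplicit false
open Classical

namespace Pool.Agent.NTL

private lemma fiber_le (Z : Finset Pt) (h3 : NoThree Z) (x : ℤ) :
    (Z.filter fun z => z.1 = x).card ≤ 2 := by
  by_contra hcon
  push Not at hcon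
  obtain ⟨a, ha, b, hb, c, hc, hab, hac, hbc⟩ := Finset.two_lt_card.1 hcon
  rw [Finset.mem_filter] at ha hb hc
  apply h3 a ha.1 b hb.1 c hc.1 hab hac hbc
  rw [ha.2, hb.2, hc.2]
  ring

private lemma card_le_of_root (Z : Finset Pt) (h3 : NoThree Z) (R : Polynomial ℚ) (hR : R ≠ 0)
    (hd : R.natDegree ≤ 16) (hz : ∀ z ∈ Z, R.eval (z.1 : ℚ) = 0) : Z.card ≤ 32 := by
  have h1 : Z.card ≤ 2 * (Z.image Prod.fst).card := by
    apply Finset.card_le_mul_card_image
    intro x _
    exact fiber_le Z h3 x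
  have h2 : (Z.image Prod.fst).card ≤ 16 := by
    have h4 : (Z.image Prod.fst).image (fun x : ℤ => (x : ℚ)) ⊆ R.roots.toFinset := by
      intro q hq
      rw [Finset.mem_image] at hq
      obtain ⟨x, hx, rfl⟩ := hq
      rw [Finset.mem_image] at hx
      obtain ⟨z, hz', rfl⟩ := hx
      rw [Multiset.mem_toFinset, Polynomial.mem_roots hR]
      exact hz z hz'
    have h5 : ((Z.image Prod.fst).image (fun x : ℤ => (x : ℚ))).card = (Z.image Prod.fst).card :=
      Finset.card_image_of_injective _ Int.cast_injective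
    have h6 := Finset.card_le_card h4
    have h7 := Multiset.toFinset_card_le R.roots
    have h8 := Polynomial.card_roots' R
    omega
  omega

/-- The resultant of `F` and `u y + v` up to degree. -/
private noncomputable def rr (k : ℕ) (F : MvPolynomial (Fin 2) ℚ) (u v : Polynomial ℚ) :
    Polynomial ℚ :=
  ∑ m ∈ F.support, Polynomial.C (F.coeff m) * Polynomial.X ^ (m 0) * u ^ (k - m 1) * (-v) ^ (m 1)

private lemma supp_le (k : ℕ) (F : MvPolynomial (Fin 2) ℚ) (hd : F.totalDegree ≤ k) (m : Fin 2 →₀ ℕ)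
    (hm : m ∈ F.support) : m 0 + m 1 ≤ k := by
  have h := MvPolynomial.le_totalDegree hm
  rw [Finsupp.sum_fintype _ _ (fun _ => rfl), Fin.sum_univ_two] at h
  omega

private lemma rr_deg (k : ℕ) (hk : k ≤ 8) (F : MvPolynomial (Fin 2) ℚ) (hd : F.totalDegree ≤ k)
    (u v : Polynomial ℚ) (hu : u.natDegree ≤ 1) (hv : v.natDegree ≤ 2) :
    (rr k F u v).natDegree ≤ 16 := by
  unfold rr
  apply Polynomial.natDegree_sum_le_of_forall_le
  intro m hm
  have h1 := supp_le k F hd m hm
  have h2 : (Polynomial.C (F.coeff m) * Polynomial.X ^ (m 0) : Polynomial ℚ).natDegree ≤ m 0 :=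
    Polynomial.natDegree_C_mul_X_pow_le _ _
  have h3 : (u ^ (k - m 1)).natDegree ≤ (k - m 1) * 1 :=
    (Polynomial.natDegree_pow_le).trans (Nat.mul_le_mul_left _ hu)
  have h4 : ((-v) ^ (m 1)).natDegree ≤ (m 1) * 2 := by
    refine (Polynomial.natDegree_pow_le).trans (Nat.mul_le_mul_left _ ?_)
    rw [Polynomial.natDegree_neg]
    exact hv
  have h5 := Polynomial.natDegree_mul_le (p := Polynomial.C (F.coeff m) * Polynomial.X ^ (m 0))
    (q := u ^ (k - m 1))
  have h6 := Polynomial.natDegree_mul_le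
    (p := Polynomial.C (F.coeff m) * Polynomial.X ^ (m 0) * u ^ (k - m 1)) (q := (-v) ^ (m 1))
  omega

private lemma rr_eval (k : ℕ) (F : MvPolynomial (Fin 2) ℚ) (hd : F.totalDegree ≤ k)
    (u v : Polynomial ℚ) (a : Pt) (ha : u.eval (a.1 : ℚ) * (a.2 : ℚ) + v.eval (a.1 : ℚ) = 0) :
    (rr k F u v).eval (a.1 : ℚ) = (u.eval (a.1 : ℚ)) ^ k * evQ a F := by
  have hv : -(v.eval (a.1 : ℚ)) = u.eval (a.1 : ℚ) * (a.2 : ℚ) := by linarith
  unfold rr evQ
  rw [Polynomial.eval_finsetSum, MvPolynomial.eval_eq', Finset.mul_sum]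
  apply Finset.sum_congr rfl
  intro m hm
  have h1 := supp_le k F hd m hm
  simp only [Polynomial.eval_mul, Polynomial.eval_pow, Polynomial.eval_C, Polynomial.eval_X,
    Polynomial.eval_neg, hv, Fin.prod_univ_two, Matrix.cons_val_zero, Matrix.cons_val_one]
  have h2 : (u.eval (a.1 : ℚ)) ^ k = (u.eval (a.1 : ℚ)) ^ (k - m 1) * (u.eval (a.1 : ℚ)) ^ (m 1) := by
    rw [← pow_add]
    congr 1
    omega
  rw [h2, mul_pow]
  ring

private lemma rr_root (k : ℕ) (F : MvPolynomial (Fin 2) ℚ) (hd : F.totalDegree ≤ k)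
    (u v : Polynomial ℚ) (x : ℚ) (hx : u.eval x = 0) :
    (rr k F u v).eval x = F.coeff (Finsupp.single 1 k) * (-(v.eval x)) ^ k := by
  unfold rr
  rw [Polynomial.eval_finsetSum]
  rw [Finset.sum_eq_single (Finsupp.single 1 k)]
  · simp [hx]
  · intro m hm hne
    have h1 := supp_le k F hd m hm
    have h2 : k - m 1 ≠ 0 := by
      intro h0
      apply hne
      ext i
      fin_cases i
      · simp
        omega
      · simp
        omega
    simp [hx, h2]
  · intro hm
    rw [MvPolynomial.notMem_support_iff] at hm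
    simp [hm]

private lemma rr_const (k : ℕ) (F : MvPolynomial (Fin 2) ℚ) (hd : F.totalDegree ≤ k)
    (w : ℚ) (hw : w ≠ 0) (v : Polynomial ℚ) :
    rr k F (Polynomial.C w) v = Polynomial.C (w ^ k) *
      MvPolynomial.aeval ![(Polynomial.X : Polynomial ℚ), Polynomial.C (w⁻¹) * (-v)] F := by
  unfold rr
  rw [MvPolynomial.aeval_eq_eval₂Hom, MvPolynomial.coe_eval₂Hom, MvPolynomial.eval₂_eq',
    Finset.mul_sum]
  apply Finset.sum_congr rfl
  intro m hm
  have h1 := supp_le k F hd m hm
  simp only [Fin.prod_univ_two, Matrix.cons_val_zero, Matrix.cons_val_one,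
    Polynomial.algebraMap_eq, mul_pow, ← Polynomial.C_pow]
  have h2 : w ^ k * (w⁻¹) ^ (m 1) = w ^ (k - m 1) := by
    rw [inv_pow, ← div_eq_mul_inv, pow_sub₀ w hw (by omega)]
    rfl
  rw [← h2, Polynomial.C_mul]
  ring

private lemma two_lines (Z : Finset Pt) (h3 : NoThree Z) (G H : MvPolynomial (Fin 2) ℚ)
    (hG : G ≠ 0) (hH : H ≠ 0) (dG : G.totalDegree ≤ 1) (dH : H.totalDegree ≤ 1)
    (hv : ∀ z ∈ Z, evQ z G = 0 ∨ evQ z H = 0) : Z.card ≤ 4 := by
  have h1 := card_le_two (Z.filter fun z => evQ z G = 0) (h3.mono (Finset.filter_subset _ _)) G hG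
    dG (fun a ha => (Finset.mem_filter.1 ha).2)
  have h2 := card_le_two (Z.filter fun z => evQ z H = 0) (h3.mono (Finset.filter_subset _ _)) H hH
    dH (fun a ha => (Finset.mem_filter.1 ha).2)
  have h4 : Z ⊆ (Z.filter fun z => evQ z G = 0) ∪ (Z.filter fun z => evQ z H = 0) := by
    intro z hz
    rw [Finset.mem_union, Finset.mem_filter, Finset.mem_filter]
    rcases hv z hz with h | h
    · exact Or.inl ⟨hz, h⟩
    · exact Or.inr ⟨hz, h⟩
  have h5 := Finset.card_le_card h4
  have h6 := Finset.card_union_le (Z.filter fun z => evQ z G = 0) (Z.filter fun z => evQ z H = 0)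
  omega

private lemma case_c (k : ℕ) (hk2 : 2 ≤ k) (A : Finset Pt) (hM : Many k A)
    (Q : MvPolynomial (Fin 2) ℚ) (hF1 : Q.totalDegree ≤ k) (hF2 : Q.coeff (Finsupp.single 1 k) ≠ 0)
    (hF3 : ∀ a ∈ A, evQ a Q = 0) (p0 p1 p2 : ℚ) (H : MvPolynomial (Fin 2) ℚ)
    (hH : Q = (MvPolynomial.X 1 + MvPolynomial.C p0 + MvPolynomial.C p1 * MvPolynomial.X 0 +
      MvPolynomial.C p2 * MvPolynomial.X 0 ^ 2) * H) : False := by
  have hQ0 : Q ≠ 0 := by
    rintro rfl
    exact hF2 (MvPolynomial.coeff_zero _)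
  obtain ⟨G, hG⟩ : ∃ G : MvPolynomial (Fin 2) ℚ, G = MvPolynomial.X 1 + MvPolynomial.C p0 +
    MvPolynomial.C p1 * MvPolynomial.X 0 + MvPolynomial.C p2 * MvPolynomial.X 0 ^ 2 := ⟨_, rfl⟩
  rw [← hG] at hH
  have hG1 : G.coeff (Finsupp.single 1 1) = 1 := by
    rw [hG]
    have hne : (0 : Fin 2 →₀ ℕ) ≠ Finsupp.single 1 1 := by
      intro h
      have := DFunLike.congr_fun h 1
      simp at this
    simp [MvPolynomial.coeff_X, MvPolynomial.coeff_C, MvPolynomial.coeff_C_mul,
      MvPolynomial.coeff_X_pow, Finsupp.single_eq_single_iff, hne]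
  have hG2 : G.coeff (Finsupp.single 1 2) = 0 := by
    rw [hG]
    have hne : (0 : Fin 2 →₀ ℕ) ≠ Finsupp.single 1 2 := by
      intro h
      have := DFunLike.congr_fun h 1
      simp at this
    simp [MvPolynomial.coeff_X, MvPolynomial.coeff_C, MvPolynomial.coeff_C_mul,
      MvPolynomial.coeff_X_pow, Finsupp.single_eq_single_iff, hne]
  have hG0 : G ≠ 0 := by
    intro h0
    rw [h0] at hG1
    simp at hG1
  have hH0 : H ≠ 0 := by
    intro h0
    rw [h0, mul_zero] at hH
    exact hQ0 hH
  have hd := MvPolynomial.totalDegree_mul_of_isDomain hG0 hH0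
  rw [← hH] at hd
  have hd1 : 1 ≤ G.totalDegree := by
    have h := MvPolynomial.le_totalDegree (p := G) (s := Finsupp.single 1 1) (by
      rw [MvPolynomial.mem_support_iff, hG1]
      norm_num)
    rw [Finsupp.sum_single_index rfl] at h
    exact h
  have hd2 : G.totalDegree ≤ 2 := by
    rw [hG]
    refine (MvPolynomial.totalDegree_add _ _).trans (max_le ((MvPolynomial.totalDegree_add _ _).trans
      (max_le ((MvPolynomial.totalDegree_add _ _).trans (max_le ?_ ?_)) ?_)) ?_)
    · rw [MvPolynomial.totalDegree_X]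
      norm_num
    · rw [MvPolynomial.totalDegree_C]
      norm_num
    · refine (MvPolynomial.totalDegree_mul _ _).trans ?_
      rw [MvPolynomial.totalDegree_C, MvPolynomial.totalDegree_X]
      norm_num
    · refine (MvPolynomial.totalDegree_mul _ _).trans ?_
      rw [MvPolynomial.totalDegree_C, MvPolynomial.totalDegree_X_pow]
  by_cases hk : G.totalDegree + 1 ≤ k
  · have h1 := hM G hG0 hk
    have h2 := hM H hH0 (by omega)
    have h4 : A ⊆ (A.filter fun z => evQ z G = 0) ∪ (A.filter fun z => evQ z H = 0) := by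
      intro z hz
      have h := hF3 z hz
      rw [hH] at h
      have h' : evQ z G * evQ z H = 0 := by
        rw [← h]
        unfold evQ
        rw [map_mul]
      rw [Finset.mem_union, Finset.mem_filter, Finset.mem_filter]
      rcases mul_eq_zero.1 h' with h | h
      · exact Or.inl ⟨hz, h⟩
      · exact Or.inr ⟨hz, h⟩
    have h5 := Finset.card_le_card h4
    have h6 := Finset.card_union_le (A.filter fun z => evQ z G = 0) (A.filter fun z => evQ z H = 0)
    omega
  · have hk' : k = 2 := by omega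
    have hH1 : H.totalDegree = 0 := by omega
    rw [MvPolynomial.totalDegree_eq_zero_iff_eq_C] at hH1
    apply hF2
    rw [hk', hH, hH1, mul_comm, MvPolynomial.coeff_C_mul, hG2, mul_zero]

theorem few (k : ℕ) (hk2 : 2 ≤ k) (hk : k ≤ 8) (A : Finset Pt) (h3 : NoThree A) (hM : Many k A)
    (F : MvPolynomial (Fin 2) ℤ) (hd : F.totalDegree ≤ k)
    (hc : F.coeff (Finsupp.single 1 k) ≠ 0) (hv : ∀ a ∈ A, ev a F = 0) (Z : Finset Pt)
    (hZ : Z ⊆ A) (c : Fin 5 → ℤ) (hc0 : c ≠ 0) (hcZ : ∀ z ∈ Z, ∑ j, c j * mon z j = 0) :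
    Z.card ≤ 32 := by
  have hF1 : (MvPolynomial.map (Int.castRingHom ℚ) F).totalDegree ≤ k := by
    refine le_trans ?_ hd
    exact Finset.sup_mono (MvPolynomial.support_map_subset _ _)
  have hF2 : (MvPolynomial.map (Int.castRingHom ℚ) F).coeff (Finsupp.single 1 k) ≠ 0 := by
    rw [MvPolynomial.coeff_map]
    simpa using hc
  have hF3 : ∀ a ∈ A, evQ a (MvPolynomial.map (Int.castRingHom ℚ) F) = 0 := by
    intro a ha
    rw [evQ_map, hv a ha]
    simp
  generalize MvPolynomial.map (Int.castRingHom ℚ) F = Q at hF1 hF2 hF3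
  have h3Z : NoThree Z := h3.mono hZ
  obtain ⟨u, hu⟩ : ∃ u : Polynomial ℚ, u = Polynomial.C (c 2 : ℚ) +
    Polynomial.C (c 4 : ℚ) * Polynomial.X := ⟨_, rfl⟩
  obtain ⟨v, hv'⟩ : ∃ v : Polynomial ℚ, v = Polynomial.C (c 0 : ℚ) +
    Polynomial.C (c 1 : ℚ) * Polynomial.X + Polynomial.C (c 3 : ℚ) * Polynomial.X ^ 2 := ⟨_, rfl⟩
  have hue : ∀ x : ℚ, u.eval x = c 2 + c 4 * x := by
    intro x
    rw [hu]
    simp
  have hve : ∀ x : ℚ, v.eval x = c 0 + c 1 * x + c 3 * x ^ 2 := by
    intro x
    rw [hv']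
    simp
  have hud : u.natDegree ≤ 1 := by
    rw [hu]
    compute_degree
  have hvd : v.natDegree ≤ 2 := by
    rw [hv']
    compute_degree
  have hZe : ∀ z ∈ Z, u.eval (z.1 : ℚ) * (z.2 : ℚ) + v.eval (z.1 : ℚ) = 0 := by
    intro z hz
    have h := hcZ z hz
    simp only [Fin.sum_univ_five, mon] at h
    rw [hue, hve]
    have h' := congrArg (fun n : ℤ => (n : ℚ)) h
    simp at h'
    linarith
  by_cases hR : rr k Q u v = 0
  swap
  · apply card_le_of_root Z h3Z (rr k Q u v) hR (rr_deg k hk Q hF1 u v hud hvd)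
    intro z hz
    rw [rr_eval k Q hF1 u v z (hZe z hz), hF3 z (hZ hz), mul_zero]
  by_cases h4 : c 4 = 0
  · by_cases h2 : c 2 = 0
    · -- case A
      have hv0 : v ≠ 0 := by
        intro h0
        apply hc0
        have q0 := hve 0
        have q1 := hve 1
        have q2 := hve (-1)
        rw [h0] at q0 q1 q2
        simp at q0 q1 q2
        have e0 : c 0 = 0 := by
          have : (c 0 : ℚ) = 0 := by linarith
          exact_mod_cast this
        rw [e0] at q1 q2
        have e1 : c 1 = 0 := by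
          have : (c 1 : ℚ) = 0 := by
            push_cast at q1 q2
            linarith
          exact_mod_cast this
        have e3 : c 3 = 0 := by
          have : (c 3 : ℚ) = 0 := by
            push_cast at q1 q2
            linarith
          exact_mod_cast this
        funext i
        fin_cases i
        · exact e0
        · exact e1
        · exact h2
        · exact e3
        · exact h4
      apply card_le_of_root Z h3Z v hv0 (hvd.trans (by norm_num))
      intro z hz
      have h := hZe z hz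
      rw [hue, h2, h4] at h
      simpa using h
    · -- case C
      exfalso
      have hw : (c 2 : ℚ) ≠ 0 := by exact_mod_cast h2
      have huC : u = Polynomial.C (c 2 : ℚ) := by
        rw [hu, h4]
        simp
      rw [huC, rr_const k Q hF1 _ hw v] at hR
      have hae : MvPolynomial.aeval ![(Polynomial.X : Polynomial ℚ),
          Polynomial.C ((c 2 : ℚ)⁻¹) * (-v)] Q = 0 := by
        rcases mul_eq_zero.1 hR with h | h
        · exfalso
          rw [Polynomial.C_eq_zero] at h
          exact hw ((pow_eq_zero_iff (by omega)).1 h)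
        · exact h
      obtain ⟨H, hH⟩ := factor Q _ hae
      obtain ⟨w, hwd⟩ : ∃ w : ℚ, w = (c 2 : ℚ)⁻¹ := ⟨_, rfl⟩
      rw [← hwd] at hH
      have hG : (MvPolynomial.X 1 - Polynomial.aeval (MvPolynomial.X 0) (Polynomial.C w * (-v)) :
          MvPolynomial (Fin 2) ℚ) = MvPolynomial.X 1 + MvPolynomial.C (w * c 0) +
            MvPolynomial.C (w * c 1) * MvPolynomial.X 0 +
            MvPolynomial.C (w * c 3) * MvPolynomial.X 0 ^ 2 := by
        rw [hv']
        simp only [map_mul, map_neg, map_add, map_pow, Polynomial.aeval_C, Polynomial.aeval_X,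
          MvPolynomial.algebraMap_eq]
        ring
      rw [hG] at hH
      have hQ0 : Q ≠ 0 := by
        rintro rfl
        exact hF2 (MvPolynomial.coeff_zero _)
      exact case_c k hk2 A hM Q hF1 hF2 hF3 _ _ _ H hH
  · -- case B
    have hw : (c 4 : ℚ) ≠ 0 := by exact_mod_cast h4
    obtain ⟨x0, hx0⟩ : ∃ x0 : ℚ, (c 2 : ℚ) + c 4 * x0 = 0 := by
      refine ⟨-(c 2 : ℚ) / c 4, ?_⟩
      field_simp
      ring
    have hu0 : u.eval x0 = 0 := by
      rw [hue]
      exact hx0
    have h := rr_root k Q hF1 u v x0 hu0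
    rw [hR, Polynomial.eval_zero] at h
    have hv0 : v.eval x0 = 0 := by
      rcases mul_eq_zero.1 h.symm with h | h
      · exact absurd h hF2
      · have := (pow_eq_zero_iff (by omega)).1 h
        linarith
    rw [hve] at hv0
    have hcard : Z.card ≤ 4 := by
      apply two_lines Z h3Z (MvPolynomial.X 0 - MvPolynomial.C x0)
        (MvPolynomial.C (c 4 : ℚ) * MvPolynomial.X 1 + MvPolynomial.C (c 3 : ℚ) * MvPolynomial.X 0 +
          MvPolynomial.C ((c 1 : ℚ) + c 3 * x0))
      · intro h0
        have := congrArg (MvPolynomial.eval ![x0 + 1, 0]) h0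
        simp at this
      · intro h0
        have t1 := congrArg (MvPolynomial.eval ![0, 1]) h0
        have t2 := congrArg (MvPolynomial.eval ![0, 0]) h0
        simp at t1 t2
        apply hw
        linarith
      · refine (MvPolynomial.totalDegree_sub_C_le _ _).trans ?_
        rw [MvPolynomial.totalDegree_X]
      · refine (MvPolynomial.totalDegree_add _ _).trans (max_le ((MvPolynomial.totalDegree_add _ _).trans (max_le ?_ ?_)) ?_)
        · refine (MvPolynomial.totalDegree_mul _ _).trans ?_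
          rw [MvPolynomial.totalDegree_C, MvPolynomial.totalDegree_X]
        · refine (MvPolynomial.totalDegree_mul _ _).trans ?_
          rw [MvPolynomial.totalDegree_C, MvPolynomial.totalDegree_X]
        · rw [MvPolynomial.totalDegree_C]
          norm_num
      · intro z hz
        have h := hZe z hz
        rw [hue, hve] at h
        unfold evQ
        simp only [map_sub, map_add, map_mul, MvPolynomial.eval_X, MvPolynomial.eval_C,
          Matrix.cons_val_zero, Matrix.cons_val_one]
        rw [← mul_eq_zero]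
        linear_combination h - ((z.2 : ℚ)) * hx0 - hv0
    omega

end Pool.Agent.NTL
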