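import Pool.Agent.Work.MP_96a720_co.L.CHensel
import Pool.Agent.Work.MP_96a720_co.L.CDet

/-!
Module CFive (S-M). PROOF. `hensel` with N = 10 gives φ. Write (b i).1 = a.1 + p t_i. Put
g = ![1, C a.1 + X, φ, (C a.1 + X)^2, (C a.1 + X) * φ]. Then mon (b i) j = (g j).eval (p t_i) mod p^10 for all i, j, so
the two determinants are congruent mod p^10 (apply the ring hom to ZMod (p^10), `RingHom.map_det`; or
`Int.ModEq`), and by `det_dvd` (n = 5, n(n-1)/2 = 10) p^10 divides the determinant D of mon. Leibniz formula: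
|D| <= 120 R^6, every product has one factor from each of the columns 1, x, y, x^2, xy, bounded by 1, R, R, R^2, R^2
(`Matrix.det_apply`, `Finset.abs_sum_le_sum_abs`, card of Perm (Fin 5) = 120; or `Matrix.det_le` is too weak).
120 R^6 < p^10 forces D = 0 (`Int.eq_zero_of_abs_lt_dvd`).
-/

set_option autoImplicit false
open Classical

namespace Pool.Agent.NTL

private lemma five_mon_le (R : ℕ) (z : Pt) (h1 : z.1.natAbs ≤ R) (h2 : z.2.natAbs ≤ R) (j : Fin 5) :
    |mon z j| ≤ (![1, (R : ℤ), R, (R : ℤ) ^ 2, (R : ℤ) ^ 2] : Fin 5 → ℤ) j := by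
  have a1 : |z.1| ≤ R := by
    have := Int.natCast_natAbs z.1
    rw [← this]
    exact_mod_cast h1
  have a2 : |z.2| ≤ R := by
    have := Int.natCast_natAbs z.2
    rw [← this]
    exact_mod_cast h2
  have a3 : |z.1 ^ 2| ≤ (R : ℤ) ^ 2 := by
    rw [abs_pow]
    exact pow_le_pow_left₀ (abs_nonneg _) a1 2
  have a4 : |z.1 * z.2| ≤ (R : ℤ) ^ 2 := by
    rw [abs_mul, sq]
    exact mul_le_mul a1 a2 (abs_nonneg _) (le_trans (abs_nonneg _) a1)
  unfold mon
  fin_cases j
  · simp
  · simpa using a1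
  · simpa using a2
  · simpa using a3
  · simpa using a4

private lemma five_det_le (R : ℕ) (b : Fin 5 → Pt)
    (hR : ∀ i, (b i).1.natAbs ≤ R ∧ (b i).2.natAbs ≤ R) :
    |Matrix.det (Matrix.of fun i j => mon (b i) j)| ≤ 120 * (R : ℤ) ^ 6 := by
  rw [Matrix.det_apply]
  refine (Finset.abs_sum_le_sum_abs _ _).trans ?_
  have hterm : ∀ σ : Equiv.Perm (Fin 5),
      |Equiv.Perm.sign σ • ∏ i, (Matrix.of fun i j => mon (b i) j) (σ i) i| ≤ (R : ℤ) ^ 6 := by
    intro σ
    have h1 : |Equiv.Perm.sign σ • ∏ i, (Matrix.of fun i j => mon (b i) j) (σ i) i| =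
        ∏ i, |mon (b (σ i)) i| := by
      rcases Int.units_eq_one_or (Equiv.Perm.sign σ) with h | h
      · rw [h, one_smul, Finset.abs_prod]
        rfl
      · rw [h, Units.neg_smul, one_smul, abs_neg, Finset.abs_prod]
        rfl
    rw [h1]
    refine (Finset.prod_le_prod (fun i _ => abs_nonneg _)
      fun i _ => five_mon_le R (b (σ i)) (hR _).1 (hR _).2 i).trans ?_
    rw [Fin.prod_univ_five]
    simp only [Matrix.cons_val]
    apply le_of_eq
    ring
  refine (Finset.sum_le_sum fun σ _ => hterm σ).trans ?_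
  rw [Finset.sum_const, Finset.card_univ, Fintype.card_perm, Fintype.card_fin, nsmul_eq_mul]
  apply le_of_eq
  norm_num [Nat.factorial]

theorem five (p R : ℕ) (hp : p.Prime) (F : MvPolynomial (Fin 2) ℤ) (a : Pt) (ha : ev a F = 0)
    (hy : ¬ (p : ℤ) ∣ ev a (dy F)) (b : Fin 5 → Pt)
    (hb : ∀ i, ev (b i) F = 0 ∧ (p : ℤ) ∣ (b i).1 - a.1 ∧ (p : ℤ) ∣ (b i).2 - a.2)
    (hR : ∀ i, (b i).1.natAbs ≤ R ∧ (b i).2.natAbs ≤ R) (hpR : 120 * R ^ 6 < p ^ 10) :
    Matrix.det (Matrix.of fun i j => mon (b i) j) = 0 := by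
  obtain ⟨φ, hφ⟩ := hensel p hp F a ha hy 10
  choose t ht using fun i => (hb i).2.1
  set g : Fin 5 → Polynomial ℤ := ![1, Polynomial.C a.1 + Polynomial.X, φ,
    (Polynomial.C a.1 + Polynomial.X) ^ 2, (Polynomial.C a.1 + Polynomial.X) * φ] with hg
  have hx : ∀ i, (b i).1 = a.1 + p * t i := fun i => by
    have := ht i
    linarith
  have hy' : ∀ i, (p : ℤ) ^ 10 ∣ (b i).2 - φ.eval (p * t i) := fun i => by
    have := hφ (b i) (hb i).1 (hb i).2.1 (hb i).2.2
    rwa [ht i] at this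
  have hgm : ∀ i j, (p : ℤ) ^ 10 ∣ mon (b i) j - (g j).eval (p * t i) := by
    intro i j
    rw [hg]
    unfold mon
    fin_cases j
    · simp
    · simp [hx i]
    · simpa using hy' i
    · simp [hx i]
    · have h1 : (b i).1 * (b i).2 - (a.1 + p * t i) * φ.eval (p * t i) =
          (b i).1 * ((b i).2 - φ.eval (p * t i)) := by
        rw [hx i]
        ring
      have h2 : (p : ℤ) ^ 10 ∣ (b i).1 * (b i).2 - (a.1 + p * t i) * φ.eval (p * t i) := by
        rw [h1]
        exact Dvd.dvd.mul_left (hy' i) _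
      simpa using h2
  have hdvd := det_dvd 5 p g t
  have hdet : (p : ℤ) ^ 10 ∣ Matrix.det (Matrix.of fun i j => mon (b i) j) := by
    have e1 : ((Matrix.of fun i j => mon (b i) j).map (Int.castRingHom (ZMod (p ^ 10)))) =
        ((Matrix.of fun i j => (g j).eval ((p : ℤ) * t i)).map (Int.castRingHom (ZMod (p ^ 10)))) := by
      ext i j
      simp only [Matrix.map_apply, Matrix.of_apply, eq_intCast]
      rw [← sub_eq_zero, ← Int.cast_sub, ZMod.intCast_zmod_eq_zero_iff_dvd]
      have := hgm i j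
      exact_mod_cast this
    have e2 := RingHom.map_det (Int.castRingHom (ZMod (p ^ 10))) (Matrix.of fun i j => mon (b i) j)
    have e3 := RingHom.map_det (Int.castRingHom (ZMod (p ^ 10)))
      (Matrix.of fun i j => (g j).eval ((p : ℤ) * t i))
    have e4 : (Int.castRingHom (ZMod (p ^ 10)))
        (Matrix.det (Matrix.of fun i j => (g j).eval ((p : ℤ) * t i))) = 0 := by
      rw [eq_intCast, ZMod.intCast_zmod_eq_zero_iff_dvd]
      have h5 : ((p ^ 10 : ℕ) : ℤ) = (p : ℤ) ^ (5 * (5 - 1) / 2) := by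
        norm_num
      rw [h5]
      exact hdvd
    have e5 : (Int.castRingHom (ZMod (p ^ 10)))
        (Matrix.det (Matrix.of fun i j => mon (b i) j)) = 0 := by
      rw [e2]
      rw [e3] at e4
      rw [← e4]
      exact congrArg Matrix.det e1
    rw [eq_intCast, ZMod.intCast_zmod_eq_zero_iff_dvd] at e5
    exact_mod_cast e5
  refine Int.eq_zero_of_abs_lt_dvd hdet ?_
  refine (five_det_le R b hR).trans_lt ?_
  exact_mod_cast hpR

end Pool.Agent.NTL
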