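import Pool.Agent.Work.MP_96a720_co.L.CDefs

/-!
Module CHeight (M). PROOF. Let E = {(i,j) : i + j <= k} (as a Finset/Fintype, at most 45 elements), v(a) in Z^E,
v(a)_(i,j) = a.1^i a.2^j, |v(a)_(i,j)| <= R^8 (R >= 1). A polynomial of totalDegree <= k is the vector of its
coefficients and its value at a is the scalar product with v(a). If A is empty take F = 1. Otherwise let B in A be a
maximal subset such that (v(a))_{a in B} is linearly independent over ℚ (`exists_linearIndependent` or
`Finset` maximality); r = B.card >= 1 (v(a) has the entry 1), and r < |E| because the given F is a nonzero vector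
orthogonal to all v(a) (if r = |E| the v(a), a in B, span ℚ^E and F is orthogonal to everything). Every v(a), a in A,
is a rational combination of the v(b), b in B. `Int.Matrix.exists_ne_zero_int_vec_norm_le` for the matrix (v(b)_e)
(b in B, e in E) gives t : E -> ℤ, t <> 0, orthogonal to all v(b), hence to all v(a), with
‖t‖ <= (|E| * max 1 ‖matrix‖)^(r/(|E|-r)) <= (45 R^8)^44 (exponent <= r <= 44, base >= 1; |E| <= 45, ‖matrix‖ <= R^8).
F = sum t_(i,j) x^i y^j.
-/

set_option autoImplicit false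
open Classical

namespace Pool.Agent.NTL

attribute [local instance] Matrix.seminormedAddCommGroup in
private lemma siegel_rank {ι E : Type} [Fintype E] (v : ι → E → ℤ) (M : ℕ) (hM1 : 1 ≤ M)
    (hM : ∀ i e, (v i e).natAbs ≤ M) (c : E → ℚ) (hc : c ≠ 0)
    (hv : ∀ i, ∑ e, c e * (v i e : ℚ) = 0) (h0 : ∃ i, v i ≠ 0) :
    ∃ t : E → ℤ, t ≠ 0 ∧ (∀ i, ∑ e, t e * v i e = 0) ∧
      ∀ e, (t e).natAbs ≤ (Fintype.card E * M) ^ (Fintype.card E - 1) := by
  set w : ι → E → ℚ := fun i e => (v i e : ℚ) with hw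
  obtain ⟨κ, a, ha, hspan, hli⟩ := exists_linearIndependent' (K := ℚ) w
  have hfin : Finite κ := hli.finite
  let _ : Fintype κ := Fintype.ofFinite κ
  -- the functional
  let φ : (E → ℚ) →ₗ[ℚ] ℚ := ∑ e, c e • LinearMap.proj e
  have hφ : ∀ x : E → ℚ, φ x = ∑ e, c e * x e := by
    intro x
    simp [φ]
  have hker : Submodule.span ℚ (Set.range w) ≤ LinearMap.ker φ := by
    rw [Submodule.span_le]
    rintro _ ⟨i, rfl⟩
    rw [SetLike.mem_coe, LinearMap.mem_ker, hφ]
    exact hv i
  have hcard : Fintype.card κ < Fintype.card E := by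
    have hle : Fintype.card κ ≤ Fintype.card E := by
      have := hli.fintype_card_le_finrank
      rwa [Module.finrank_fintype_fun_eq_card] at this
    refine lt_of_le_of_ne hle fun heq => hc ?_
    have htop : Submodule.span ℚ (Set.range (w ∘ a)) = ⊤ := by
      apply hli.span_eq_top_of_card_eq_finrank'
      rw [Module.finrank_fintype_fun_eq_card]
      exact heq
    rw [hspan] at htop
    rw [htop, top_le_iff, LinearMap.ker_eq_top] at hker
    funext e
    have h1 := hφ (Pi.single e 1)
    rw [hker, LinearMap.zero_apply] at h1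
    rw [Finset.sum_eq_single e] at h1
    · simpa using h1.symm
    · intro b _ hb
      rw [Pi.single_eq_of_ne hb, mul_zero]
    · intro h
      exact absurd (Finset.mem_univ e) h
  have hpos : 0 < Fintype.card κ := by
    by_contra hcon
    have hz : Fintype.card κ = 0 := by omega
    have hemp : IsEmpty κ := Fintype.card_eq_zero_iff.1 hz
    obtain ⟨i, hi⟩ := h0
    apply hi
    have : w i ∈ Submodule.span ℚ (Set.range w) := Submodule.subset_span ⟨i, rfl⟩
    rw [← hspan, Set.range_eq_empty, Submodule.span_empty, Submodule.mem_bot] at this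
    funext e
    have h2 := congrFun this e
    simp only [hw, Pi.zero_apply] at h2
    exact_mod_cast h2
  obtain ⟨t, ht0, ht1, ht2⟩ := Int.Matrix.exists_ne_zero_int_vec_norm_le
    (Matrix.of fun (i : κ) (e : E) => v (a i) e) hcard hpos
  refine ⟨t, ht0, ?_, ?_⟩
  · -- orthogonality
    let ψ : (E → ℚ) →ₗ[ℚ] ℚ := ∑ e, (t e : ℚ) • LinearMap.proj e
    have hψ : ∀ x : E → ℚ, ψ x = ∑ e, (t e : ℚ) * x e := by
      intro x
      simp [ψ]
    have hk2 : Submodule.span ℚ (Set.range w) ≤ LinearMap.ker ψ := by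
      rw [← hspan, Submodule.span_le]
      rintro _ ⟨i, rfl⟩
      rw [SetLike.mem_coe, LinearMap.mem_ker, hψ]
      have h3 := congrFun ht1 i
      simp only [Matrix.mulVec, dotProduct, Matrix.of_apply, Pi.zero_apply] at h3
      have h4 : (∑ e, (t e : ℚ) * (v (a i) e : ℚ)) = ((∑ e, v (a i) e * t e : ℤ) : ℚ) := by
        push_cast
        exact Finset.sum_congr rfl fun e _ => mul_comm _ _
      simp only [Function.comp, hw]
      rw [h4, h3]
      simp
    intro i
    have h5 : w i ∈ LinearMap.ker ψ := hk2 (Submodule.subset_span ⟨i, rfl⟩)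
    rw [LinearMap.mem_ker, hψ] at h5
    simp only [hw] at h5
    exact_mod_cast h5
  · intro e
    have hn : ‖(Matrix.of fun (i : κ) (e : E) => v (a i) e)‖ ≤ (M : ℝ) := by
      rw [Matrix.norm_le_iff (by positivity)]
      intro i j
      rw [Matrix.of_apply, Int.norm_eq_abs]
      have := hM (a i) j
      have h6 : |((v (a i) j : ℤ) : ℝ)| = ((v (a i) j).natAbs : ℝ) := by
        rw [Nat.cast_natAbs, Int.cast_abs]
      rw [h6]
      exact_mod_cast this
    have hM' : (1 : ℝ) ≤ M := by exact_mod_cast hM1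
    have hmax : max 1 ‖(Matrix.of fun (i : κ) (e : E) => v (a i) e)‖ ≤ (M : ℝ) := max_le hM' hn
    have hE1 : 1 ≤ Fintype.card E := by omega
    have hE1' : (1 : ℝ) ≤ Fintype.card E := by exact_mod_cast hE1
    have hb1 : (1 : ℝ) ≤ Fintype.card E * M := one_le_mul_of_one_le_of_one_le hE1' hM'
    have h7 : ‖t e‖ ≤ ((Fintype.card E : ℝ) * M) ^ ((Fintype.card E - 1 : ℕ) : ℝ) := by
      refine (norm_le_pi_norm t e).trans (ht2.trans ?_)
      have hd : (1 : ℝ) ≤ (Fintype.card E : ℝ) - Fintype.card κ := by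
        have : (Fintype.card κ : ℝ) + 1 ≤ Fintype.card E := by exact_mod_cast hcard
        linarith
      calc ((Fintype.card E : ℝ) * max 1 ‖(Matrix.of fun (i : κ) (e : E) => v (a i) e)‖) ^
            ((Fintype.card κ : ℝ) / ((Fintype.card E : ℝ) - Fintype.card κ))
          ≤ ((Fintype.card E : ℝ) * M) ^
            ((Fintype.card κ : ℝ) / ((Fintype.card E : ℝ) - Fintype.card κ)) := by
            apply Real.rpow_le_rpow (by positivity)
            · gcongr
            · apply div_nonneg (by positivity) (by linarith)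
        _ ≤ ((Fintype.card E : ℝ) * M) ^ ((Fintype.card E - 1 : ℕ) : ℝ) := by
            apply Real.rpow_le_rpow_of_exponent_le hb1
            calc ((Fintype.card κ : ℝ) / ((Fintype.card E : ℝ) - Fintype.card κ))
                ≤ (Fintype.card κ : ℝ) / 1 := by
                  apply div_le_div_of_nonneg_left (by positivity) one_pos hd
              _ = (Fintype.card κ : ℝ) := div_one _
              _ ≤ ((Fintype.card E - 1 : ℕ) : ℝ) := by
                  exact_mod_cast Nat.le_sub_one_of_lt hcard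
    rw [Real.rpow_natCast, Int.norm_eq_abs] at h7
    have h8 : |((t e : ℤ) : ℝ)| = ((t e).natAbs : ℝ) := by
      rw [Nat.cast_natAbs, Int.cast_abs]
    rw [h8] at h7
    exact_mod_cast h7

/-- Exponents of total degree at most `k`. -/
private abbrev ExpT (k : ℕ) : Type := {e : Fin 9 × Fin 9 // (e.1 : ℕ) + e.2 ≤ k}

private noncomputable def dd {k : ℕ} (e : ExpT k) : Fin 2 →₀ ℕ :=
  Finsupp.single 0 (e.1.1 : ℕ) + Finsupp.single 1 (e.1.2 : ℕ)

private lemma dd_zero {k : ℕ} (e : ExpT k) : dd e 0 = (e.1.1 : ℕ) := by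
  simp [dd]

private lemma dd_one {k : ℕ} (e : ExpT k) : dd e 1 = (e.1.2 : ℕ) := by
  simp [dd]

private lemma dd_inj {k : ℕ} : Function.Injective (dd (k := k)) := by
  intro e f h
  have h0 := DFunLike.congr_fun h 0
  have h1 := DFunLike.congr_fun h 1
  rw [dd_zero, dd_zero] at h0
  rw [dd_one, dd_one] at h1
  apply Subtype.ext
  exact Prod.ext (Fin.ext h0) (Fin.ext h1)

private lemma dd_deg {k : ℕ} (e : ExpT k) : (dd e).sum (fun _ n => n) ≤ k := by
  rw [Finsupp.sum_fintype _ _ (fun _ => rfl), Fin.sum_univ_two, dd_zero, dd_one]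
  exact e.2

private lemma mem_dd {k : ℕ} (hk : k ≤ 8) (d : Fin 2 →₀ ℕ) (hd : d.sum (fun _ n => n) ≤ k) :
    ∃ e : ExpT k, dd e = d := by
  rw [Finsupp.sum_fintype _ _ (fun _ => rfl), Fin.sum_univ_two] at hd
  refine ⟨⟨(⟨d 0, by omega⟩, ⟨d 1, by omega⟩), hd⟩, ?_⟩
  ext i
  fin_cases i
  · exact dd_zero _
  · exact dd_one _

private lemma card_expT {k : ℕ} (hk : k ≤ 8) : Fintype.card (ExpT k) ≤ 45 := by
  have h : Fintype.card (ExpT 8) = 45 := by
    rw [Fintype.card_subtype]
    decide
  rw [← h]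
  refine Fintype.card_le_of_injective (fun e : ExpT k => (⟨e.1, e.2.trans hk⟩ : ExpT 8)) ?_
  intro e f hef
  have := congrArg Subtype.val hef
  exact Subtype.ext this

theorem cheight (R k : ℕ) (hR : 1 ≤ R) (hk : k ≤ 8) (A : Finset Pt)
    (hA : ∀ a ∈ A, a.1.natAbs ≤ R ∧ a.2.natAbs ≤ R)
    (hex : ∃ F : MvPolynomial (Fin 2) ℚ, F ≠ 0 ∧ F.totalDegree ≤ k ∧ ∀ a ∈ A, evQ a F = 0) :
    ∃ F : MvPolynomial (Fin 2) ℤ, F ≠ 0 ∧ F.totalDegree ≤ k ∧ (∀ a ∈ A, ev a F = 0) ∧
      ∀ d, (F.coeff d).natAbs ≤ (45 * R ^ 8) ^ 44 := by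
  have hb1 : 1 ≤ (45 * R ^ 8) ^ 44 := Nat.one_le_pow _ _ (by positivity)
  rcases A.eq_empty_or_nonempty with hA0 | ⟨a₀, ha₀⟩
  · subst hA0
    refine ⟨1, one_ne_zero, by simp, by simp, fun d => ?_⟩
    rw [MvPolynomial.coeff_one]
    split_ifs
    · simpa using hb1
    · simp
  obtain ⟨F, hF0, hFd, hFv⟩ := hex
  set v : A → ExpT k → ℤ := fun a e => a.1.1 ^ (e.1.1 : ℕ) * a.1.2 ^ (e.1.2 : ℕ) with hv
  have hFsum : F = ∑ e : ExpT k, MvPolynomial.monomial (dd e) (F.coeff (dd e)) := by
    ext d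
    rw [MvPolynomial.coeff_sum]
    by_cases hd : ∃ e : ExpT k, dd e = d
    · obtain ⟨e, rfl⟩ := hd
      rw [Finset.sum_eq_single e]
      · rw [MvPolynomial.coeff_monomial, if_pos rfl]
      · intro f _ hf
        rw [MvPolynomial.coeff_monomial, if_neg]
        exact fun h => hf (dd_inj h)
      · intro h
        exact absurd (Finset.mem_univ e) h
    · rw [Finset.sum_eq_zero]
      · by_contra hne
        have hmem : d ∈ F.support := MvPolynomial.mem_support_iff.2 hne
        exact hd (mem_dd hk d ((MvPolynomial.le_totalDegree hmem).trans hFd))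
      · intro e _
        rw [MvPolynomial.coeff_monomial, if_neg]
        exact fun h => hd ⟨e, h⟩
  have hcard := card_expT hk
  obtain ⟨t, ht0, ht1, ht2⟩ := siegel_rank v (R ^ 8) (Nat.one_le_pow _ _ hR) (by
      intro a e
      have h1 := hA a.1 a.2
      simp only [hv]
      rw [Int.natAbs_mul, Int.natAbs_pow, Int.natAbs_pow]
      calc a.1.1.natAbs ^ (e.1.1 : ℕ) * a.1.2.natAbs ^ (e.1.2 : ℕ)
          ≤ R ^ (e.1.1 : ℕ) * R ^ (e.1.2 : ℕ) :=
            Nat.mul_le_mul (Nat.pow_le_pow_left h1.1 _) (Nat.pow_le_pow_left h1.2 _)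
        _ = R ^ ((e.1.1 : ℕ) + e.1.2) := (pow_add _ _ _).symm
        _ ≤ R ^ 8 := Nat.pow_le_pow_right hR (e.2.trans hk))
    (fun e => F.coeff (dd e)) (by
      intro h
      apply hF0
      rw [hFsum]
      apply Finset.sum_eq_zero
      intro e _
      have := congrFun h e
      simp only [Pi.zero_apply] at this
      rw [this, map_zero]) (by
      intro a
      have h1 := hFv a.1 a.2
      unfold evQ at h1
      rw [hFsum, map_sum] at h1
      rw [← h1]
      apply Finset.sum_congr rfl
      intro e _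
      rw [MvPolynomial.eval_monomial, Finsupp.prod_fintype _ _ (fun _ => pow_zero _),
        Fin.prod_univ_two, dd_zero, dd_one]
      simp [hv]) ⟨⟨a₀, ha₀⟩, by
      intro h
      have := congrFun h ⟨(0, 0), by simp⟩
      simp [hv] at this⟩
  have hco : ∀ d, (∑ e : ExpT k, MvPolynomial.monomial (dd e) (t e)).coeff d ≠ 0 →
      ∃ e : ExpT k, dd e = d := by
    intro d hd
    by_contra hne
    apply hd
    rw [MvPolynomial.coeff_sum]
    apply Finset.sum_eq_zero
    intro e _
    rw [MvPolynomial.coeff_monomial, if_neg]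
    exact fun h => hne ⟨e, h⟩
  have hce : ∀ e : ExpT k, (∑ e : ExpT k, MvPolynomial.monomial (dd e) (t e)).coeff (dd e) = t e := by
    intro e
    rw [MvPolynomial.coeff_sum, Finset.sum_eq_single e]
    · rw [MvPolynomial.coeff_monomial, if_pos rfl]
    · intro f _ hf
      rw [MvPolynomial.coeff_monomial, if_neg]
      exact fun h => hf (dd_inj h)
    · intro h
      exact absurd (Finset.mem_univ e) h
  refine ⟨∑ e : ExpT k, MvPolynomial.monomial (dd e) (t e), ?_, ?_, ?_, ?_⟩
  · intro h
    apply ht0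
    funext e
    rw [← hce e, h]
    simp
  · rw [MvPolynomial.totalDegree, Finset.sup_le_iff]
    intro d hd
    obtain ⟨e, rfl⟩ := hco d (MvPolynomial.mem_support_iff.1 hd)
    exact dd_deg e
  · intro a ha
    unfold ev
    rw [map_sum, ← ht1 ⟨a, ha⟩]
    apply Finset.sum_congr rfl
    intro e _
    rw [MvPolynomial.eval_monomial, Finsupp.prod_fintype _ _ (fun _ => pow_zero _),
      Fin.prod_univ_two, dd_zero, dd_one]
    simp [hv]
  · intro d
    by_cases hd : (∑ e : ExpT k, MvPolynomial.monomial (dd e) (t e)).coeff d = 0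
    · rw [hd]
      simp
    · obtain ⟨e, rfl⟩ := hco d hd
      rw [hce]
      refine (ht2 e).trans ?_
      calc (Fintype.card (ExpT k) * R ^ 8) ^ (Fintype.card (ExpT k) - 1)
          ≤ (45 * R ^ 8) ^ (Fintype.card (ExpT k) - 1) :=
            Nat.pow_le_pow_left (Nat.mul_le_mul_right _ hcard) _
        _ ≤ (45 * R ^ 8) ^ 44 := Nat.pow_le_pow_right (by positivity) (by omega)

end Pool.Agent.NTL
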