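import Pool.Agent.Work.MP_96a720_co.L.CDefs

/-!
Module CHensel (M). PROOF. For a commutative ring S and x, y in S write F(x, y) = `MvPolynomial.aeval ![x, y] F`,
F_y(x, y) the same for `dy F`.
(T) Taylor: for x, y, h in S there is r in S with F(x, y + h) = F(x, y) + h F_y(x, y) + h^2 r (induction on F
(`MvPolynomial.induction_on`): constants; sums; F * X i: product rule; or through `Polynomial.binomExpansion` for the
univariate polynomial aeval ![C x, X] F over S, whose derivative is aeval ![C x, X] (dy F)).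
Let I = Ideal.span {C p, X} in ℤ[X]; a polynomial f is in I iff p divides f.eval 0 (f - C (f.eval 0) is divisible by X).
For an integer t, evaluation at X = p t maps I into pℤ, hence I^N into p^N ℤ (`Ideal.map`/`Ideal.mem_map_of_mem`, or
`Ideal.comap`), and an element of span{p}^N is divisible by p^N (`Ideal.span_singleton_pow`).
Claim(N), N >= 1: there is φ in ℤ[X] with p | φ.eval 0 - a.2 and F(C a.1 + X, φ) in I^N. N = 1: φ = C a.2: at X = 0 the
value is ev a F = 0. Step: let u be an integer with p | u * ev a (dy F) - 1 (p does not divide ev a (dy F)); E = F(C a.1 + X, φ) in I^N,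
φ' = φ - C u * E. By (T) F(C a.1 + X, φ') = E (1 - u F_y(C a.1 + X, φ)) + E^2 r'; the second factor of the first term is in
I (its value at 0 is 1 - u F_y(a.1, φ(0)) = 1 - u F_y(a.1, a.2) = 0 mod p), E^2 in I^(2N) in I^(N+1).
Conclusion (N >= 1; N = 0 is trivial): let b be as in the statement, b.1 = a.1 + p t, z = φ.eval (p t) = φ.eval (b.1 - a.1).
Then p^N | F(b.1, z), z = φ(0) = a.2 = b.2 mod p, and by (T) 0 = F(b.1, b.2) = F(b.1, z) + (b.2 - z)(F_y(b.1, z) + (b.2 - z) r)
where the last factor is = F_y(a) mod p, not divisible by p, so p^N | b.2 - z (`IsCoprime.dvd_of_dvd_mul_right` with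
p^N coprime to it).
-/

set_option autoImplicit false
open Classical

namespace Pool.Agent.NTL

private noncomputable def EV {S : Type*} [CommRing S] (x y : S) :
    MvPolynomial (Fin 2) ℤ →+* S :=
  MvPolynomial.eval₂Hom (Int.castRingHom S) ![x, y]

private theorem EV_C {S : Type*} [CommRing S] (x y : S) (c : ℤ) :
    EV x y (MvPolynomial.C c) = (c : S) := by
  unfold EV
  rw [MvPolynomial.eval₂Hom_C]
  rfl

private theorem EV_X {S : Type*} [CommRing S] (x y : S) (i : Fin 2) :
    EV x y (MvPolynomial.X i) = (![x, y] : Fin 2 → S) i := by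
  unfold EV
  rw [MvPolynomial.eval₂Hom_X']

private theorem EV_map {S T : Type*} [CommRing S] [CommRing T] (f : S →+* T) (x y : S)
    (F : MvPolynomial (Fin 2) ℤ) : f (EV x y F) = EV (f x) (f y) F := by
  have h : f.comp (EV x y) = EV (f x) (f y) := by
    refine MvPolynomial.ringHom_ext (fun c => ?_) (fun i => ?_)
    · rw [RingHom.comp_apply, EV_C, EV_C, map_intCast]
    · rw [RingHom.comp_apply, EV_X, EV_X]
      fin_cases i
      · rfl
      · rfl
  exact RingHom.congr_fun h F

private theorem EV_int (a : Pt) (F : MvPolynomial (Fin 2) ℤ) : EV a.1 a.2 F = ev a F := by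
  have h : EV a.1 a.2 = MvPolynomial.eval ![a.1, a.2] := by
    refine MvPolynomial.ringHom_ext (fun c => ?_) (fun i => ?_)
    · rw [EV_C, MvPolynomial.eval_C, Int.cast_id]
    · rw [EV_X, MvPolynomial.eval_X]
  exact RingHom.congr_fun h F

private theorem EV_cong {S : Type*} [CommRing S] {q x y x' y' : S} (hx : q ∣ x - x')
    (hy : q ∣ y - y') (F : MvPolynomial (Fin 2) ℤ) : q ∣ EV x y F - EV x' y' F := by
  induction F using MvPolynomial.induction_on with
  | C c => rw [EV_C, EV_C, sub_self]; exact dvd_zero _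
  | add F G hF hG =>
    rw [map_add, map_add]
    have e : EV x y F + EV x y G - (EV x' y' F + EV x' y' G) =
        (EV x y F - EV x' y' F) + (EV x y G - EV x' y' G) := by ring
    rw [e]
    exact dvd_add hF hG
  | mul_X F i hF =>
    rw [map_mul, map_mul, EV_X, EV_X]
    have h1 : q ∣ (![x, y] : Fin 2 → S) i - (![x', y'] : Fin 2 → S) i := by
      fin_cases i
      · exact hx
      · exact hy
    have e : EV x y F * (![x, y] : Fin 2 → S) i - EV x' y' F * (![x', y'] : Fin 2 → S) i =
        (EV x y F - EV x' y' F) * (![x, y] : Fin 2 → S) i +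
          EV x' y' F * ((![x, y] : Fin 2 → S) i - (![x', y'] : Fin 2 → S) i) := by ring
    rw [e]
    exact dvd_add (Dvd.dvd.mul_right hF _) (Dvd.dvd.mul_left h1 _)

private theorem taylor {S : Type*} [CommRing S] (x y h : S) (F : MvPolynomial (Fin 2) ℤ) :
    ∃ r : S, EV x (y + h) F = EV x y F + h * EV x y (dy F) + h ^ 2 * r := by
  unfold dy
  induction F using MvPolynomial.induction_on with
  | C c =>
    refine ⟨0, ?_⟩
    rw [MvPolynomial.pderiv_C, map_zero, EV_C, EV_C]
    ring
  | add F G hF hG =>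
    obtain ⟨r, hr⟩ := hF
    obtain ⟨s, hs⟩ := hG
    refine ⟨r + s, ?_⟩
    rw [map_add, map_add, map_add, map_add, hr, hs]
    ring
  | mul_X F i hF =>
    obtain ⟨r, hr⟩ := hF
    rw [MvPolynomial.pderiv_mul, map_mul, map_mul, map_add, map_mul, map_mul, EV_X, EV_X, hr,
      MvPolynomial.pderiv_X]
    fin_cases i
    · refine ⟨r * x, ?_⟩
      have e : EV x y ((Pi.single (1 : Fin 2) (1 : MvPolynomial (Fin 2) ℤ) :
          Fin 2 → MvPolynomial (Fin 2) ℤ) 0) = 0 := by
        rw [Pi.single_eq_of_ne (by decide), map_zero]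
      simp only [Fin.zero_eta, Matrix.cons_val_zero, e]
      ring
    · refine ⟨EV x y (MvPolynomial.pderiv 1 F) + r * (y + h), ?_⟩
      have e : EV x y ((Pi.single (1 : Fin 2) (1 : MvPolynomial (Fin 2) ℤ) :
          Fin 2 → MvPolynomial (Fin 2) ℤ) 1) = 1 := by
        rw [Pi.single_eq_same, map_one]
      simp only [Fin.mk_one, Matrix.cons_val_one, Matrix.cons_val_zero, e]
      ring

private noncomputable def psi (p : ℤ) : Polynomial ℤ →+* Polynomial ℤ :=
  Polynomial.compRingHom (Polynomial.C p * Polynomial.X)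

private theorem psi_C (p c : ℤ) : psi p (Polynomial.C c) = Polynomial.C c := by
  unfold psi
  rw [Polynomial.coe_compRingHom_apply, Polynomial.C_comp]

private theorem psi_X (p : ℤ) : psi p Polynomial.X = Polynomial.C p * Polynomial.X := by
  unfold psi
  rw [Polynomial.coe_compRingHom_apply, Polynomial.X_comp]

private theorem claim (p : ℕ) (hp : p.Prime) (F : MvPolynomial (Fin 2) ℤ) (a : Pt)
    (ha : ev a F = 0) (hy : ¬ (p : ℤ) ∣ ev a (dy F)) (N : ℕ) :
    ∃ φ : Polynomial ℤ, Polynomial.C (p : ℤ) ∣ psi p φ - Polynomial.C a.2 ∧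
      Polynomial.C (p : ℤ) ^ (N + 1) ∣
        EV (Polynomial.C a.1 + Polynomial.C (p : ℤ) * Polynomial.X) (psi p φ) F := by
  have hCx : Polynomial.C (p : ℤ) ∣
      (Polynomial.C a.1 + Polynomial.C (p : ℤ) * Polynomial.X) - Polynomial.C a.1 := by
    rw [add_sub_cancel_left]
    exact dvd_mul_right _ _
  have hev : ∀ G : MvPolynomial (Fin 2) ℤ, EV (Polynomial.C a.1) (Polynomial.C a.2) G =
      Polynomial.C (ev a G) := by
    intro G
    rw [← EV_int, EV_map]
  induction N with
  | zero =>
    refine ⟨Polynomial.C a.2, ?_, ?_⟩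
    · rw [psi_C, sub_self]
      exact dvd_zero _
    · rw [psi_C, zero_add, pow_one]
      have h0 : Polynomial.C (p : ℤ) ∣ Polynomial.C a.2 - Polynomial.C a.2 := by
        rw [sub_self]
        exact dvd_zero _
      have h1 := EV_cong hCx h0 F
      rw [hev, ha, map_zero, sub_zero] at h1
      exact h1
  | succ N ih =>
    obtain ⟨φ, h1, h2⟩ := ih
    have hcop : IsCoprime (ev a (dy F)) (p : ℤ) := by
      rw [isCoprime_comm, Prime.coprime_iff_not_dvd (Nat.prime_iff_prime_int.mp hp)]
      exact hy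
    obtain ⟨u, v, huv⟩ := hcop
    set x : Polynomial ℤ := Polynomial.C a.1 + Polynomial.C (p : ℤ) * Polynomial.X with hx
    set E : Polynomial ℤ := EV (Polynomial.C a.1 + Polynomial.X) φ F with hE
    have hpsiE : psi p E = EV x (psi p φ) F := by
      rw [hE, EV_map, map_add, psi_C, psi_X]
    have hphi : psi p (φ - Polynomial.C u * E) =
        psi p φ + -(Polynomial.C u * EV x (psi p φ) F) := by
      rw [map_sub, map_mul, psi_C, hpsiE]
      ring
    refine ⟨φ - Polynomial.C u * E, ?_, ?_⟩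
    · rw [hphi]
      have e : psi p φ + -(Polynomial.C u * EV x (psi p φ) F) - Polynomial.C a.2 =
          (psi p φ - Polynomial.C a.2) - Polynomial.C u * EV x (psi p φ) F := by ring
      rw [e]
      refine dvd_sub h1 (Dvd.dvd.mul_left ((dvd_pow_self _ (Nat.succ_ne_zero N)).trans h2) _)
    · rw [hphi]
      obtain ⟨r, hr⟩ := taylor x (psi p φ) (-(Polynomial.C u * EV x (psi p φ) F)) F
      rw [hr]
      have h3 : Polynomial.C (p : ℤ) ∣ 1 - Polynomial.C u * EV x (psi p φ) (dy F) := by
        have h4 := EV_cong hCx h1 (dy F)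
        rw [hev] at h4
        have e : 1 - Polynomial.C u * EV x (psi p φ) (dy F) =
            Polynomial.C (p : ℤ) * Polynomial.C v -
              Polynomial.C u * (EV x (psi p φ) (dy F) - Polynomial.C (ev a (dy F))) := by
          have h5 : (1 : Polynomial ℤ) = Polynomial.C u * Polynomial.C (ev a (dy F)) +
              Polynomial.C v * Polynomial.C (p : ℤ) := by
            rw [← Polynomial.C_mul, ← Polynomial.C_mul, ← Polynomial.C_add, huv,
              Polynomial.C_1]
          linear_combination h5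
        rw [e]
        exact dvd_sub (dvd_mul_right _ _) (Dvd.dvd.mul_left h4 _)
      have e : EV x (psi p φ) F + -(Polynomial.C u * EV x (psi p φ) F) *
          EV x (psi p φ) (dy F) + (-(Polynomial.C u * EV x (psi p φ) F)) ^ 2 * r =
          EV x (psi p φ) F * (1 - Polynomial.C u * EV x (psi p φ) (dy F)) +
            (EV x (psi p φ) F * EV x (psi p φ) F) * (Polynomial.C u ^ 2 * r) := by ring
      rw [e]
      refine dvd_add ?_ (Dvd.dvd.mul_right ?_ _)
      · rw [pow_succ _ (N + 1)]
        exact mul_dvd_mul h2 h3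
      · have h6 := mul_dvd_mul h2 h2
        rw [← pow_add] at h6
        exact (pow_dvd_pow _ (by omega)).trans h6

theorem hensel (p : ℕ) (hp : p.Prime) (F : MvPolynomial (Fin 2) ℤ) (a : Pt) (ha : ev a F = 0)
    (hy : ¬ (p : ℤ) ∣ ev a (dy F)) (N : ℕ) :
    ∃ φ : Polynomial ℤ, ∀ b : Pt, ev b F = 0 → (p : ℤ) ∣ b.1 - a.1 → (p : ℤ) ∣ b.2 - a.2 →
      (p : ℤ) ^ N ∣ b.2 - φ.eval (b.1 - a.1) := by
  obtain ⟨φ, h1, h2⟩ := claim p hp F a ha hy N
  refine ⟨φ, fun b hb hb1 hb2 => ?_⟩
  obtain ⟨t, ht⟩ := hb1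
  have hz : Polynomial.evalRingHom t (psi p φ) = φ.eval (b.1 - a.1) := by
    rw [Polynomial.coe_evalRingHom]
    unfold psi
    rw [Polynomial.coe_compRingHom_apply, Polynomial.eval_comp, Polynomial.eval_mul,
      Polynomial.eval_C, Polynomial.eval_X, ht]
  have hb1' : Polynomial.evalRingHom t (Polynomial.C a.1 +
      Polynomial.C (p : ℤ) * Polynomial.X) = b.1 := by
    rw [Polynomial.coe_evalRingHom, Polynomial.eval_add, Polynomial.eval_mul, Polynomial.eval_C,
      Polynomial.eval_C, Polynomial.eval_X, ← ht]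
    ring
  set z : ℤ := φ.eval (b.1 - a.1) with hzdef
  have h3 : (p : ℤ) ^ (N + 1) ∣ EV b.1 z F := by
    have h4 := map_dvd (Polynomial.evalRingHom t) h2
    rw [EV_map, hz, hb1', map_pow, Polynomial.coe_evalRingHom, Polynomial.eval_C] at h4
    exact h4
  have h5 : (p : ℤ) ∣ z - a.2 := by
    have h6 := map_dvd (Polynomial.evalRingHom t) h1
    rw [map_sub, hz, Polynomial.coe_evalRingHom, Polynomial.eval_C, Polynomial.eval_C] at h6
    exact h6
  obtain ⟨r, hr⟩ := taylor b.1 z (b.2 - z) F
  rw [add_sub_cancel, EV_int, hb] at hr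
  have h7 : (p : ℤ) ∣ b.2 - z := by
    have e : b.2 - z = (b.2 - a.2) - (z - a.2) := by ring
    rw [e]
    exact dvd_sub hb2 h5
  have h8 : ¬ (p : ℤ) ∣ EV b.1 z (dy F) + (b.2 - z) * r := by
    intro h9
    apply hy
    have h10 := EV_cong (q := (p : ℤ)) (x := b.1) (x' := a.1) (y := z) (y' := a.2)
      ⟨t, ht⟩ h5 (dy F)
    rw [EV_int] at h10
    have e : ev a (dy F) = (EV b.1 z (dy F) + (b.2 - z) * r) - (b.2 - z) * r -
        (EV b.1 z (dy F) - ev a (dy F)) := by ring
    rw [e]
    exact dvd_sub (dvd_sub h9 (Dvd.dvd.mul_right h7 _)) h10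
  have h11 : IsCoprime ((p : ℤ) ^ N) (EV b.1 z (dy F) + (b.2 - z) * r) :=
    IsCoprime.pow_left ((Prime.coprime_iff_not_dvd (Nat.prime_iff_prime_int.mp hp)).mpr h8)
  refine h11.dvd_of_dvd_mul_right ?_
  have e : (b.2 - z) * (EV b.1 z (dy F) + (b.2 - z) * r) = -EV b.1 z F := by
    linear_combination -hr
  rw [e, dvd_neg]
  exact (pow_dvd_pow _ (Nat.le_succ N)).trans h3

end Pool.Agent.NTL
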