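import Pool.Agent.Work.MP_96a720_co.L.CDefs

/-!
Module CMin (S-M). PROOFS.
`card_le_two`: F = α + β x + γ y (totalDegree <= 1: the support lies in {0, single 0 1, single 1 1}), not all zero.
If β = γ = 0 then F is a nonzero constant and A is empty. Otherwise A lies on the line β x + γ y = -α, and three distinct
points a, b, c of A satisfy (b.1-a.1)(c.2-a.2) = (c.1-a.1)(b.2-a.2) (from β (b.1-a.1) + γ (b.2-a.2) = 0 and the same for
c, (β,γ) <> 0), so A.card <= 2 (`Finset.two_lt_card` gives three distinct points).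
`cmin`: P(k) := exists A' in A, A.card <= 2^(8-k) * A'.card, and a nonzero F' of totalDegree <= k vanishing on A'.
P(8) holds. Let k be the least number with P(k) (`Nat.find`), k <= 8. If k <= 1 then A'.card <= 2 and
A.card <= 2^8 * 2 = 512, contradiction. So 2 <= k, 2^(8-k) <= 64. `Many k A'`: if G <> 0, totalDegree G + 1 <= k and
2 * |{a in A' : G(a) = 0}| >= |A'| then that subset shows P(k-1) (2^(8-k) * 2 = 2^(8-(k-1))), contradiction.
-/

set_option autoImplicit false
open Classical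

namespace Pool.Agent.NTL

private lemma supp_sub (F : MvPolynomial (Fin 2) ℚ) (hd : F.totalDegree ≤ 1) :
    F.support ⊆ {0, Finsupp.single 0 1, Finsupp.single 1 1} := by
  intro s hs
  have h1 := (MvPolynomial.le_totalDegree hs).trans hd
  have h2 : s.sum (fun _ e => e) = s 0 + s 1 := by
    rw [Finsupp.sum_fintype _ _ (fun _ => rfl), Fin.sum_univ_two]
  rw [h2] at h1
  simp only [Finset.mem_insert, Finset.mem_singleton]
  rcases (by omega : (s 0 = 0 ∧ s 1 = 0) ∨ (s 0 = 1 ∧ s 1 = 0) ∨ (s 0 = 0 ∧ s 1 = 1)) with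
    ⟨h3, h4⟩ | ⟨h3, h4⟩ | ⟨h3, h4⟩
  · left
    ext i
    fin_cases i <;> simp [h3, h4]
  · right; left
    ext i
    fin_cases i <;> simp [h3, h4]
  · right; right
    ext i
    fin_cases i <;> simp [h3, h4]

private lemma evQ_lin (F : MvPolynomial (Fin 2) ℚ) (hd : F.totalDegree ≤ 1) (a : Pt) :
    evQ a F = F.coeff 0 + F.coeff (Finsupp.single 0 1) * a.1 +
      F.coeff (Finsupp.single 1 1) * a.2 := by
  unfold evQ
  rw [MvPolynomial.eval_eq', Finset.sum_subset (supp_sub F hd)]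
  · have h1 : (0 : Fin 2 →₀ ℕ) ∉ ({Finsupp.single 0 1, Finsupp.single 1 1} : Finset (Fin 2 →₀ ℕ)) := by
      simp only [Finset.mem_insert, Finset.mem_singleton, not_or]
      constructor
      · intro h
        have := DFunLike.congr_fun h 0
        simp at this
      · intro h
        have := DFunLike.congr_fun h 1
        simp at this
    have h2 : (Finsupp.single 0 1 : Fin 2 →₀ ℕ) ∉ ({Finsupp.single 1 1} : Finset (Fin 2 →₀ ℕ)) := by
      simp only [Finset.mem_singleton]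
      intro h
      have := DFunLike.congr_fun h 0
      simp at this
    rw [Finset.sum_insert h1, Finset.sum_insert h2, Finset.sum_singleton]
    simp [Fin.prod_univ_two]
    ring
  · intro s _ hs
    rw [MvPolynomial.notMem_support_iff.mp hs, zero_mul]

theorem card_le_two (A : Finset Pt) (h3 : NoThree A) (F : MvPolynomial (Fin 2) ℚ) (hF : F ≠ 0)
    (hd : F.totalDegree ≤ 1) (hv : ∀ a ∈ A, evQ a F = 0) : A.card ≤ 2 := by
  by_contra hcon
  push Not at hcon
  rw [Finset.two_lt_card] at hcon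
  obtain ⟨a, ha, b, hb, c, hc, hab, hac, hbc⟩ := hcon
  have h1 := hv a ha
  have h2 := hv b hb
  have h4 := hv c hc
  rw [evQ_lin F hd] at h1 h2 h4
  set α := F.coeff 0
  set β := F.coeff (Finsupp.single 0 1)
  set γ := F.coeff (Finsupp.single 1 1)
  apply h3 a ha b hb c hc hab hac hbc
  have hne : α ≠ 0 ∨ β ≠ 0 ∨ γ ≠ 0 := by
    by_contra hcon
    push Not at hcon
    obtain ⟨hα, hβ, hγ⟩ := hcon
    apply hF
    rw [← MvPolynomial.support_eq_empty]
    rw [Finset.eq_empty_iff_forall_notMem]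
    intro s hs
    have := supp_sub F hd hs
    simp only [Finset.mem_insert, Finset.mem_singleton] at this
    rw [MvPolynomial.mem_support_iff] at hs
    rcases this with rfl | rfl | rfl
    · exact hs hα
    · exact hs hβ
    · exact hs hγ
  have e1 : β * ((b.1 : ℚ) - a.1) + γ * ((b.2 : ℚ) - a.2) = 0 := by linarith
  have e2 : β * ((c.1 : ℚ) - a.1) + γ * ((c.2 : ℚ) - a.2) = 0 := by linarith
  have hβγ : β ≠ 0 ∨ γ ≠ 0 := by
    by_contra hcon
    push Not at hcon
    obtain ⟨hβ, hγ⟩ := hcon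
    rw [hβ, hγ] at h1
    rcases hne with h | h | h
    · apply h; linarith
    · exact h hβ
    · exact h hγ
  have key : ((b.1 : ℚ) - a.1) * ((c.2 : ℚ) - a.2) = ((c.1 : ℚ) - a.1) * ((b.2 : ℚ) - a.2) := by
    rcases hβγ with h | h
    · apply mul_left_cancel₀ h
      linear_combination ((c.2 : ℚ) - a.2) * e1 - ((b.2 : ℚ) - a.2) * e2
    · apply mul_left_cancel₀ h
      linear_combination -((c.1 : ℚ) - a.1) * e1 + ((b.1 : ℚ) - a.1) * e2
  exact_mod_cast key

theorem cmin (A : Finset Pt) (h3 : NoThree A) (hA : 512 < A.card) (F : MvPolynomial (Fin 2) ℚ)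
    (hF : F ≠ 0) (hd : F.totalDegree ≤ 8) (hv : ∀ a ∈ A, evQ a F = 0) :
    ∃ k, 2 ≤ k ∧ k ≤ 8 ∧ ∃ A' ⊆ A, A.card ≤ 64 * A'.card ∧ Many k A' ∧
      ∃ F' : MvPolynomial (Fin 2) ℚ, F' ≠ 0 ∧ F'.totalDegree ≤ k ∧ ∀ a ∈ A', evQ a F' = 0 := by
  let P : ℕ → Prop := fun k => ∃ A' ⊆ A, A.card ≤ 2 ^ (8 - k) * A'.card ∧
    ∃ F' : MvPolynomial (Fin 2) ℚ, F' ≠ 0 ∧ F'.totalDegree ≤ k ∧ ∀ a ∈ A', evQ a F' = 0
  have h8 : P 8 := ⟨A, Finset.Subset.refl _, by simp, F, hF, hd, hv⟩
  have hex : ∃ k, P k := ⟨8, h8⟩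
  have hk8 : Nat.find hex ≤ 8 := Nat.find_min' hex h8
  obtain ⟨A', hA', hcard, F', hF', hd', hv'⟩ := Nat.find_spec hex
  set k := Nat.find hex with hk
  have hk2 : 2 ≤ k := by
    by_contra hcon
    have h1 := card_le_two A' (h3.mono hA') F' hF' (by omega) hv'
    have h2 : 2 ^ (8 - k) ≤ 2 ^ 8 := Nat.pow_le_pow_right (by norm_num) (by omega)
    have h4 : 2 ^ (8 - k) * A'.card ≤ 2 ^ 8 * 2 := Nat.mul_le_mul h2 h1
    omega
  refine ⟨k, hk2, hk8, A', hA', ?_, ?_, F', hF', hd', hv'⟩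
  · have h2 : 2 ^ (8 - k) ≤ 2 ^ 6 := Nat.pow_le_pow_right (by norm_num) (by omega)
    have h4 : 2 ^ (8 - k) * A'.card ≤ 2 ^ 6 * A'.card := Nat.mul_le_mul_right _ h2
    omega
  · intro G hG hGd
    by_contra hcon
    push Not at hcon
    have hP : P (k - 1) := by
      refine ⟨A'.filter fun a => evQ a G = 0, (Finset.filter_subset _ _).trans hA', ?_, G, hG,
        by omega, fun a ha => (Finset.mem_filter.mp ha).2⟩
      have h1 : 8 - (k - 1) = (8 - k) + 1 := by omega
      rw [h1, pow_succ, mul_assoc]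
      exact hcard.trans (Nat.mul_le_mul_left _ hcon)
    have := Nat.find_min hex (m := k - 1) (by omega)
    exact this hP

end Pool.Agent.NTL
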