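import Pool.Agent.Work.MP_96a720_co.L.Defs

/-!
Module CPrime (M). PROOF. By Bertrand (`Nat.exists_prime_lt_and_le_two_mul`) for every i < 2 κ + 1 there is a prime p_i
with 2^i P < p_i <= 2^(i+1) P; they are distinct. For a in A the distinct primes p_i dividing h a <> 0 have a product
dividing |h a| < P^κ, each is > P, so there are at most κ of them (fewer than κ if κ > 0). So
sum_i #{a in A : p_i | h a} <= κ |A| and for some i < 2κ+1: (2κ+1) * #{a : p_i | h a} <= κ |A|, so
2 #{a : p_i | h a} <= |A|, and #{a : not p_i | h a} >= |A|/2.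
-/

set_option autoImplicit false
open Classical

namespace Pool.Agent.NTL

theorem cprime (A : Finset Pt) (h : Pt → ℤ) (h0 : ∀ a ∈ A, h a ≠ 0) (P κ : ℕ) (hP : 2 ≤ P)
    (hb : ∀ a ∈ A, (h a).natAbs < P ^ κ) :
    ∃ p : ℕ, p.Prime ∧ P ≤ p ∧ p ≤ 2 ^ (2 * κ + 1) * P ∧
      A.card ≤ 2 * (A.filter fun a => ¬ (p : ℤ) ∣ h a).card := by
  have hex : ∀ i : ℕ, ∃ p : ℕ, p.Prime ∧ 2 ^ i * P < p ∧ p ≤ 2 ^ (i + 1) * P := by
    intro i
    obtain ⟨p, hp, h1, h2⟩ := Nat.exists_prime_lt_and_le_two_mul (2 ^ i * P) (by positivity)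
    exact ⟨p, hp, h1, by rw [pow_succ]; linarith⟩
  choose q hq hq1 hq2 using hex
  have hmono : StrictMono q := by
    apply strictMono_nat_of_lt_succ
    intro i
    exact lt_of_le_of_lt (hq2 i) (hq1 (i + 1))
  have hPq : ∀ i, P ≤ q i := by
    intro i
    refine le_trans ?_ (hq1 i).le
    exact Nat.le_mul_of_pos_left P (by positivity)
  -- for each a few of the primes divide
  have hfew : ∀ a ∈ A, ((Finset.range (2 * κ + 1)).filter fun i => (q i : ℤ) ∣ h a).card ≤ κ := by
    intro a ha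
    set T := (Finset.range (2 * κ + 1)).filter fun i => (q i : ℤ) ∣ h a with hT
    have hdvd : ∏ i ∈ T, q i ∣ (h a).natAbs := by
      apply Finset.prod_dvd_of_isRelPrime
      · intro i _ j _ hij
        exact Nat.coprime_iff_isRelPrime.1
          ((Nat.coprime_primes (hq i) (hq j)).2 fun he => hij (hmono.injective he))
      · intro i hi
        rw [hT, Finset.mem_filter] at hi
        exact Int.natCast_dvd.1 hi.2
    have hle : ∏ i ∈ T, q i ≤ (h a).natAbs :=
      Nat.le_of_dvd (Int.natAbs_pos.2 (h0 a ha)) hdvd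
    have hpow : P ^ T.card ≤ ∏ i ∈ T, q i := by
      rw [← Finset.prod_const]
      exact Finset.prod_le_prod' fun i _ => hPq i
    have hlt : P ^ T.card < P ^ κ := (hpow.trans hle).trans_lt (hb a ha)
    exact ((Nat.pow_lt_pow_iff_right (by omega)).1 hlt).le
  -- double counting
  have hsum : ∑ i ∈ Finset.range (2 * κ + 1), (A.filter fun a => (q i : ℤ) ∣ h a).card ≤
      κ * A.card := by
    have h1 : ∑ i ∈ Finset.range (2 * κ + 1), (A.filter fun a => (q i : ℤ) ∣ h a).card =
        ∑ a ∈ A, ((Finset.range (2 * κ + 1)).filter fun i => (q i : ℤ) ∣ h a).card := by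
      simp only [Finset.card_filter]
      exact Finset.sum_comm
    rw [h1]
    calc _ ≤ ∑ a ∈ A, κ := Finset.sum_le_sum hfew
      _ = κ * A.card := by rw [Finset.sum_const, smul_eq_mul, mul_comm]
  have hone : ∃ i ∈ Finset.range (2 * κ + 1),
      2 * (A.filter fun a => (q i : ℤ) ∣ h a).card ≤ A.card := by
    by_contra hcon
    push Not at hcon
    have h2 : ∑ i ∈ Finset.range (2 * κ + 1), (A.card + 1) ≤
        ∑ i ∈ Finset.range (2 * κ + 1), 2 * (A.filter fun a => (q i : ℤ) ∣ h a).card :=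
      Finset.sum_le_sum fun i hi => hcon i hi
    rw [Finset.sum_const, Finset.card_range, smul_eq_mul, ← Finset.mul_sum] at h2
    nlinarith
  obtain ⟨i, hi, hi2⟩ := hone
  rw [Finset.mem_range] at hi
  refine ⟨q i, hq i, hPq i, (hq2 i).trans ?_, ?_⟩
  · exact Nat.mul_le_mul_right P (Nat.pow_le_pow_right (by norm_num) (by omega))
  · have h3 := Finset.card_filter_add_card_filter_not (s := A) (fun a => (q i : ℤ) ∣ h a)
    omega

end Pool.Agent.NTL
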