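import Pool.Agent.Work.MP_96a720_co.L.CDefs

/-!
Module CRank (S-M). PROOF. Let V be the ℚ-span in (Fin 5 -> ℚ) of the vectors (mon z j)_j, z in Z. If V = ⊤ then five of
these vectors form a basis (`Submodule.exists_fun_fin_finrank_span_eq` / `exists_linearIndependent` /
`Basis.extend`), so they are linearly independent and their determinant is nonzero
(`Matrix.linearIndependent_rows_iff_isUnit`, `Matrix.isUnit_iff_isUnit_det`; cast from ℤ to ℚ), contradicting `h`. So
V <> ⊤ and there is a nonzero linear functional vanishing on V (`Submodule.exists_le_ker_of_lt_top`), i.e. rational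
c_j, not all 0, with sum c_j mon z j = 0 on Z; multiply by a common denominator.
-/

set_option autoImplicit false
open Classical

namespace Pool.Agent.NTL

theorem exists_rel (Z : Finset Pt)
    (h : ∀ b : Fin 5 → Pt, (∀ i, b i ∈ Z) → Matrix.det (Matrix.of fun i j => mon (b i) j) = 0) :
    ∃ c : Fin 5 → ℤ, c ≠ 0 ∧ ∀ z ∈ Z, ∑ j, c j * mon z j = 0 := by
  set v : Pt → (Fin 5 → ℚ) := fun z j => (mon z j : ℚ) with hv
  have hV : Submodule.span ℚ (v '' (Z : Set Pt)) ≠ ⊤ := by
    intro htop
    obtain ⟨f, hf1, -, hf3⟩ :=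
      Submodule.exists_fun_fin_finrank_span_eq (K := ℚ) (s := v '' (Z : Set Pt))
    have hr : Module.finrank ℚ (Submodule.span ℚ (v '' (Z : Set Pt))) = 5 := by
      rw [htop, finrank_top, Module.finrank_fin_fun]
    have hf4 : LinearIndependent ℚ (fun i : Fin 5 => f (Fin.cast hr.symm i)) :=
      hf3.comp _ (Fin.cast_injective hr.symm)
    have hb : ∀ i : Fin 5, ∃ z ∈ Z, v z = f (Fin.cast hr.symm i) := by
      intro i
      obtain ⟨z, hz, hzv⟩ := hf1 (Fin.cast hr.symm i)
      exact ⟨z, hz, hzv⟩
    choose b hbZ hbv using hb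
    have hdet := h b hbZ
    have hind : LinearIndependent ℚ (Matrix.of fun i j => ((mon (b i) j : ℤ) : ℚ)).row := by
      have : (Matrix.of fun i j => ((mon (b i) j : ℤ) : ℚ)).row =
          fun i : Fin 5 => f (Fin.cast hr.symm i) := by
        funext i
        rw [← hbv i]
        rfl
      rw [this]
      exact hf4
    have hu := (Matrix.linearIndependent_rows_iff_isUnit.1 hind)
    have hu2 := (Matrix.isUnit_iff_isUnit_det _).1 hu
    have hmap : (Matrix.of fun i j => ((mon (b i) j : ℤ) : ℚ)) =
        (Matrix.of fun i j => mon (b i) j).map (Int.castRingHom ℚ) := by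
      ext i j
      rfl
    rw [hmap] at hu2
    have hz : ((Matrix.of fun i j => mon (b i) j).map (Int.castRingHom ℚ)).det = 0 := by
      have := RingHom.map_det (Int.castRingHom ℚ) (Matrix.of fun i j => mon (b i) j)
      rw [hdet, map_zero] at this
      exact this.symm
    rw [hz] at hu2
    exact not_isUnit_zero hu2
  obtain ⟨g, hg0, hg⟩ := Submodule.exists_le_ker_of_lt_top _ (lt_top_iff_ne_top.2 hV)
  have hgs : ∀ w : Fin 5 → ℚ, g w = ∑ j, w j * g (Pi.single j 1) := by
    intro w
    conv_lhs => rw [pi_eq_sum_univ' w]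
    rw [map_sum]
    refine Finset.sum_congr rfl fun j _ => ?_
    rw [map_smul, smul_eq_mul]
  obtain ⟨d, hd⟩ := IsLocalization.exist_integer_multiples_of_finite (nonZeroDivisors ℤ)
    (fun j : Fin 5 => g (Pi.single j 1))
  have hd' : ∀ j : Fin 5, ∃ c : ℤ, (c : ℚ) = (d : ℤ) * g (Pi.single j 1) := by
    intro j
    obtain ⟨c, hc⟩ := hd j
    refine ⟨c, ?_⟩
    simpa [Algebra.smul_def] using hc
  choose c hc using hd'
  have hd0 : ((d : ℤ) : ℚ) ≠ 0 := by
    have := nonZeroDivisors.coe_ne_zero d
    exact_mod_cast this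
  refine ⟨c, ?_, ?_⟩
  · intro hc0
    apply hg0
    apply LinearMap.ext
    intro w
    rw [hgs w]
    have : ∀ j : Fin 5, g (Pi.single j 1) = 0 := by
      intro j
      have := hc j
      rw [hc0] at this
      simp only [Pi.zero_apply, Int.cast_zero] at this
      rcases mul_eq_zero.1 this.symm with h1 | h1
      · exact absurd h1 hd0
      · exact h1
    simp [this]
  · intro z hz
    have hz1 : v z ∈ Submodule.span ℚ (v '' (Z : Set Pt)) :=
      Submodule.subset_span ⟨z, hz, rfl⟩
    have hz2 : g (v z) = 0 := hg hz1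
    rw [hgs] at hz2
    have : ((∑ j, c j * mon z j : ℤ) : ℚ) = 0 := by
      push_cast
      have h1 : ∀ j : Fin 5, (c j : ℚ) * (mon z j : ℚ) = (d : ℤ) * (v z j * g (Pi.single j 1)) := by
        intro j
        rw [hc j, hv]
        ring
      rw [Finset.sum_congr rfl fun j _ => h1 j, ← Finset.mul_sum, hz2, mul_zero]
    exact_mod_cast this

end Pool.Agent.NTL
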