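import Pool.Agent.Work.MP_96a720_co.L.CDefs

/-!
Module CShear (M-L). PROOF. For a natural number j <= 8 let σ_j F = F(x + j y, y) = `MvPolynomial.bind₁ ![X 0 + C j * X 1, X 1] F`
(over ℤ and over ℚ), an algebra automorphism with inverse F(x - j y, y); totalDegree (σ_j F) <= totalDegree F (hence =),
ev (x, y) (σ_j F) = ev (x + j y, y) F. A'' = image of A under (x, y) -> (x - j y, y) (injective), so σ_j F vanishes
on A''; |x - j y| <= 9 R; NoThree is preserved (the determinant is unchanged); `Many k A''`: if G has degree < k and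
vanishes on a subset of A'' then σ_(-j) G (that is G(x - j y, y)) vanishes on the corresponding subset of A
(evQ (x - j y, y) G = evQ (x,y) (σ_(-j) G)), nonzero, same degree.
Choice of j: F has totalDegree exactly k (if totalDegree F + 1 <= k then `Many` for F over ℚ gives 2|A| < |A|, as F
vanishes on all of A, contradiction). The coefficient of y^k in σ_j F is h(j), h(T) = sum_{i+l=k} c_(i,l) T^i (c = the
coefficients of F), a nonzero polynomial of degree <= 8 in T, since some coefficient with i + l = k is nonzero; so h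
does not vanish at one of the nine numbers j = 0..8 (`Polynomial.card_roots'`). (To compute the coefficient:
G := σ_j F has totalDegree <= k, G(0, y) = F(j y, y) = sum c_(i,l) j^i y^(i+l) as a polynomial in y; its coefficient of
y^k is coeff (single 1 k) G.)
Derivative: d/dy (σ_j F) = σ_j (j F_x + F_y), so at a'' = (x - j y, y) it is j F_x(x,y) + F_y(x,y), of absolute value
<= 9 * (45 * 8 * B * R^8) = 3240 B R^8 (at most 45 monomials, |coefficients| <= B, exponents <= 8, |x|,|y| <= R, R >= 1).
-/

set_option autoImplicit false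
open Classical

namespace Pool.Agent.NTL

section shear

variable {S : Type} [CommRing S]

/-- The shear `F(x + c y, y)`. -/
private noncomputable def sh (c : S) : MvPolynomial (Fin 2) S →ₐ[S] MvPolynomial (Fin 2) S :=
  MvPolynomial.bind₁ ![MvPolynomial.X 0 + MvPolynomial.C c * MvPolynomial.X 1, MvPolynomial.X 1]

private lemma eval_sh (c x y : S) (F : MvPolynomial (Fin 2) S) :
    MvPolynomial.eval ![x, y] (sh c F) = MvPolynomial.eval ![x + c * y, y] F := by
  unfold sh
  have h := MvPolynomial.eval₂Hom_bind₁ (RingHom.id S) ![x, y]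
    ![MvPolynomial.X 0 + MvPolynomial.C c * MvPolynomial.X 1, MvPolynomial.X 1] F
  have h1 : (fun i => MvPolynomial.eval₂Hom (RingHom.id S) ![x, y]
      ((![MvPolynomial.X 0 + MvPolynomial.C c * MvPolynomial.X 1, MvPolynomial.X 1] :
        Fin 2 → MvPolynomial (Fin 2) S) i)) = ![x + c * y, y] := by
    funext i
    fin_cases i <;> simp
  rw [h1] at h
  exact h

private lemma sh_X0 (c : S) : sh c (MvPolynomial.X 0) = MvPolynomial.X 0 + MvPolynomial.C c * MvPolynomial.X 1 := by
  unfold sh
  rw [MvPolynomial.bind₁_X_right]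
  rfl

private lemma sh_X1 (c : S) : sh c (MvPolynomial.X 1) = MvPolynomial.X 1 := by
  unfold sh
  rw [MvPolynomial.bind₁_X_right]
  rfl

private lemma sh_C (c a : S) : sh c (MvPolynomial.C a) = MvPolynomial.C a := by
  rw [← MvPolynomial.algebraMap_eq]
  exact (sh c).commutes a

private lemma sh_sh (c e : S) (h : c + e = 0) (F : MvPolynomial (Fin 2) S) : sh c (sh e F) = F := by
  have : ((sh c).comp (sh e)) = AlgHom.id S _ := by
    apply MvPolynomial.algHom_ext
    intro i
    fin_cases i
    · change sh c (sh e (MvPolynomial.X 0)) = MvPolynomial.X 0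
      rw [sh_X0, map_add, map_mul, sh_X0, sh_X1, sh_C, add_assoc, ← add_mul, ← map_add, h]
      simp
    · change sh c (sh e (MvPolynomial.X 1)) = MvPolynomial.X 1
      rw [sh_X1, sh_X1]
  exact congrArg (fun f => f F) this

private lemma sh_deg (c : S) (F : MvPolynomial (Fin 2) S) : (sh c F).totalDegree ≤ F.totalDegree := by
  rcases subsingleton_or_nontrivial S with hS | hS
  · have : sh c F = 0 := Subsingleton.elim _ _
    rw [this]
    simp
  conv_lhs => rw [F.as_sum]
  rw [map_sum]
  refine MvPolynomial.totalDegree_finsetSum_le fun d hd => ?_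
  have h1 : MvPolynomial.monomial d (F.coeff d) =
      MvPolynomial.C (F.coeff d) * (MvPolynomial.X 0 ^ d 0 * MvPolynomial.X 1 ^ d 1) := by
    rw [MvPolynomial.monomial_eq, Finsupp.prod_fintype _ _ (fun _ => pow_zero _),
      Fin.prod_univ_two]
  rw [h1, map_mul, map_mul, map_pow, map_pow, sh_C, sh_X0, sh_X1]
  have hle : d 0 + d 1 ≤ F.totalDegree := by
    have := MvPolynomial.le_totalDegree hd
    rwa [Finsupp.sum_fintype _ _ (fun _ => rfl), Fin.sum_univ_two] at this
  have h2 : (MvPolynomial.X 0 + MvPolynomial.C c * MvPolynomial.X 1 :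
      MvPolynomial (Fin 2) S).totalDegree ≤ 1 := by
    refine (MvPolynomial.totalDegree_add _ _).trans (max_le ?_ ?_)
    · rw [MvPolynomial.totalDegree_X]
    · refine (MvPolynomial.totalDegree_mul _ _).trans ?_
      rw [MvPolynomial.totalDegree_C, MvPolynomial.totalDegree_X]
  refine (MvPolynomial.totalDegree_mul _ _).trans ?_
  rw [MvPolynomial.totalDegree_C, zero_add]
  refine (MvPolynomial.totalDegree_mul _ _).trans ?_
  refine le_trans (Nat.add_le_add ((MvPolynomial.totalDegree_pow _ _).trans (Nat.mul_le_mul_left _ h2))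
    (MvPolynomial.totalDegree_pow _ _)) ?_
  rw [MvPolynomial.totalDegree_X]
  omega

private lemma pderiv_sh (c : S) (F : MvPolynomial (Fin 2) S) :
    MvPolynomial.pderiv 1 (sh c F) =
      sh c (MvPolynomial.C c * MvPolynomial.pderiv 0 F + MvPolynomial.pderiv 1 F) := by
  induction F using MvPolynomial.induction_on with
  | C a => rw [sh_C]; simp
  | add p q hp hq =>
    rw [map_add, map_add, hp, hq]
    simp only [map_add, mul_add]
    ring
  | mul_X p i hp =>
    rw [map_mul, MvPolynomial.pderiv_mul, hp, MvPolynomial.pderiv_mul, MvPolynomial.pderiv_mul]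
    fin_cases i
    · change _ * sh c (MvPolynomial.X 0) + sh c p * MvPolynomial.pderiv 1 (sh c (MvPolynomial.X 0)) =
        sh c (MvPolynomial.C c * (MvPolynomial.pderiv 0 p * MvPolynomial.X 0 +
          p * MvPolynomial.pderiv 0 (MvPolynomial.X 0)) +
          (MvPolynomial.pderiv 1 p * MvPolynomial.X 0 + p * MvPolynomial.pderiv 1 (MvPolynomial.X 0)))
      have h0 : MvPolynomial.pderiv 1 (MvPolynomial.X 0 : MvPolynomial (Fin 2) S) = 0 :=
        MvPolynomial.pderiv_X_of_ne (by decide)
      have h2 : MvPolynomial.pderiv 1 (MvPolynomial.X 0 + MvPolynomial.C c * MvPolynomial.X 1 :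
          MvPolynomial (Fin 2) S) = MvPolynomial.C c := by
        rw [map_add, h0, MvPolynomial.pderiv_C_mul, MvPolynomial.pderiv_X_self]
        simp
      rw [sh_X0, h2, h0, MvPolynomial.pderiv_X_self]
      simp only [map_add, map_mul, sh_C, sh_X0, map_zero, map_one]
      ring
    · change _ * sh c (MvPolynomial.X 1) + sh c p * MvPolynomial.pderiv 1 (sh c (MvPolynomial.X 1)) =
        sh c (MvPolynomial.C c * (MvPolynomial.pderiv 0 p * MvPolynomial.X 1 +
          p * MvPolynomial.pderiv 0 (MvPolynomial.X 1)) +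
          (MvPolynomial.pderiv 1 p * MvPolynomial.X 1 + p * MvPolynomial.pderiv 1 (MvPolynomial.X 1)))
      have h0 : MvPolynomial.pderiv 0 (MvPolynomial.X 1 : MvPolynomial (Fin 2) S) = 0 :=
        MvPolynomial.pderiv_X_of_ne (by decide)
      rw [sh_X1, h0, MvPolynomial.pderiv_X_self]
      simp only [map_add, map_mul, sh_C, sh_X1, map_zero, map_one]
      ring

private lemma coeff_top (c : S) (k : ℕ) (F : MvPolynomial (Fin 2) S) :
    (sh c F).coeff (Finsupp.single 1 k) =
      Polynomial.eval c (∑ d ∈ F.support.filter (fun d => d 0 + d 1 = k),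
        Polynomial.C (F.coeff d) * Polynomial.X ^ (d 0)) := by
  -- restriction to x = 0
  have hres : ∀ G : MvPolynomial (Fin 2) S,
      (MvPolynomial.aeval ![(0 : Polynomial S), Polynomial.X] G).coeff k =
        G.coeff (Finsupp.single 1 k) := by
    intro G
    conv_lhs => rw [G.as_sum, map_sum, Polynomial.finsetSum_coeff]
    have hterm : ∀ d : Fin 2 →₀ ℕ, (MvPolynomial.aeval ![(0 : Polynomial S), Polynomial.X]
        (MvPolynomial.monomial d (G.coeff d))).coeff k =
        if d = Finsupp.single 1 k then G.coeff d else 0 := by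
      intro d
      rw [MvPolynomial.aeval_monomial, Finsupp.prod_fintype _ _ (fun _ => pow_zero _),
        Fin.prod_univ_two]
      simp only [Matrix.cons_val_zero, Matrix.cons_val_one, Polynomial.algebraMap_eq]
      rw [Polynomial.coeff_C_mul]
      split_ifs with h
      · subst h
        simp
      · by_cases h0 : d 0 = 0
        · rw [h0, pow_zero, one_mul, Polynomial.coeff_X_pow]
          have : k ≠ d 1 := by
            intro hk
            apply h
            ext i
            fin_cases i
            · simpa using h0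
            · simpa using hk.symm
          rw [if_neg this, mul_zero]
        · rw [zero_pow h0, zero_mul, Polynomial.coeff_zero, mul_zero]
    rw [Finset.sum_congr rfl fun d _ => hterm d, Finset.sum_ite_eq']
    split_ifs with h
    · rfl
    · exact (MvPolynomial.notMem_support_iff.1 h).symm
  rw [← hres]
  have hcomp : MvPolynomial.aeval ![(0 : Polynomial S), Polynomial.X] (sh c F) =
      MvPolynomial.aeval ![Polynomial.C c * Polynomial.X, (Polynomial.X : Polynomial S)] F := by
    unfold sh
    rw [MvPolynomial.aeval_bind₁]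
    congr 2
    funext i
    fin_cases i <;> simp
  rw [hcomp]
  conv_lhs => rw [F.as_sum, map_sum, Polynomial.finsetSum_coeff]
  rw [Polynomial.eval_finsetSum, Finset.sum_filter]
  apply Finset.sum_congr rfl
  intro d _
  rw [MvPolynomial.aeval_monomial, Finsupp.prod_fintype _ _ (fun _ => pow_zero _),
    Fin.prod_univ_two]
  simp only [Matrix.cons_val_zero, Matrix.cons_val_one, Polynomial.algebraMap_eq]
  rw [mul_pow, mul_assoc, ← pow_add, ← Polynomial.C_pow, Polynomial.coeff_C_mul,
    Polynomial.coeff_C_mul, Polynomial.coeff_X_pow]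
  by_cases h : d 0 + d 1 = k
  · rw [if_pos h, if_pos h.symm]
    simp
  · rw [if_neg h, if_neg (fun h' => h h'.symm)]
    simp

private lemma exists_coeff [IsDomain S] [CharZero S] (k : ℕ) (hk : k ≤ 8) (F : MvPolynomial (Fin 2) S)
    (hF : F ≠ 0) (hd : F.totalDegree = k) :
    ∃ j : ℕ, j ≤ 8 ∧ (sh (j : S) F).coeff (Finsupp.single 1 k) ≠ 0 := by
  set h : Polynomial S := ∑ d ∈ F.support.filter (fun d => d 0 + d 1 = k),
        Polynomial.C (F.coeff d) * Polynomial.X ^ (d 0) with hh
  have hne : h ≠ 0 := by
    obtain ⟨d, hds, hdk⟩ : ∃ d ∈ F.support, d 0 + d 1 = k := by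
      obtain ⟨d, hd1, hd2⟩ := Finset.exists_mem_eq_sup F.support (MvPolynomial.support_nonempty.2 hF)
        (fun s => s.sum fun _ e => e)
      refine ⟨d, hd1, ?_⟩
      rw [← hd, MvPolynomial.totalDegree, hd2]
      rw [Finsupp.sum_fintype _ _ (fun _ => rfl), Fin.sum_univ_two]
    intro h0
    have h1 := congrArg (fun p => Polynomial.coeff p (d 0)) h0
    simp only [hh, Polynomial.finsetSum_coeff, Polynomial.coeff_zero, Polynomial.coeff_C_mul,
      Polynomial.coeff_X_pow] at h1
    rw [Finset.sum_eq_single d] at h1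
    · simp only [if_true, mul_one] at h1
      exact (MvPolynomial.mem_support_iff.1 hds) h1
    · intro e he hed
      rw [if_neg, mul_zero]
      intro h2
      apply hed
      have h3 := (Finset.mem_filter.1 he).2
      ext i
      fin_cases i
      · simpa using h2.symm
      · simp only [Fin.mk_one]
        change e 1 = d 1
        omega
    · intro h2
      exact absurd (Finset.mem_filter.2 ⟨hds, hdk⟩) h2
  have hdeg : h.natDegree ≤ 8 := by
    rw [hh]
    apply Polynomial.natDegree_sum_le_of_forall_le
    intro d hd1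
    refine (Polynomial.natDegree_C_mul_X_pow_le _ _).trans ?_
    have := (Finset.mem_filter.1 hd1).2
    omega
  by_contra hcon
  push Not at hcon
  apply hne
  apply Polynomial.eq_zero_of_natDegree_lt_card_of_eval_eq_zero h
    (f := fun i : Fin 9 => ((i : ℕ) : S))
  · intro a b hab
    exact Fin.ext (Nat.cast_injective (R := S) hab)
  · intro i
    rw [hh, ← coeff_top]
    exact hcon i (by omega)
  · simp
    omega

end shear

private lemma card_supp {k : ℕ} (hk : k ≤ 8) (F : MvPolynomial (Fin 2) ℤ) (hd : F.totalDegree ≤ k) :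
    F.support.card ≤ 45 := by
  have h45 : ((Finset.range 9 ×ˢ Finset.range 9).filter fun p => p.1 + p.2 ≤ 8).card = 45 := by
    decide
  rw [← h45]
  refine Finset.card_le_card_of_injOn (fun d => (d 0, d 1)) ?_ ?_
  · intro d hds
    have h := (MvPolynomial.le_totalDegree hds).trans hd
    rw [Finsupp.sum_fintype _ _ (fun _ => rfl), Fin.sum_univ_two] at h
    rw [Finset.mem_coe, Finset.mem_filter, Finset.mem_product, Finset.mem_range, Finset.mem_range]
    simp only
    omega
  · intro d _ e _ hde
    have h0 := congrArg Prod.fst hde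
    have h1 := congrArg Prod.snd hde
    ext i
    fin_cases i
    · exact h0
    · exact h1

private lemma ev_deriv (R k B : ℕ) (hR : 1 ≤ R) (hk : k ≤ 8) (a : Pt)
    (ha : a.1.natAbs ≤ R ∧ a.2.natAbs ≤ R) (F : MvPolynomial (Fin 2) ℤ) (hd : F.totalDegree ≤ k)
    (hB : ∀ d, (F.coeff d).natAbs ≤ B) (i : Fin 2) :
    (ev a (MvPolynomial.pderiv i F)).natAbs ≤ 45 * (8 * B * R ^ 8) := by
  have h1 : ev a (MvPolynomial.pderiv i F) =
      ∑ d ∈ F.support, ev a (MvPolynomial.monomial (d - Finsupp.single i 1)
        (F.coeff d * ((d i : ℕ) : ℤ))) := by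
    conv_lhs => rw [F.as_sum, map_sum]
    unfold ev
    rw [map_sum]
    apply Finset.sum_congr rfl
    intro d _
    rw [MvPolynomial.pderiv_monomial]
  rw [h1]
  refine (Int.natAbs_sum_le _ _).trans ?_
  calc ∑ d ∈ F.support, (ev a (MvPolynomial.monomial (d - Finsupp.single i 1)
        (F.coeff d * ((d i : ℕ) : ℤ)))).natAbs
      ≤ ∑ _d ∈ F.support, 8 * B * R ^ 8 := by
        apply Finset.sum_le_sum
        intro d hds
        have h := (MvPolynomial.le_totalDegree hds).trans (hd.trans hk)
        rw [Finsupp.sum_fintype _ _ (fun _ => rfl), Fin.sum_univ_two] at h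
        have hdi : d i ≤ 8 := by
          fin_cases i
          · change d 0 ≤ 8
            omega
          · change d 1 ≤ 8
            omega
        unfold ev
        rw [MvPolynomial.eval_monomial, Finsupp.prod_fintype _ _ (fun _ => pow_zero _),
          Fin.prod_univ_two]
        simp only [Matrix.cons_val_zero, Matrix.cons_val_one]
        rw [Int.natAbs_mul, Int.natAbs_mul, Int.natAbs_mul, Int.natAbs_pow, Int.natAbs_pow,
          Int.natAbs_natCast]
        set e := d - Finsupp.single i 1
        have he0 : e 0 ≤ d 0 := by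
          change (d - Finsupp.single i 1 : Fin 2 →₀ ℕ) 0 ≤ d 0
          rw [Finsupp.tsub_apply]
          exact Nat.sub_le _ _
        have he1 : e 1 ≤ d 1 := by
          change (d - Finsupp.single i 1 : Fin 2 →₀ ℕ) 1 ≤ d 1
          rw [Finsupp.tsub_apply]
          exact Nat.sub_le _ _
        calc (F.coeff d).natAbs * d i * (a.1.natAbs ^ e 0 * a.2.natAbs ^ e 1)
            ≤ B * 8 * (R ^ e 0 * R ^ e 1) := by
              gcongr
              · exact hB d
              · exact ha.1
              · exact ha.2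
          _ = 8 * B * R ^ (e 0 + e 1) := by rw [pow_add]; ring
          _ ≤ 8 * B * R ^ 8 := by
              apply Nat.mul_le_mul_left
              exact Nat.pow_le_pow_right hR (by omega)
    _ = F.support.card * (8 * B * R ^ 8) := by rw [Finset.sum_const, smul_eq_mul]
    _ ≤ 45 * (8 * B * R ^ 8) := Nat.mul_le_mul_right _ (card_supp hk F hd)

theorem cshear (R k B : ℕ) (hR : 1 ≤ R) (hk2 : 2 ≤ k) (hk : k ≤ 8) (A : Finset Pt)
    (hAR : ∀ a ∈ A, a.1.natAbs ≤ R ∧ a.2.natAbs ≤ R) (h3 : NoThree A) (hM : Many k A)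
    (F : MvPolynomial (Fin 2) ℤ) (hF : F ≠ 0) (hd : F.totalDegree ≤ k)
    (hv : ∀ a ∈ A, ev a F = 0) (hB : ∀ d, (F.coeff d).natAbs ≤ B) :
    ∃ A' : Finset Pt, A'.card = A.card ∧ (∀ a ∈ A', a.1.natAbs ≤ 9 * R ∧ a.2.natAbs ≤ 9 * R) ∧
      NoThree A' ∧ Many k A' ∧ ∃ F' : MvPolynomial (Fin 2) ℤ, F'.totalDegree ≤ k ∧
        F'.coeff (Finsupp.single 1 k) ≠ 0 ∧ (∀ a ∈ A', ev a F' = 0) ∧
        ∀ a ∈ A', (ev a (dy F')).natAbs ≤ 3240 * B * R ^ 8 := by
  -- the total degree is exactly `k`
  have hdk : F.totalDegree = k := by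
    by_contra hne
    have hlt : F.totalDegree + 1 ≤ k := by omega
    have hinj : Function.Injective (Int.castRingHom ℚ) := Int.cast_injective
    have h1 := hM (MvPolynomial.map (Int.castRingHom ℚ) F) (by
      intro h0
      apply hF
      exact MvPolynomial.map_injective _ hinj (by rw [h0, map_zero])) (by
      have h2 : (MvPolynomial.map (Int.castRingHom ℚ) F).totalDegree ≤ F.totalDegree :=
        Finset.sup_mono (MvPolynomial.support_map_subset _ _)
      omega)
    rw [Finset.filter_true_of_mem] at h1
    · omega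
    · intro a ha
      rw [evQ_map, hv a ha]
      simp
  obtain ⟨j, hj8, hj⟩ := exists_coeff k hk F hF hdk
  have hinjf : Function.Injective (fun a : Pt => ((a.1 - j * a.2, a.2) : Pt)) := by
    intro a b hab
    have h0 := congrArg Prod.fst hab
    have h1 := congrArg Prod.snd hab
    simp only at h0 h1
    refine Prod.ext ?_ h1
    rw [h1] at h0
    linarith
  have hevQ : ∀ (a : Pt) (G : MvPolynomial (Fin 2) ℚ),
      evQ (a.1 - j * a.2, a.2) G = evQ a (sh (-(j : ℚ)) G) := by
    intro a G
    unfold evQ
    rw [eval_sh]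
    congr 2
    push_cast
    ring_nf
  have hev : ∀ (a : Pt) (G : MvPolynomial (Fin 2) ℤ),
      ev (a.1 - j * a.2, a.2) (sh (j : ℤ) G) = ev a G := by
    intro a G
    unfold ev
    simp only
    rw [eval_sh]
    congr 2
    ring_nf
  refine ⟨A.image fun a => (a.1 - j * a.2, a.2), Finset.card_image_of_injective _ hinjf, ?_, ?_, ?_,
    sh (j : ℤ) F, (sh_deg _ _).trans hd, hj, ?_, ?_⟩
  · intro b hb
    obtain ⟨a, ha, rfl⟩ := Finset.mem_image.1 hb
    have h1 := hAR a ha
    simp only
    constructor
    · have h2 : (a.1 - j * a.2).natAbs ≤ a.1.natAbs + j * a.2.natAbs := by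
        refine (Int.natAbs_sub_le _ _).trans ?_
        rw [Int.natAbs_mul, Int.natAbs_natCast]
      have h3 : j * a.2.natAbs ≤ 8 * R := Nat.mul_le_mul hj8 h1.2
      omega
    · omega
  · intro a' ha' b' hb' c' hc' hab hac hbc
    obtain ⟨a, ha, rfl⟩ := Finset.mem_image.1 ha'
    obtain ⟨b, hb, rfl⟩ := Finset.mem_image.1 hb'
    obtain ⟨c, hc, rfl⟩ := Finset.mem_image.1 hc'
    have h := h3 a ha b hb c hc (fun h => hab (by rw [h])) (fun h => hac (by rw [h]))
      (fun h => hbc (by rw [h]))
    simp only
    intro h2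
    apply h
    linarith [h2]
  · intro G hG hGd
    have hG' : sh (-(j : ℚ)) G ≠ 0 := by
      intro h0
      apply hG
      have := sh_sh (j : ℚ) (-(j : ℚ)) (by ring) G
      rw [h0, map_zero] at this
      exact this.symm
    have h1 := hM (sh (-(j : ℚ)) G) hG' (by
      have := sh_deg (-(j : ℚ)) G
      omega)
    rw [Finset.card_image_of_injective _ hinjf, Finset.filter_image,
      Finset.card_image_of_injective _ hinjf]
    convert h1 using 5
    exact hevQ _ _
  · intro b hb
    obtain ⟨a, ha, rfl⟩ := Finset.mem_image.1 hb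
    rw [hev]
    exact hv a ha
  · intro b hb
    obtain ⟨a, ha, rfl⟩ := Finset.mem_image.1 hb
    unfold dy
    rw [pderiv_sh, hev]
    have h0 := ev_deriv R k B hR hk a (hAR a ha) F hd hB 0
    have h1 := ev_deriv R k B hR hk a (hAR a ha) F hd hB 1
    have h2 : ev a (MvPolynomial.C (j : ℤ) * MvPolynomial.pderiv 0 F + MvPolynomial.pderiv 1 F) =
        j * ev a (MvPolynomial.pderiv 0 F) + ev a (MvPolynomial.pderiv 1 F) := by
      unfold ev
      simp
    rw [h2]
    calc (j * ev a (MvPolynomial.pderiv 0 F) + ev a (MvPolynomial.pderiv 1 F)).natAbs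
        ≤ j * (ev a (MvPolynomial.pderiv 0 F)).natAbs + (ev a (MvPolynomial.pderiv 1 F)).natAbs := by
          refine (Int.natAbs_add_le _ _).trans ?_
          rw [Int.natAbs_mul, Int.natAbs_natCast]
      _ ≤ 8 * (45 * (8 * B * R ^ 8)) + 45 * (8 * B * R ^ 8) := by
          gcongr
      _ = 3240 * B * R ^ 8 := by ring

end Pool.Agent.NTL
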