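import Pool.Agent.Work.MP_96a720_co.L.Aff

/-!
Module Close (M). PROOF. Cells of side H: the cell of x is (x.1 / H, x.2 / H) (integer floor division). For an index
(i, j) in Z^2 the block Z_ij = {x in X : x.1/H in {i, i+1}, x.2/H in {j, j+1}} = {x in X : i H <= x.1 < (i+2) H, ...}
is the image under aff 1 (iH, jH) of a set Y contained in box (2H), hence in `box M` (Y = Z_ij.image (x - t)). By
`no_conf` with q = 1: Λ' * ee W Z_ij <= s * |Z_ij|. If (a, b) is a pair with nn a b <= H, then a.1/H and b.1/H differ by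
at most 1, also the second coordinates, so with i = min (a.1/H) (b.1/H), j = min (a.2/H) (b.2/H) both points lie in
Z_ij and the pair is counted by ee W Z_ij. Every x lies in at most 4 blocks (i in {x.1/H - 1, x.1/H}, the same for j).
Sum over the finite set of all indices (i, j) that occur (for instance the image of X x X under the min map above, or
all i, j in Icc (-1) (something)): Λ' * #close <= sum Λ' * ee W Z_ij <= sum s |Z_ij| <= 4 s |X|
(interchange of summation; `Finset.card_eq_sum_card_fiberwise`/`Finset.sum_comm`).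
-/

set_option autoImplicit false
open Classical

namespace Pool.Agent.NTL

private lemma cell_aux (x y H : ℤ) (hH : 0 < H) (h : |x - y| ≤ H) :
    min (x / H) (y / H) * H ≤ x ∧ x < (min (x / H) (y / H) + 2) * H ∧
      min (x / H) (y / H) * H ≤ y ∧ y < (min (x / H) (y / H) + 2) * H := by
  have hx1 : x / H * H ≤ x := Int.ediv_mul_le _ hH.ne'
  have hy1 : y / H * H ≤ y := Int.ediv_mul_le _ hH.ne'
  have hx2 : x < (x / H + 1) * H := Int.lt_ediv_add_one_mul_self _ hH
  have hy2 : y < (y / H + 1) * H := Int.lt_ediv_add_one_mul_self _ hH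
  rw [abs_le] at h
  rcases le_total (x / H) (y / H) with hle | hle
  · rw [min_eq_left hle]
    have h3 : x / H * H ≤ y / H * H := mul_le_mul_of_nonneg_right hle hH.le
    refine ⟨hx1, ?_, h3.trans hy1, ?_⟩
    · linarith
    · linarith
  · rw [min_eq_right hle]
    have h3 : y / H * H ≤ x / H * H := mul_le_mul_of_nonneg_right hle hH.le
    refine ⟨h3.trans hx1, ?_, hy1, ?_⟩
    · linarith
    · linarith

private lemma cell_idx (x i H : ℤ) (hH : 0 < H) (h1 : i * H ≤ x) (h2 : x < (i + 2) * H) :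
    i ∈ ({x / H - 1, x / H} : Finset ℤ) := by
  have h3 : i ≤ x / H := (Int.le_ediv_iff_mul_le hH).2 h1
  have h4 : x / H < i + 2 := (Int.ediv_lt_iff_lt_mul hH).2 h2
  rw [Finset.mem_insert, Finset.mem_singleton]
  omega

private noncomputable def blk (H : ℤ) (X : Finset Pt) (i : Pt) : Finset Pt :=
  X.filter fun x => (i.1 * H ≤ x.1 ∧ x.1 < (i.1 + 2) * H) ∧ (i.2 * H ≤ x.2 ∧ x.2 < (i.2 + 2) * H)

private lemma blk_bound (W s H M : ℕ) (Λ' : ℝ) (X : Finset Pt) (hX : NoThree X) (hXs : X.card ≤ s)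
    (hH : 1 ≤ H) (hM : 2 * H ≤ M) (hno : ¬ Conf W s M Λ') (i : Pt) :
    Λ' * ee W (blk H X i) ≤ s * (blk H X i).card := by
  refine no_conf W s M Λ' hno 1 le_rfl (i.1 * H, i.2 * H)
    ((blk H X i).image fun x => (x.1 - i.1 * H, x.2 - i.2 * H)) ?_ _ ?_
    (hX.mono (Finset.filter_subset _ _))
    ((Finset.card_le_card (Finset.filter_subset _ _)).trans hXs)
  · intro y hy
    rw [Finset.mem_image] at hy
    obtain ⟨x, hx, rfl⟩ := hy
    unfold blk at hx
    rw [Finset.mem_filter] at hx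
    obtain ⟨-, ⟨h1, h2⟩, ⟨h3, h4⟩⟩ := hx
    rw [mem_box]
    have hM' : 2 * (H : ℤ) ≤ M := by exact_mod_cast hM
    refine ⟨?_, ?_, ?_, ?_⟩
    · show 0 ≤ x.1 - i.1 * H
      linarith
    · show x.1 - i.1 * H < M
      linarith
    · show 0 ≤ x.2 - i.2 * H
      linarith
    · show x.2 - i.2 * H < M
      linarith
  · rw [Finset.image_image]
    conv_lhs => rw [← Finset.image_id (s := blk H X i)]
    refine Finset.image_congr fun x _ => ?_
    simp [aff]

theorem close (W s H M : ℕ) (Λ' : ℝ) (X : Finset Pt) (hX : NoThree X) (hXs : X.card ≤ s)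
    (hH : 1 ≤ H) (hM : 2 * H ≤ M) (hΛ : 0 ≤ Λ') (hno : ¬ Conf W s M Λ') :
    Λ' * ((X ×ˢ X).filter fun p => Good W p.1 p.2 ∧ nn p.1 p.2 ≤ H).card ≤ 4 * s * X.card := by
  have hH0 : (0 : ℤ) < H := by exact_mod_cast hH
  set g : Pt × Pt → Pt := fun p => (min (p.1.1 / (H : ℤ)) (p.2.1 / (H : ℤ)),
    min (p.1.2 / (H : ℤ)) (p.2.2 / (H : ℤ))) with hg
  set I : Finset Pt := (X ×ˢ X).image g with hI
  -- the close pairs lie in the blocks
  have h1 : ((X ×ˢ X).filter fun p => Good W p.1 p.2 ∧ nn p.1 p.2 ≤ H).card ≤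
      ∑ i ∈ I, ee W (blk H X i) := by
    have hsub : ((X ×ˢ X).filter fun p => Good W p.1 p.2 ∧ nn p.1 p.2 ≤ H) ⊆
        I.biUnion fun i => ((blk H X i ×ˢ blk H X i).filter fun p => Good W p.1 p.2) := by
      intro p hp
      rw [Finset.mem_filter, Finset.mem_product] at hp
      obtain ⟨⟨ha, hb⟩, hgood, hn⟩ := hp
      rw [Finset.mem_biUnion]
      refine ⟨g p, ?_, ?_⟩
      · rw [hI]
        exact Finset.mem_image_of_mem _ (Finset.mem_product.2 ⟨ha, hb⟩)
      · rw [Finset.mem_filter, Finset.mem_product]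
        unfold nn at hn
        have hn1 := (le_max_left _ _).trans hn
        have hn2 := (le_max_right _ _).trans hn
        have c1 := cell_aux p.1.1 p.2.1 H hH0 (by rw [Int.abs_eq_natAbs]; exact_mod_cast hn1)
        have c2 := cell_aux p.1.2 p.2.2 H hH0 (by rw [Int.abs_eq_natAbs]; exact_mod_cast hn2)
        refine ⟨⟨?_, ?_⟩, hgood⟩
        · unfold blk
          rw [Finset.mem_filter]
          exact ⟨ha, ⟨c1.1, c1.2.1⟩, ⟨c2.1, c2.2.1⟩⟩
        · unfold blk
          rw [Finset.mem_filter]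
          exact ⟨hb, ⟨c1.2.2.1, c1.2.2.2⟩, ⟨c2.2.2.1, c2.2.2.2⟩⟩
    exact (Finset.card_le_card hsub).trans Finset.card_biUnion_le
  -- every point lies in at most four blocks
  have h2 : ∑ i ∈ I, (blk H X i).card ≤ 4 * X.card := by
    have h3 : ∑ i ∈ I, (blk H X i).card =
        ∑ x ∈ X, (I.filter fun i : Pt => (i.1 * (H : ℤ) ≤ x.1 ∧ x.1 < (i.1 + 2) * H) ∧
          (i.2 * (H : ℤ) ≤ x.2 ∧ x.2 < (i.2 + 2) * H)).card := by
      unfold blk
      simp only [Finset.card_filter]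
      exact Finset.sum_comm
    rw [h3, mul_comm 4, ← smul_eq_mul]
    refine Finset.sum_le_card_nsmul _ _ _ fun x hx => ?_
    have h4 : (I.filter fun i : Pt => (i.1 * (H : ℤ) ≤ x.1 ∧ x.1 < (i.1 + 2) * H) ∧
        (i.2 * (H : ℤ) ≤ x.2 ∧ x.2 < (i.2 + 2) * H)) ⊆
        ({x.1 / (H : ℤ) - 1, x.1 / (H : ℤ)} : Finset ℤ) ×ˢ
          ({x.2 / (H : ℤ) - 1, x.2 / (H : ℤ)} : Finset ℤ) := by
      intro i hi
      rw [Finset.mem_filter] at hi
      obtain ⟨-, ⟨a1, a2⟩, ⟨a3, a4⟩⟩ := hi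
      rw [Finset.mem_product]
      exact ⟨cell_idx _ _ _ hH0 a1 a2, cell_idx _ _ _ hH0 a3 a4⟩
    refine (Finset.card_le_card h4).trans ?_
    rw [Finset.card_product]
    have h5 : ∀ z : ℤ, ({z - 1, z} : Finset ℤ).card ≤ 2 := fun z => Finset.card_le_two
    calc _ ≤ 2 * 2 := Nat.mul_le_mul (h5 _) (h5 _)
      _ = 4 := by norm_num
  have h3 : ((((X ×ˢ X).filter fun p => Good W p.1 p.2 ∧ nn p.1 p.2 ≤ H).card : ℕ) : ℝ) ≤
      ∑ i ∈ I, (ee W (blk H X i) : ℝ) := by exact_mod_cast h1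
  have h4 : ∑ i ∈ I, ((blk H X i).card : ℝ) ≤ 4 * X.card := by exact_mod_cast h2
  calc Λ' * ((X ×ˢ X).filter fun p => Good W p.1 p.2 ∧ nn p.1 p.2 ≤ H).card
      ≤ Λ' * ∑ i ∈ I, (ee W (blk H X i) : ℝ) := mul_le_mul_of_nonneg_left h3 hΛ
    _ = ∑ i ∈ I, Λ' * (ee W (blk H X i) : ℝ) := Finset.mul_sum _ _ _
    _ ≤ ∑ i ∈ I, (s : ℝ) * (blk H X i).card :=
        Finset.sum_le_sum fun i _ => blk_bound W s H M Λ' X hX hXs hH hM hno i
    _ = s * ∑ i ∈ I, ((blk H X i).card : ℝ) := (Finset.mul_sum _ _ _).symm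
    _ ≤ s * (4 * X.card) := mul_le_mul_of_nonneg_left h4 (Nat.cast_nonneg _)
    _ = 4 * s * X.card := by ring

end Pool.Agent.NTL
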