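import Pool.Agent.Work.MP_96a720_co.L.Defs

set_option autoImplicit false
open Classical

namespace Pool.Agent.NTL

private def EE : Finset (ℕ × ℕ) := (Finset.range 9 ×ˢ Finset.range 9).filter fun e => e.1 + e.2 ≤ 8

private lemma mem_EE {e : ℕ × ℕ} (h : e ∈ EE) : e.1 + e.2 ≤ 8 := (Finset.mem_filter.1 h).2

private lemma EE_card : EE.card = 45 := by decide

private lemma EE_sum : ∑ e ∈ EE, (e.1 + e.2) = 240 := by decide

private noncomputable def sE (e : ℕ × ℕ) : Fin 2 →₀ ℕ := Finsupp.single 0 e.1 + Finsupp.single 1 e.2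

private lemma sE_inj {e f : ℕ × ℕ} (h : sE e = sE f) : e = f := by
  have h0 := DFunLike.congr_fun h (0 : Fin 2)
  have h1 := DFunLike.congr_fun h (1 : Fin 2)
  simp [sE] at h0 h1
  exact Prod.ext h0 h1

private noncomputable def Poly (d : ↥EE → ℤ) : MvPolynomial (Fin 2) ℤ :=
  ∑ e : ↥EE, MvPolynomial.monomial (sE e.1) (d e)

private lemma coeff_Poly (d : ↥EE → ℤ) (e : ↥EE) : MvPolynomial.coeff (sE e.1) (Poly d) = d e := by
  unfold Poly
  rw [MvPolynomial.coeff_sum, Finset.sum_eq_single e]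
  · rw [MvPolynomial.coeff_monomial, if_pos rfl]
  · intro f _ hf
    rw [MvPolynomial.coeff_monomial, if_neg]
    intro h
    exact hf (Subtype.ext (sE_inj h))
  · intro h; exact absurd (Finset.mem_univ _) h

private lemma deg_Poly (d : ↥EE → ℤ) : (Poly d).totalDegree ≤ 8 := by
  unfold Poly
  refine MvPolynomial.totalDegree_finsetSum_le fun e _ => ?_
  refine (MvPolynomial.totalDegree_monomial_le _ _).trans ?_
  have h := mem_EE e.2
  have h2 : (sE e.1).sum (fun _ => id) = e.1.1 + e.1.2 := by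
    unfold sE
    rw [Finsupp.sum_add_index' (fun _ => rfl) (fun _ _ _ => rfl), Finsupp.sum_single_index rfl,
      Finsupp.sum_single_index rfl]
    rfl
  exact h2.le.trans h

private lemma ev_Poly (d : ↥EE → ℤ) (a : Pt) :
    ev a (Poly d) = ∑ e : ↥EE, d e * (a.1 ^ e.1.1 * a.2 ^ e.1.2) := by
  unfold ev Poly
  rw [map_sum]
  refine Finset.sum_congr rfl fun e _ => ?_
  rw [MvPolynomial.eval_monomial]
  congr 1
  unfold sE
  rw [Finsupp.prod_add_index' (fun _ => pow_zero _) (fun _ _ _ => pow_add _ _ _)]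
  congr 1
  · rw [Finsupp.prod_single_index]
    · simp
    · exact pow_zero _
  · rw [Finsupp.prod_single_index]
    · simp
    · exact pow_zero _

private lemma term_le {L : ℕ} {a : Pt} (ha : a ∈ box L) (e : ℕ × ℕ) :
    0 ≤ a.1 ^ e.1 * a.2 ^ e.2 ∧ a.1 ^ e.1 * a.2 ^ e.2 ≤ (L : ℤ) ^ (e.1 + e.2) := by
  obtain ⟨h1, h2, h3, h4⟩ := mem_box.1 ha
  refine ⟨mul_nonneg (pow_nonneg h1 _) (pow_nonneg h3 _), ?_⟩
  rw [pow_add]
  exact mul_le_mul (pow_le_pow_left₀ h1 h2.le _) (pow_le_pow_left₀ h3 h4.le _) (pow_nonneg h3 _)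
    (pow_nonneg (h1.trans h2.le) _)

private lemma numeric (L r B : ℕ) (hL : 1 ≤ L) (hr : L ≤ r ^ 2) (hB : B = 46 * L ^ 10 * r) :
    (46 * B) ^ 22 * L ^ 240 ≤ B ^ 45 := by
  have hr1 : 1 ≤ r := by
    rcases Nat.eq_zero_or_pos r with h | h
    · subst h; omega
    · exact h
  have h1 : 46 ^ 22 * L ^ 240 ≤ B ^ 23 := by
    have h2 : B ^ 23 = 46 ^ 23 * (L ^ 230 * r ^ 23) := by rw [hB]; ring
    have h3 : L ^ 11 ≤ r ^ 23 := by
      calc L ^ 11 ≤ (r ^ 2) ^ 11 := Nat.pow_le_pow_left hr _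
        _ = r ^ 22 := by ring
        _ ≤ r ^ 23 := Nat.pow_le_pow_right hr1 (by norm_num)
    rw [h2]
    have h4 : L ^ 240 ≤ L ^ 230 * r ^ 23 := by
      calc L ^ 240 ≤ L ^ 241 := Nat.pow_le_pow_right hL (by norm_num)
        _ = L ^ 230 * L ^ 11 := by rw [← pow_add]
        _ ≤ _ := Nat.mul_le_mul_left _ h3
    exact Nat.mul_le_mul (Nat.pow_le_pow_right (by norm_num) (by norm_num)) h4
  calc (46 * B) ^ 22 * L ^ 240 = B ^ 22 * (46 ^ 22 * L ^ 240) := by ring
    _ ≤ B ^ 22 * B ^ 23 := Nat.mul_le_mul_left _ h1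
    _ = B ^ 45 := by rw [← pow_add]

theorem siegel (L : ℕ) (hL : 1 ≤ L) (b : Fin 22 → Pt) (hb : ∀ i, b i ∈ box L) :
    ∃ F : MvPolynomial (Fin 2) ℤ, F ≠ 0 ∧ F.totalDegree ≤ 8 ∧ (∀ i, ev (b i) F = 0) ∧
      ∀ a ∈ box L, (ev a F).natAbs ≤ 2070 * L ^ 10 * (Nat.sqrt L + 1) := by
  set r := Nat.sqrt L + 1 with hrdef
  have hr : L ≤ r ^ 2 := by
    have := Nat.lt_succ_sqrt' L
    rw [hrdef]
    exact this.le
  set B : ℕ := 46 * L ^ 10 * r with hB
  have hBpos : 1 ≤ B := by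
    have : 1 ≤ L ^ 10 := Nat.one_le_pow _ _ hL
    have h2 : 1 ≤ r := by omega
    calc 1 ≤ 46 * 1 * 1 := by norm_num
      _ ≤ 46 * L ^ 10 * r := Nat.mul_le_mul (Nat.mul_le_mul_left _ this) h2
  -- the boxes of coefficients
  set C : Finset (↥EE → ℕ) :=
    Fintype.piFinset fun e : ↥EE => Finset.range (B / L ^ (e.1.1 + e.1.2) + 1) with hC
  have hCcard : (46 * B) ^ 22 < C.card := by
    have h1 : C.card = ∏ e : ↥EE, (B / L ^ (e.1.1 + e.1.2) + 1) := by
      rw [hC, Fintype.card_piFinset]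
      simp
    have h2 : C.card * L ^ 240 = ∏ e : ↥EE, ((B / L ^ (e.1.1 + e.1.2) + 1) * L ^ (e.1.1 + e.1.2)) := by
      have h5 : ∑ e : ↥EE, (e.1.1 + e.1.2) = 240 := by
        rw [Finset.sum_coe_sort EE (fun e => e.1 + e.2), EE_sum]
      rw [Finset.prod_mul_distrib, Finset.prod_pow_eq_pow_sum, h1, h5]
    have h3 : (B + 1) ^ 45 ≤ C.card * L ^ 240 := by
      rw [h2]
      calc (B + 1) ^ 45 = ∏ _e : ↥EE, (B + 1) := by
            rw [Finset.prod_const, Finset.card_univ, Fintype.card_coe, EE_card]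
        _ ≤ _ := by
            refine Finset.prod_le_prod' fun e _ => ?_
            have hpos : 0 < L ^ (e.1.1 + e.1.2) := pow_pos hL _
            have := Nat.lt_mul_div_succ B hpos
            rw [mul_comm] at this
            exact this
    have h4 := numeric L r B hL hr hB
    have h5 : B ^ 45 < (B + 1) ^ 45 := Nat.pow_lt_pow_left (Nat.lt_succ_self B) (by norm_num)
    have h6 : (46 * B) ^ 22 * L ^ 240 < C.card * L ^ 240 := lt_of_le_of_lt h4 (lt_of_lt_of_le h5 h3)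
    exact lt_of_mul_lt_mul_right h6 (Nat.zero_le _)
  have hCle : ∀ c ∈ C, ∀ e : ↥EE, c e * L ^ (e.1.1 + e.1.2) ≤ B := by
    intro c hc e
    have h1 := Finset.mem_range.1 (Fintype.mem_piFinset.1 hc e)
    have h2 : c e ≤ B / L ^ (e.1.1 + e.1.2) := Nat.lt_succ_iff.1 h1
    exact (Nat.mul_le_mul_right _ h2).trans (Nat.div_mul_le_self _ _)
  -- values
  set V : Finset (Fin 22 → ℤ) := Fintype.piFinset fun _ : Fin 22 => Finset.Icc (0 : ℤ) (45 * B) with hV
  have hVcard : V.card ≤ (46 * B) ^ 22 := by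
    rw [hV, Fintype.card_piFinset]
    simp only [Finset.prod_const, Finset.card_univ, Fintype.card_fin, Int.card_Icc]
    refine Nat.pow_le_pow_left ?_ _
    omega
  have hval : ∀ c ∈ C, (fun k : Fin 22 => ev (b k) (Poly fun e => (c e : ℤ))) ∈ V := by
    intro c hc
    rw [hV, Fintype.mem_piFinset]
    intro k
    rw [Finset.mem_Icc, ev_Poly]
    have ht := fun e : ↥EE => term_le (hb k) e.1
    constructor
    · exact Finset.sum_nonneg fun e _ => mul_nonneg (Int.natCast_nonneg _) (ht e).1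
    · calc ∑ e : ↥EE, (c e : ℤ) * ((b k).1 ^ e.1.1 * (b k).2 ^ e.1.2) ≤ ∑ _e : ↥EE, (B : ℤ) := by
            refine Finset.sum_le_sum fun e _ => ?_
            refine (mul_le_mul_of_nonneg_left (ht e).2 (Int.natCast_nonneg _)).trans ?_
            exact_mod_cast hCle c hc e
        _ = 45 * B := by
            rw [Finset.sum_const, Finset.card_univ, Fintype.card_coe, EE_card, nsmul_eq_mul]
            norm_num
  obtain ⟨c, hc, c', hc', hne, heq⟩ := Finset.exists_ne_map_eq_of_card_lt_of_maps_to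
    (lt_of_le_of_lt hVcard hCcard) hval
  refine ⟨Poly fun e => (c e : ℤ) - (c' e : ℤ), ?_, deg_Poly _, ?_, ?_⟩
  · intro h0
    apply hne
    funext e
    have := coeff_Poly (fun e => (c e : ℤ) - (c' e : ℤ)) e
    rw [h0, MvPolynomial.coeff_zero] at this
    have h2 : (c e : ℤ) = c' e := by linarith
    exact_mod_cast h2
  · intro k
    have h1 := congrFun heq k
    simp only [ev_Poly] at h1
    rw [ev_Poly]
    simp only [sub_mul]
    rw [Finset.sum_sub_distrib, h1, sub_self]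
  · intro a ha
    rw [ev_Poly]
    have ht := fun e : ↥EE => term_le ha e.1
    have h1 : |∑ e : ↥EE, ((c e : ℤ) - (c' e : ℤ)) * (a.1 ^ e.1.1 * a.2 ^ e.1.2)| ≤ 45 * B := by
      calc |∑ e : ↥EE, ((c e : ℤ) - (c' e : ℤ)) * (a.1 ^ e.1.1 * a.2 ^ e.1.2)|
          ≤ ∑ e : ↥EE, |((c e : ℤ) - (c' e : ℤ)) * (a.1 ^ e.1.1 * a.2 ^ e.1.2)| :=
            Finset.abs_sum_le_sum_abs _ _
        _ ≤ ∑ _e : ↥EE, (B : ℤ) := by
            refine Finset.sum_le_sum fun e _ => ?_
            have hx : (c e : ℤ) * (a.1 ^ e.1.1 * a.2 ^ e.1.2) ≤ B :=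
              (mul_le_mul_of_nonneg_left (ht e).2 (Int.natCast_nonneg _)).trans
                (by exact_mod_cast hCle c hc e)
            have hy : (c' e : ℤ) * (a.1 ^ e.1.1 * a.2 ^ e.1.2) ≤ B :=
              (mul_le_mul_of_nonneg_left (ht e).2 (Int.natCast_nonneg _)).trans
                (by exact_mod_cast hCle c' hc' e)
            have hx0 : 0 ≤ (c e : ℤ) * (a.1 ^ e.1.1 * a.2 ^ e.1.2) :=
              mul_nonneg (Int.natCast_nonneg _) (ht e).1
            have hy0 : 0 ≤ (c' e : ℤ) * (a.1 ^ e.1.1 * a.2 ^ e.1.2) :=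
              mul_nonneg (Int.natCast_nonneg _) (ht e).1
            rw [sub_mul, abs_le]
            constructor <;> linarith
        _ = 45 * B := by
            rw [Finset.sum_const, Finset.card_univ, Fintype.card_coe, EE_card]
            simp
    have h2 : ((∑ e : ↥EE, ((c e : ℤ) - (c' e : ℤ)) * (a.1 ^ e.1.1 * a.2 ^ e.1.2)).natAbs : ℤ)
        ≤ 45 * B := by
      rw [Int.natCast_natAbs]; exact h1
    have h3 : (∑ e : ↥EE, ((c e : ℤ) - (c' e : ℤ)) * (a.1 ^ e.1.1 * a.2 ^ e.1.2)).natAbs ≤ 45 * B := by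
      exact_mod_cast h2
    refine h3.trans (le_of_eq ?_)
    rw [hB]; ring

end Pool.Agent.NTL
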