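import Pool.Agent.Work.MP_96a720_co.L.Aff

/-!
Module Triples (M-L). PROOF. For q >= 1 and a residue class c (c in Z^2, 0 <= c.1, c.2 < q) let
X_{q,c} = {x in X : x.1 = c.1 mod q and x.2 = c.2 mod q}.
(1) For Q <= q: X_{q,c} is the image under aff q c of Y = X_{q,c}.image (x -> ((x.1-c.1)/q, (x.2-c.2)/q)), and
Y is in box M: 0 <= x.1 < L gives 0 <= (x.1 - c.1)/q <= L/q <= L/Q, and L/Q + 1 <= M. `no_conf`:
Λ' * ee W X_{q,c} <= s |X_{q,c}|.
(2) Let (a, b, b') be a counted triple, q = gcd (gg a b) (gg a b') >= Q; q divides all coordinates of a - b, a - b',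
hence of b - b'; b <> b' both in box L gives q <= L (q divides a nonzero coordinate difference of absolute value < L).
With c = a mod q all three points are in X_{q,c}. For fixed (q, c) the number of such triples is at most
(number of good pairs (a,b) in X_{q,c}) * |X_{q,c}| = ee W X_{q,c} * |X_{q,c}|, and it is 0 unless |X_{q,c}| >= 2.
(3) So Λ' * #triples <= sum_{q=Q..L} sum_{c : |X_qc| >= 2} Λ' ee(X_qc) |X_qc| <= s sum_q sum_{c: |X_qc|>=2} |X_qc|^2
<= 2 s sum_q sum_c |X_qc| (|X_qc| - 1) = 2 s sum_q #{(b,b') in X.offDiag : q | b.1-b'.1, q | b.2-b'.2}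
= 2 s sum_{(b,b') in X.offDiag} #{q in [Q, L] : q | gg b b'} <= 2 s sum_{X.offDiag} τ <= 2 s τ |X|^2
(1 <= gg b b' <= L, number of divisors <= τ).
-/

set_option autoImplicit false
open Classical

namespace Pool.Agent.NTL

private def kap (q : ℕ) (x : Pt) : Pt := (x.1 % q, x.2 % q)

private theorem kap_eq_iff (q : ℕ) (x y : Pt) : kap q x = kap q y ↔ q ∣ gg x y := by
  unfold kap gg
  rw [Prod.mk.injEq]
  have h1 : (x.1 % (q : ℤ) = y.1 % (q : ℤ)) ↔ (q : ℤ) ∣ x.1 - y.1 :=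
    ⟨fun h => Int.ModEq.dvd (n := (q : ℤ)) (a := y.1) (b := x.1) h.symm,
      fun h => (Int.modEq_iff_dvd.2 h).symm⟩
  have h2 : (x.2 % (q : ℤ) = y.2 % (q : ℤ)) ↔ (q : ℤ) ∣ x.2 - y.2 :=
    ⟨fun h => Int.ModEq.dvd (n := (q : ℤ)) (a := y.2) (b := x.2) h.symm,
      fun h => (Int.modEq_iff_dvd.2 h).symm⟩
  rw [h1, h2]
  rw [← Int.natCast_dvd_natCast, Int.dvd_coe_gcd_iff]

private theorem gg_bound {L : ℕ} {x y : Pt} (hx : x ∈ box L) (hy : y ∈ box L) (hxy : x ≠ y) :
    1 ≤ gg x y ∧ gg x y ≤ L := by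
  rw [mem_box] at hx hy
  have hne : x.1 - y.1 ≠ 0 ∨ x.2 - y.2 ≠ 0 := by
    by_contra hcon
    push Not at hcon
    exact hxy (Prod.ext (by linarith [hcon.1]) (by linarith [hcon.2]))
  constructor
  · unfold gg
    rcases hne with h | h
    · exact Nat.one_le_iff_ne_zero.2 (Int.gcd_ne_zero_left h)
    · exact Nat.one_le_iff_ne_zero.2 (Int.gcd_ne_zero_right h)
  · rcases hne with h | h
    · have h1 : ((gg x y : ℕ) : ℤ) ∣ x.1 - y.1 := Int.gcd_dvd_left ..
      have h2 := Nat.le_of_dvd (Int.natAbs_pos.2 h) (Int.natCast_dvd.1 h1)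
      omega
    · have h1 : ((gg x y : ℕ) : ℤ) ∣ x.2 - y.2 := Int.gcd_dvd_right ..
      have h2 := Nat.le_of_dvd (Int.natAbs_pos.2 h) (Int.natCast_dvd.1 h1)
      omega

theorem triples (W s L M Q τ : ℕ) (Λ' : ℝ) (X : Finset Pt) (hXL : X ⊆ box L) (hX : NoThree X)
    (hXs : X.card ≤ s) (hQ : 1 ≤ Q) (hM : L / Q + 1 ≤ M) (hΛ : 0 ≤ Λ')
    (hτ : ∀ k : ℕ, 1 ≤ k → k ≤ L → k.divisors.card ≤ τ) (hno : ¬ Conf W s M Λ') :
    Λ' * ((X ×ˢ X ×ˢ X).filter fun p => Good W p.1 p.2.1 ∧ Good W p.1 p.2.2 ∧ p.2.1 ≠ p.2.2 ∧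
      Q ≤ Nat.gcd (gg p.1 p.2.1) (gg p.1 p.2.2)).card ≤ 2 * s * τ * (X.card : ℝ) ^ 2 := by
  -- one class
  have hclass : ∀ q : ℕ, Q ≤ q → ∀ c : Pt, ∀ Z : Finset Pt, Z = X.filter (fun x => kap q x = c) →
      Λ' * (((Z ×ˢ Z ×ˢ Z).filter fun p => Good W p.1 p.2.1 ∧ p.2.1 ≠ p.2.2).card : ℝ) ≤
        2 * s * (Z.offDiag.card : ℝ) := by
    intro q hq c Z hZ
    have hq1 : 1 ≤ q := hQ.trans hq
    have hZX : Z ⊆ X := by
      rw [hZ]
      exact Finset.filter_subset _ _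
    by_cases h1 : Z.card ≤ 1
    · have h2 : ((Z ×ˢ Z ×ˢ Z).filter fun p => Good W p.1 p.2.1 ∧ p.2.1 ≠ p.2.2) = ∅ := by
        rw [Finset.filter_eq_empty_iff]
        rintro ⟨a, b, b'⟩ hp ⟨_, hne⟩
        simp only [Finset.mem_product] at hp
        exact hne (Finset.card_le_one.1 h1 b hp.2.1 b' hp.2.2)
      rw [h2, Finset.card_empty]
      have : (0 : ℝ) ≤ 2 * s * (Z.offDiag.card : ℝ) := by positivity
      simpa using this
    · have hn : Λ' * ee W Z ≤ s * Z.card := by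
        refine no_conf W s M Λ' hno q hq1 c (Z.image fun x => (x.1 / q, x.2 / q)) ?_ Z ?_
          (hX.mono hZX) ((Finset.card_le_card hZX).trans hXs)
        · intro y hy
          obtain ⟨x, hx, rfl⟩ := Finset.mem_image.1 hy
          have hxL := mem_box.1 (hXL (hZX hx))
          rw [mem_box]
          have hq0 : (0 : ℤ) < q := by exact_mod_cast hq1
          have h3 : ((L / q : ℕ) : ℤ) < M := by
            have h4 : L / q ≤ L / Q := Nat.div_le_div_left hq hQ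
            have h5 : L / q < M := by omega
            exact_mod_cast h5
          have h6 : ∀ t : ℤ, t < L → t / q < M := by
            intro t ht
            have h7 : t / (q : ℤ) ≤ (L : ℤ) / q := Int.ediv_le_ediv hq0 ht.le
            rw [Int.natCast_div] at h3
            exact h7.trans_lt h3
          exact ⟨Int.ediv_nonneg hxL.1 hq0.le, h6 _ hxL.2.1, Int.ediv_nonneg hxL.2.2.1 hq0.le,
            h6 _ hxL.2.2.2⟩
        · rw [Finset.image_image]
          have h3 : ∀ x ∈ Z, (aff q c ∘ fun x : Pt => (x.1 / (q : ℤ), x.2 / (q : ℤ))) x = x := by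
            intro x hx
            rw [hZ, Finset.mem_filter] at hx
            have h4 := hx.2
            unfold kap at h4
            show (c.1 + q * (x.1 / q), c.2 + q * (x.2 / q)) = x
            rw [← h4]
            exact Prod.ext (Int.emod_add_mul_ediv x.1 q) (Int.emod_add_mul_ediv x.2 q)
          rw [Finset.image_congr h3]
          exact Finset.image_id.symm
      have h3 : ((Z ×ˢ Z ×ˢ Z).filter fun p => Good W p.1 p.2.1 ∧ p.2.1 ≠ p.2.2).card ≤
          ee W Z * Z.card := by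
        unfold ee
        rw [← Finset.card_product]
        refine Finset.card_le_card_of_injOn (fun p => ((p.1, p.2.1), p.2.2)) ?_ ?_
        · rintro ⟨a, b, b'⟩ hp
          have hp' := Finset.mem_filter.1 (Finset.mem_coe.1 hp)
          simp only [Finset.mem_product] at hp'
          rw [Finset.mem_coe, Finset.mem_product, Finset.mem_filter, Finset.mem_product]
          exact ⟨⟨⟨hp'.1.1, hp'.1.2.1⟩, hp'.2.1⟩, hp'.1.2.2⟩
        · rintro ⟨a, b, b'⟩ _ ⟨a2, b2, b2'⟩ _ h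
          simp only [Prod.mk.injEq] at h
          obtain ⟨⟨h4, h5⟩, h6⟩ := h
          rw [h4, h5, h6]
      have h3' : (((Z ×ˢ Z ×ˢ Z).filter fun p => Good W p.1 p.2.1 ∧ p.2.1 ≠ p.2.2).card : ℝ) ≤
          (ee W Z : ℝ) * Z.card := by exact_mod_cast h3
      have h4 : (Z.offDiag.card : ℝ) = (Z.card : ℝ) ^ 2 - Z.card := by
        rw [Finset.offDiag_card, Nat.cast_sub (Nat.le_mul_self _)]
        push_cast
        ring
      have h5 : (2 : ℝ) ≤ Z.card := by
        have : 2 ≤ Z.card := by omega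
        exact_mod_cast this
      calc Λ' * (((Z ×ˢ Z ×ˢ Z).filter fun p => Good W p.1 p.2.1 ∧ p.2.1 ≠ p.2.2).card : ℝ) ≤
          Λ' * ((ee W Z : ℝ) * Z.card) := mul_le_mul_of_nonneg_left h3' hΛ
        _ = (Λ' * ee W Z) * Z.card := by ring
        _ ≤ (s * Z.card) * Z.card := mul_le_mul_of_nonneg_right hn (by positivity)
        _ = s * (Z.card : ℝ) ^ 2 := by ring
        _ ≤ s * (2 * ((Z.card : ℝ) ^ 2 - Z.card)) := by
            apply mul_le_mul_of_nonneg_left _ (Nat.cast_nonneg s)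
            nlinarith
        _ = 2 * s * (Z.offDiag.card : ℝ) := by rw [h4]; ring
  -- the covering
  set Xq : ℕ → Pt → Finset Pt := fun q c => X.filter fun x => kap q x = c with hXq
  set TT : ℕ → Pt → Finset (Pt × Pt × Pt) := fun q c =>
    (Xq q c ×ˢ Xq q c ×ˢ Xq q c).filter fun p => Good W p.1 p.2.1 ∧ p.2.1 ≠ p.2.2 with hTT
  have hcov : ((X ×ˢ X ×ˢ X).filter fun p => Good W p.1 p.2.1 ∧ Good W p.1 p.2.2 ∧
      p.2.1 ≠ p.2.2 ∧ Q ≤ Nat.gcd (gg p.1 p.2.1) (gg p.1 p.2.2)) ⊆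
      (Finset.Icc Q L).biUnion fun q => (X.image (kap q)).biUnion fun c => TT q c := by
    rintro ⟨a, b, b'⟩ hp
    rw [Finset.mem_filter] at hp
    simp only [Finset.mem_product] at hp
    obtain ⟨⟨ha, hb, hb'⟩, hg1, hg2, hne, hQq⟩ := hp
    set q := Nat.gcd (gg a b) (gg a b') with hq
    have h1 : kap q a = kap q b := (kap_eq_iff q a b).2 (Nat.gcd_dvd_left _ _)
    have h2 : kap q a = kap q b' := (kap_eq_iff q a b').2 (Nat.gcd_dvd_right _ _)
    have h3 : q ∣ gg b b' := (kap_eq_iff q b b').1 (h1.symm.trans h2)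
    have h4 := gg_bound (hXL hb) (hXL hb') hne
    have h5 : q ≤ L := (Nat.le_of_dvd h4.1 h3).trans h4.2
    rw [Finset.mem_biUnion]
    refine ⟨q, Finset.mem_Icc.2 ⟨hQq, h5⟩, ?_⟩
    rw [Finset.mem_biUnion]
    refine ⟨kap q a, Finset.mem_image_of_mem _ ha, ?_⟩
    rw [hTT]
    simp only [Finset.mem_filter, Finset.mem_product, hXq]
    exact ⟨⟨⟨ha, trivial⟩, ⟨hb, h1.symm⟩, hb', h2.symm⟩, hg1, hne⟩
  have hcard := (Finset.card_le_card hcov).trans (Finset.card_biUnion_le.trans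
    (Finset.sum_le_sum fun q _ => Finset.card_biUnion_le))
  -- the pairs
  set E : ℕ → Finset (Pt × Pt) := fun q => X.offDiag.filter fun p => kap q p.1 = kap q p.2 with hE
  have hEq : ∀ q, ∑ c ∈ X.image (kap q), (Xq q c).offDiag.card = (E q).card := by
    intro q
    rw [Finset.card_eq_sum_card_fiberwise (f := fun p : Pt × Pt => kap q p.1)
      (t := X.image (kap q))]
    · refine Finset.sum_congr rfl fun c _ => ?_
      congr 1
      ext ⟨x, y⟩
      simp only [hE, hXq, Finset.mem_filter, Finset.mem_offDiag]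
      constructor
      · rintro ⟨⟨hx, hxc⟩, ⟨hy, hyc⟩, hne⟩
        exact ⟨⟨⟨hx, hy, hne⟩, hxc.trans hyc.symm⟩, hxc⟩
      · rintro ⟨⟨⟨hx, hy, hne⟩, hxy⟩, hxc⟩
        exact ⟨⟨hx, hxc⟩, ⟨hy, hxy.symm.trans hxc⟩, hne⟩
    · intro p hp
      have hp' := Finset.mem_filter.1 (Finset.mem_coe.1 hp)
      exact Finset.mem_coe.2 (Finset.mem_image_of_mem _ (Finset.mem_offDiag.1 hp'.1).1)
  have hEsum : ∑ q ∈ Finset.Icc Q L, (E q).card ≤ τ * X.card ^ 2 := by
    calc ∑ q ∈ Finset.Icc Q L, (E q).card =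
        ∑ p ∈ X.offDiag, ((Finset.Icc Q L).filter fun q => kap q p.1 = kap q p.2).card := by
          simp only [hE, Finset.card_filter]
          rw [Finset.sum_comm]
      _ ≤ ∑ _p ∈ X.offDiag, τ := by
          refine Finset.sum_le_sum fun p hp => ?_
          rw [Finset.mem_offDiag] at hp
          have h4 := gg_bound (hXL hp.1) (hXL hp.2.1) hp.2.2
          refine le_trans (Finset.card_le_card ?_) (hτ (gg p.1 p.2) h4.1 h4.2)
          intro q hq
          rw [Finset.mem_filter] at hq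
          rw [Nat.mem_divisors]
          exact ⟨(kap_eq_iff q _ _).1 hq.2, by omega⟩
      _ = X.offDiag.card * τ := by rw [Finset.sum_const, smul_eq_mul]
      _ ≤ τ * X.card ^ 2 := by
          rw [Finset.offDiag_card, mul_comm, sq]
          exact Nat.mul_le_mul_left _ (Nat.sub_le _ _)
  have hcardR : (((X ×ˢ X ×ˢ X).filter fun p => Good W p.1 p.2.1 ∧ Good W p.1 p.2.2 ∧
      p.2.1 ≠ p.2.2 ∧ Q ≤ Nat.gcd (gg p.1 p.2.1) (gg p.1 p.2.2)).card : ℝ) ≤
      ∑ q ∈ Finset.Icc Q L, ∑ c ∈ X.image (kap q), ((TT q c).card : ℝ) := by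
    exact_mod_cast hcard
  have hEsumR : ∑ q ∈ Finset.Icc Q L, ((E q).card : ℝ) ≤ τ * (X.card : ℝ) ^ 2 := by
    exact_mod_cast hEsum
  calc _ ≤ Λ' * ∑ q ∈ Finset.Icc Q L, ∑ c ∈ X.image (kap q), ((TT q c).card : ℝ) :=
        mul_le_mul_of_nonneg_left hcardR hΛ
    _ = ∑ q ∈ Finset.Icc Q L, ∑ c ∈ X.image (kap q), Λ' * ((TT q c).card : ℝ) := by
        rw [Finset.mul_sum]
        exact Finset.sum_congr rfl fun q _ => Finset.mul_sum _ _ _
    _ ≤ ∑ q ∈ Finset.Icc Q L, ∑ c ∈ X.image (kap q), 2 * s * ((Xq q c).offDiag.card : ℝ) := by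
        refine Finset.sum_le_sum fun q hq => Finset.sum_le_sum fun c _ => ?_
        exact hclass q (Finset.mem_Icc.1 hq).1 c (Xq q c) rfl
    _ = 2 * s * ∑ q ∈ Finset.Icc Q L, ((E q).card : ℝ) := by
        rw [Finset.mul_sum]
        refine Finset.sum_congr rfl fun q _ => ?_
        rw [← Finset.mul_sum]
        congr 1
        exact_mod_cast hEq q
    _ ≤ 2 * s * (τ * (X.card : ℝ) ^ 2) := mul_le_mul_of_nonneg_left hEsumR (by positivity)
    _ = _ := by ring

end Pool.Agent.NTL
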