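import Mathlib

/-!
Module Tuples (M-L). Pure combinatorics. PROOF. N = X.card; if N = 0 take... (X is nonempty by hypothesis).
deg a = #{b in X : R a b}. The set 𝒯 of all (a, b) with a in X, b : Fin r -> X, R a (b i) for all i has
cardinality sum_a (deg a)^r >= N * (δ N)^r (power mean: sum_a deg a >= δ N^2; `inner_le_nnorm_mul_nnorm` is not needed,
use `inv_mul_le_iff`-free form `Real.pow_arith_mean_le_arith_mean_pow` or `Finset.inner...`:
(sum deg)^r <= N^(r-1) * sum deg^r, Mathlib: `inner`-free lemma `Finset.pow_sum_div_card_le_sum_pow` /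
`pow_sum_div_card_le_sum_pow`). A tuple is bad if for some i <> j: b i = b j or B a (b i) (b j). For fixed i <> j the
number of bad tuples is at most T * N^(r-2), T = the number of triples in `h2` (forget the other r - 2 coordinates;
R a (b i) and R a (b j) hold). There are at most r^2 pairs (i,j), so the number of bad tuples is
<= r^2 T N^(r-2) <= (1/2) δ^r N^3 N^(r-2) = (1/2) δ^r N^(r+1). So the good tuples number >= (1/2) δ^r N^(r+1), and some
b : Fin r -> X (of the N^r possible ones) has at least (1/2) δ^r N points a with (a, b) good: A = the set of these a.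
(r >= 2. It may be convenient to use `Fintype.piFinset fun _ : Fin r => X` as the set of all b, its cardinality is
N^r; the set of b with b i = u, b j = v has N^(r-2) elements: bound it by an injection into functions on the
complement of {i, j}, or induct.)
-/

set_option autoImplicit false
open Classical

namespace Pool.Agent.NTL

private theorem card_two {α : Type} (X : Finset α) (r : ℕ) (i j : Fin r) (hij : i ≠ j)
    (S : Finset (α × α)) :
    ((Fintype.piFinset fun _ : Fin r => X).filter fun b => (b i, b j) ∈ S).card ≤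
      S.card * X.card ^ (r - 2) := by
  have h1 : ∀ p ∈ S, (((Fintype.piFinset fun _ : Fin r => X).filter
      fun b => (b i, b j) ∈ S).filter fun b => (b i, b j) = p).card ≤ X.card ^ (r - 2) := by
    rintro ⟨u, v⟩ _
    calc _ ≤ (Fintype.piFinset fun k : Fin r =>
          if k = i then {u} else if k = j then {v} else X).card := by
          apply Finset.card_le_card
          intro b hb
          rw [Finset.mem_filter, Finset.mem_filter, Fintype.mem_piFinset] at hb
          obtain ⟨⟨hb1, _⟩, hb2⟩ := hb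
          rw [Prod.mk.injEq] at hb2
          rw [Fintype.mem_piFinset]
          intro k
          split_ifs with h1 h2
          · rw [h1, hb2.1]
            exact Finset.mem_singleton_self _
          · rw [h2, hb2.2]
            exact Finset.mem_singleton_self _
          · exact hb1 k
      _ = X.card ^ (r - 2) := by
          rw [Fintype.card_piFinset]
          have h2 : ∀ k : Fin r, (if k = i then {u} else if k = j then {v} else X : Finset α).card =
              if k ∈ ({i, j} : Finset (Fin r)) then 1 else X.card := by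
            intro k
            by_cases hk : k = i
            · simp [hk]
            · by_cases hk2 : k = j
              · subst hk2
                rw [if_neg hk]
                simp
              · simp [hk, hk2]
          rw [Finset.prod_congr rfl fun k _ => h2 k, Finset.prod_ite, Finset.prod_const_one,
            one_mul, Finset.prod_const]
          congr 1
          have h3 : (Finset.univ.filter fun k : Fin r => k ∉ ({i, j} : Finset (Fin r))) =
              ({i, j} : Finset (Fin r))ᶜ := by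
            ext k
            simp
          rw [h3, Finset.card_compl, Fintype.card_fin, Finset.card_pair hij]
  calc _ = ∑ p ∈ S, (((Fintype.piFinset fun _ : Fin r => X).filter
      fun b => (b i, b j) ∈ S).filter fun b => (b i, b j) = p).card :=
        Finset.card_eq_sum_card_fiberwise (f := fun b : Fin r → α => (b i, b j)) (t := S)
          (fun b hb => by
            have hb' := Finset.mem_filter.1 (Finset.mem_coe.1 hb)
            exact hb'.2)
    _ ≤ ∑ _p ∈ S, X.card ^ (r - 2) := Finset.sum_le_sum h1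
    _ = _ := by rw [Finset.sum_const, smul_eq_mul]

theorem tuples {α : Type} (X : Finset α) (hX : X.Nonempty) (R : α → α → Prop)
    (B : α → α → α → Prop) (r : ℕ) (hr : 2 ≤ r) (δ : ℝ) (hδ : 0 < δ)
    (h1 : δ * (X.card : ℝ) ^ 2 ≤ ((X ×ˢ X).filter fun p => R p.1 p.2).card)
    (h2 : (r : ℝ) ^ 2 * ((X ×ˢ X ×ˢ X).filter fun p => R p.1 p.2.1 ∧ R p.1 p.2.2 ∧
      (p.2.1 = p.2.2 ∨ B p.1 p.2.1 p.2.2)).card ≤ 1 / 2 * δ ^ r * (X.card : ℝ) ^ 3) :
    ∃ b : Fin r → α, (∀ i, b i ∈ X) ∧ ∃ A ⊆ X, 1 / 2 * δ ^ r * X.card ≤ (A.card : ℝ) ∧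
      ∀ a ∈ A, (∀ i, R a (b i)) ∧ ∀ i j, i ≠ j → b i ≠ b j ∧ ¬ B a (b i) (b j) := by
  set N := X.card with hN
  have hN0 : 0 < N := Finset.card_pos.2 hX
  have hNr : (0 : ℝ) < N := by exact_mod_cast hN0
  set P : Finset (Fin r → α) := Fintype.piFinset fun _ : Fin r => X with hP
  have hPcard : P.card = N ^ r := by
    rw [hP, Fintype.card_piFinset, Finset.prod_const, Finset.card_univ, Fintype.card_fin]
  set G : α → (Fin r → α) → Prop := fun a b =>
    (∀ i, R a (b i)) ∧ ∀ i j, i ≠ j → b i ≠ b j ∧ ¬ B a (b i) (b j) with hG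
  set dg : α → ℕ := fun a => (X.filter (R a)).card with hdg
  set S : α → Finset (α × α) := fun a => (X ×ˢ X).filter fun p =>
    R a p.1 ∧ R a p.2 ∧ (p.1 = p.2 ∨ B a p.1 p.2) with hS
  set D : Finset (Fin r × Fin r) := Finset.univ.filter fun p => p.1 ≠ p.2 with hD
  have hDcard : D.card ≤ r ^ 2 := by
    refine (Finset.card_filter_le _ _).trans ?_
    rw [Finset.card_univ, Fintype.card_prod, Fintype.card_fin, sq]
  -- pointwise inequality
  have hpt : ∀ a, dg a ^ r ≤ (P.filter (G a)).card + r ^ 2 * ((S a).card * N ^ (r - 2)) := by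
    intro a
    have h3 : (Fintype.piFinset fun _ : Fin r => X.filter (R a)) ⊆
        P.filter (G a) ∪ D.biUnion fun p => P.filter fun b => (b p.1, b p.2) ∈ S a := by
      intro b hb
      rw [Fintype.mem_piFinset] at hb
      have hbX : ∀ i, b i ∈ X := fun i => (Finset.mem_filter.1 (hb i)).1
      have hbR : ∀ i, R a (b i) := fun i => (Finset.mem_filter.1 (hb i)).2
      have hbP : b ∈ P := by
        rw [hP, Fintype.mem_piFinset]
        exact hbX
      rw [Finset.mem_union]
      by_cases hg : G a b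
      · exact Or.inl (Finset.mem_filter.2 ⟨hbP, hg⟩)
      · right
        have hg' : ∃ i j, i ≠ j ∧ (b i = b j ∨ B a (b i) (b j)) := by
          by_contra hcon
          push Not at hcon
          exact hg ⟨hbR, fun i j hij => ⟨(hcon i j hij).1, (hcon i j hij).2⟩⟩
        obtain ⟨i, j, hij, hbad⟩ := hg'
        rw [Finset.mem_biUnion]
        refine ⟨(i, j), ?_, ?_⟩
        · rw [hD, Finset.mem_filter]
          exact ⟨Finset.mem_univ _, hij⟩
        · rw [Finset.mem_filter]
          refine ⟨hbP, ?_⟩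
          show (b i, b j) ∈ S a
          rw [hS]
          simp only [Finset.mem_filter, Finset.mem_product]
          exact ⟨⟨hbX i, hbX j⟩, hbR i, hbR j, hbad⟩
    have h4 : (Fintype.piFinset fun _ : Fin r => X.filter (R a)).card = dg a ^ r := by
      rw [Fintype.card_piFinset, Finset.prod_const, Finset.card_univ, Fintype.card_fin]
    rw [← h4]
    refine (Finset.card_le_card h3).trans ((Finset.card_union_le _ _).trans ?_)
    refine Nat.add_le_add_left ?_ _
    refine Finset.card_biUnion_le.trans ?_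
    calc _ ≤ ∑ _p ∈ D, (S a).card * N ^ (r - 2) := by
          refine Finset.sum_le_sum fun p hp => ?_
          rw [hD, Finset.mem_filter] at hp
          exact card_two X r p.1 p.2 hp.2 (S a)
      _ = D.card * ((S a).card * N ^ (r - 2)) := by rw [Finset.sum_const, smul_eq_mul]
      _ ≤ _ := Nat.mul_le_mul_right _ hDcard
  have hT : ((X ×ˢ X ×ˢ X).filter fun p => R p.1 p.2.1 ∧ R p.1 p.2.2 ∧
      (p.2.1 = p.2.2 ∨ B p.1 p.2.1 p.2.2)).card = ∑ a ∈ X, (S a).card := by
    rw [Finset.card_filter, Finset.sum_product]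
    refine Finset.sum_congr rfl fun a _ => ?_
    rw [hS]
    simp only
    rw [Finset.card_filter]
  have hE : ((X ×ˢ X).filter fun p => R p.1 p.2).card = ∑ a ∈ X, dg a := by
    rw [Finset.card_filter, Finset.sum_product]
    refine Finset.sum_congr rfl fun a _ => ?_
    rw [hdg]
    simp only
    rw [Finset.card_filter]
  have hdc : ∑ a ∈ X, (P.filter (G a)).card = ∑ b ∈ P, (X.filter fun a => G a b).card := by
    simp only [Finset.card_filter]
    rw [Finset.sum_comm]
  -- power mean
  obtain ⟨k, rfl⟩ : ∃ k, r = k + 2 := ⟨r - 2, by omega⟩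
  have hpm := Real.pow_arith_mean_le_arith_mean_pow X (fun _ => (1 : ℝ) / N)
    (fun a => (dg a : ℝ)) (fun _ _ => by positivity)
    (by rw [Finset.sum_const, nsmul_eq_mul, ← hN]; field_simp) (fun _ _ => by positivity) (k + 2)
  rw [← Finset.mul_sum, ← Finset.mul_sum] at hpm
  rw [hE] at h1
  push_cast at h1
  have h5 : δ * N ≤ 1 / N * ∑ a ∈ X, (dg a : ℝ) := by
    rw [one_div, ← div_eq_inv_mul, le_div_iff₀ hNr]
    calc δ * N * N = δ * (N : ℝ) ^ 2 := by ring
      _ ≤ _ := h1
  have h6 : (δ * N) ^ (k + 2) ≤ 1 / N * ∑ a ∈ X, (dg a : ℝ) ^ (k + 2) :=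
    (pow_le_pow_left₀ (by positivity) h5 _).trans hpm
  have h7 : δ ^ (k + 2) * (N : ℝ) ^ (k + 3) ≤ ∑ a ∈ X, (dg a : ℝ) ^ (k + 2) := by
    rw [one_div, ← div_eq_inv_mul, le_div_iff₀ hNr] at h6
    calc δ ^ (k + 2) * (N : ℝ) ^ (k + 3) = (δ * N) ^ (k + 2) * N := by ring
      _ ≤ _ := h6
  have h8 : ∑ a ∈ X, (dg a : ℝ) ^ (k + 2) ≤ ∑ a ∈ X, ((P.filter (G a)).card : ℝ) +
      ((k + 2 : ℕ) : ℝ) ^ 2 * ((∑ a ∈ X, ((S a).card : ℝ)) * (N : ℝ) ^ k) := by
    rw [Finset.sum_mul, Finset.mul_sum, ← Finset.sum_add_distrib]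
    refine Finset.sum_le_sum fun a _ => ?_
    have := hpt a
    rw [show k + 2 - 2 = k by omega] at this
    exact_mod_cast this
  have h9 : ∑ a ∈ X, ((P.filter (G a)).card : ℝ) =
      ∑ b ∈ P, ((X.filter fun a => G a b).card : ℝ) := by exact_mod_cast hdc
  rw [hT] at h2
  push_cast at h2 h8
  have h10 : (((k : ℝ) + 2) ^ 2 * ∑ a ∈ X, ((S a).card : ℝ)) * (N : ℝ) ^ k ≤
      (1 / 2 * δ ^ (k + 2) * (N : ℝ) ^ 3) * (N : ℝ) ^ k :=
    mul_le_mul_of_nonneg_right h2 (by positivity)
  have h11 : ∑ _b ∈ P, (1 / 2 * δ ^ (k + 2) * (N : ℝ)) ≤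
      ∑ b ∈ P, ((X.filter fun a => G a b).card : ℝ) := by
    rw [Finset.sum_const, nsmul_eq_mul, hPcard, ← h9]
    push_cast
    have e1 : (N : ℝ) ^ (k + 2) * (1 / 2 * δ ^ (k + 2) * N) =
        δ ^ (k + 2) * (N : ℝ) ^ (k + 3) - (1 / 2 * δ ^ (k + 2) * (N : ℝ) ^ 3) * (N : ℝ) ^ k := by
      ring
    rw [e1]
    have e2 : ((k : ℝ) + 2) ^ 2 * ((∑ a ∈ X, ((S a).card : ℝ)) * (N : ℝ) ^ k) =
        (((k : ℝ) + 2) ^ 2 * ∑ a ∈ X, ((S a).card : ℝ)) * (N : ℝ) ^ k := by ring
    rw [e2] at h8
    linarith
  have hPne : P.Nonempty := by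
    rw [← Finset.card_pos, hPcard]
    positivity
  obtain ⟨b, hbP, hb⟩ := Finset.exists_le_of_sum_le hPne h11
  rw [hP, Fintype.mem_piFinset] at hbP
  refine ⟨b, hbP, X.filter fun a => G a b, Finset.filter_subset _ _, hb, ?_⟩
  intro a ha
  exact (Finset.mem_filter.1 ha).2

end Pool.Agent.NTL
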