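import Pool.Agent.Work.MP_96a720_co.L.Defs

set_option autoImplicit false
open Classical

namespace Pool.Agent.NTL

private lemma gcd_prod_le {ι : Type*} (T : Finset ι) (g : ι → ℕ) (w Q : ℕ) (hw : 0 < w)
    (hQ : ∀ i ∈ T, Nat.gcd (g i) w ≤ Q) : Nat.gcd (T.lcm g) w ≤ Q ^ T.card := by
  have h1 : Nat.gcd (T.lcm g) w ∣ ∏ i ∈ T, Nat.gcd (g i) w := by
    clear hQ
    induction T using Finset.induction_on with
    | empty => simp
    | @insert a T ha ih =>
      rw [Finset.lcm_insert, Finset.prod_insert ha]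
      refine dvd_trans ?_ (mul_dvd_mul_left _ ih)
      have h2 : Nat.gcd (Nat.lcm (g a) (T.lcm g)) w ∣ Nat.gcd (g a * T.lcm g) w :=
        Nat.gcd_dvd_gcd_of_dvd_left _ (Nat.lcm_dvd_mul _ _)
      exact h2.trans (Nat.gcd_mul_left_dvd_mul_gcd _ _ _)
  have h3 : 0 < ∏ i ∈ T, Nat.gcd (g i) w :=
    Finset.prod_pos fun i _ => Nat.gcd_pos_of_pos_right _ hw
  refine (Nat.le_of_dvd h3 h1).trans ?_
  exact (Finset.prod_le_prod' hQ).trans (by simp)

private lemma prod_le_lcm {ι : Type*} (T : Finset ι) (g : ι → ℕ) (Q : ℕ) (_hQ1 : 0 < Q)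
    (hp : ∀ i, 0 < g i)
    (hQ : ∀ i j, i ≠ j → Nat.gcd (g i) (g j) ≤ Q) :
    ∏ i ∈ T, g i ≤ T.lcm g * Q ^ (T.card * (T.card - 1) / 2) := by
  induction T using Finset.induction_on with
  | empty => simp
  | @insert a T ha ih =>
    rw [Finset.prod_insert ha, Finset.lcm_insert, Finset.card_insert_of_notMem ha]
    have h1 : Nat.gcd (T.lcm g) (g a) ≤ Q ^ T.card :=
      gcd_prod_le T g (g a) Q (hp a) fun i hi => hQ i a (fun h => ha (h ▸ hi))
    have h2 : Nat.gcd (g a) (T.lcm g) * Nat.lcm (g a) (T.lcm g) = g a * T.lcm g :=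
      Nat.gcd_mul_lcm _ _
    have h3 : (T.card + 1) * (T.card + 1 - 1) / 2 = T.card + T.card * (T.card - 1) / 2 := by
      rcases Nat.eq_zero_or_pos T.card with h | h
      · simp [h]
      · obtain ⟨k, hk⟩ : ∃ k, T.card = k + 1 := ⟨T.card - 1, by omega⟩
        rw [hk]
        simp only [Nat.add_sub_cancel]
        have : (k + 1 + 1) * (k + 1) = (k + 1) * k + 2 * (k + 1) := by ring
        rw [this, Nat.add_mul_div_left _ _ (by norm_num)]
        ring
    rw [h3, pow_add]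
    calc g a * ∏ i ∈ T, g i ≤ g a * (T.lcm g * Q ^ (T.card * (T.card - 1) / 2)) :=
          Nat.mul_le_mul_left _ ih
      _ = (Nat.gcd (g a) (T.lcm g) * Nat.lcm (g a) (T.lcm g)) * Q ^ (T.card * (T.card - 1) / 2) := by
          rw [h2]; ring
      _ ≤ (Q ^ T.card * Nat.lcm (g a) (T.lcm g)) * Q ^ (T.card * (T.card - 1) / 2) := by
          refine Nat.mul_le_mul_right _ (Nat.mul_le_mul_right _ ?_)
          rw [Nat.gcd_comm]; exact h1
      _ = Nat.lcm (g a) (T.lcm g) * (Q ^ T.card * Q ^ (T.card * (T.card - 1) / 2)) := by ring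

theorem prod_le (r : ℕ) (g : Fin r → ℕ) (N Q : ℕ) (hN : 0 < N) (hg : ∀ i, g i ∣ N)
    (hQ : ∀ i j, i ≠ j → Nat.gcd (g i) (g j) ≤ Q) : ∏ i, g i ≤ N * Q ^ (r * (r - 1) / 2) := by
  have hp : ∀ i, 0 < g i := fun i => Nat.pos_of_dvd_of_pos (hg i) hN
  rcases Nat.lt_or_ge r 2 with hr | hr
  · have h0 : r * (r - 1) / 2 = 0 := by
      interval_cases r <;> simp
    rw [h0, pow_zero, mul_one]
    interval_cases r
    · simpa using Nat.succ_le_of_lt hN
    · simpa using Nat.le_of_dvd hN (hg 0)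
  · have hQ1 : 0 < Q := by
      have h := hQ ⟨0, by omega⟩ ⟨1, by omega⟩ (by simp)
      exact lt_of_lt_of_le (Nat.gcd_pos_of_pos_left _ (hp _)) h
    have h1 := prod_le_lcm Finset.univ g Q hQ1 hp hQ
    rw [Finset.card_univ, Fintype.card_fin] at h1
    refine h1.trans (Nat.mul_le_mul_right _ ?_)
    exact Nat.le_of_dvd hN (Finset.lcm_dvd fun i _ => hg i)

theorem gg_dvd (F : MvPolynomial (Fin 2) ℤ) (a b : Pt) : (gg a b : ℤ) ∣ ev a F - ev b F := by
  have h1 : (gg a b : ℤ) ∣ a.1 - b.1 := Int.gcd_dvd_left _ _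
  have h2 : (gg a b : ℤ) ∣ a.2 - b.2 := Int.gcd_dvd_right _ _
  set g : ℤ := (gg a b : ℤ) with hgdef
  have key : ∀ i : Fin 2, (![a.1, a.2] : Fin 2 → ℤ) i ≡ (![b.1, b.2] : Fin 2 → ℤ) i [ZMOD g] := by
    intro i
    fin_cases i
    · exact (Int.modEq_iff_dvd.2 (by simpa using (dvd_neg.2 h1 : g ∣ -(a.1 - b.1)))) 
    · exact (Int.modEq_iff_dvd.2 (by simpa using (dvd_neg.2 h2 : g ∣ -(a.2 - b.2))))
  have h3 : ev a F ≡ ev b F [ZMOD g] := by
    unfold ev
    induction F using MvPolynomial.induction_on with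
    | C r => simp [Int.ModEq.refl]
    | add p q hp hq => simpa using Int.ModEq.add hp hq
    | mul_X p i hp =>
      simp only [map_mul, MvPolynomial.eval_X]
      exact Int.ModEq.mul hp (key i)
  have h4 := Int.modEq_iff_dvd.1 h3
  rw [← neg_sub]
  exact (dvd_neg.2 h4)

theorem vanish (F : MvPolynomial (Fin 2) ℤ) (b : Fin 22 → Pt) (hb : ∀ i, ev (b i) F = 0)
    (a : Pt) (G Q V : ℕ) (hV : (ev a F).natAbs ≤ V) (hG : ∀ i, G ≤ gg a (b i))
    (hQ : ∀ i j, i ≠ j → Nat.gcd (gg a (b i)) (gg a (b j)) ≤ Q) (h : V * Q ^ 231 < G ^ 22) :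
    ev a F = 0 := by
  by_contra hne
  have hpos : 0 < (ev a F).natAbs := Int.natAbs_pos.2 hne
  have hd : ∀ i, gg a (b i) ∣ (ev a F).natAbs := by
    intro i
    have := gg_dvd F a (b i)
    rw [hb i, sub_zero] at this
    exact Int.natCast_dvd.1 this
  have h1 := prod_le 22 (fun i => gg a (b i)) _ Q hpos hd hQ
  have h2 : G ^ 22 ≤ ∏ i : Fin 22, gg a (b i) := by
    calc G ^ 22 = ∏ _i : Fin 22, G := by simp
      _ ≤ _ := Finset.prod_le_prod' fun i _ => hG i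
  have h3 : (ev a F).natAbs * Q ^ 231 ≤ V * Q ^ 231 := Nat.mul_le_mul_right _ hV
  have h4 : (22 * (22 - 1) / 2) = 231 := by norm_num
  rw [h4] at h1
  omega

end Pool.Agent.NTL
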