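import Pool.Agent.Work.MP_96a720_co.L.Close
import Pool.Agent.Work.MP_96a720_co.L.Triples
import Pool.Agent.Work.MP_96a720_co.L.Tuples
import Pool.Agent.Work.MP_96a720_co.L.Siegel
import Pool.Agent.Work.MP_96a720_co.L.Vanish

/-!
Module Core (M). PROOF. Put R a b := Good W a b and H < nn a b; B a b b' := Q <= gcd (gg a b) (gg a b').
N = X.card > 0, s * N <= Λ * ee <= Λ N^2, so s <= Λ N and s > 0 (N <= s). By `close`:
#{R} >= ee W X - 4 s N/Λ' >= s N/Λ - s N/(4 Λ) = (3/4) s N/Λ >= δ N^2 with δ = 3/(4 Λ) (N <= s).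
By `triples`: T = #{(a,b,b') : R a b, R a b', b = b' or B} <= N^2 + 2 s τ N^2/Λ'. With N >= s/Λ, (4/3)^22 <= 561,
484 * 2 * 561 <= 10^6: 484 * T <= (1/2) δ^22 N^3 follows from `hpar`. `tuples` with r = 22 gives b and A with
|A| >= (1/2) δ^22 N >= (1/2) (3/4)^22 Λ^(-22) s/Λ >= s/(1200 Λ^23). `siegel` gives F for b. For a in A: a in X in box L,
nn a (b i) > H >= G W and nn <= W gg, so G <= gg a (b i) (W > 0 because nn > 0); the gcds are < Q by not B; `vanish`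
with V = 2070 L^10 (sqrt L + 1). (L >= 1 because X is nonempty.)
-/

set_option autoImplicit false
open Classical

namespace Pool.Agent.NTL

theorem core (W s L M H Q G τ : ℕ) (Λ Λ' : ℝ) (X : Finset Pt) (hXL : X ⊆ box L)
    (hX : NoThree X) (hXn : X.Nonempty) (hXs : X.card ≤ s)
    (he : (s : ℝ) * X.card ≤ Λ * ee W X) (hno : ¬ Conf W s M Λ')
    (hH : 1 ≤ H) (hHM : 2 * H ≤ M) (hQ : 1 ≤ Q) (hQM : L / Q + 1 ≤ M) (hG : G * W ≤ H)
    (hGL : 2070 * L ^ 10 * (Nat.sqrt L + 1) * Q ^ 231 < G ^ 22)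
    (hτ : ∀ k : ℕ, 1 ≤ k → k ≤ L → k.divisors.card ≤ τ) (hΛ : 1 ≤ Λ) (hΛΛ : 16 * Λ ≤ Λ')
    (hpar : 10 ^ 6 * Λ ^ 23 * (1 / (s : ℝ) + 2 * τ / Λ') ≤ 1) :
    ∃ A ⊆ X, (s : ℝ) ≤ 1200 * Λ ^ 23 * A.card ∧
      ∃ F : MvPolynomial (Fin 2) ℤ, F ≠ 0 ∧ F.totalDegree ≤ 8 ∧ ∀ a ∈ A, ev a F = 0 := by
  have hN0 : 0 < X.card := hXn.card_pos
  have hN : (0 : ℝ) < X.card := by exact_mod_cast hN0
  have hs : (0 : ℝ) < s := lt_of_lt_of_le hN (by exact_mod_cast hXs)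
  have hNs : (X.card : ℝ) ≤ s := by exact_mod_cast hXs
  have hΛ0 : 0 < Λ := by linarith
  have hΛ'0 : 0 < Λ' := by linarith
  have hee : (ee W X : ℝ) ≤ (X.card : ℝ) ^ 2 := by
    have : ee W X ≤ (X ×ˢ X).card := Finset.card_filter_le _ _
    rw [Finset.card_product] at this
    rw [sq]
    exact_mod_cast this
  have hsN : (s : ℝ) ≤ Λ * X.card := by
    have h1 : (s : ℝ) * X.card ≤ (Λ * X.card) * X.card := by
      calc (s : ℝ) * X.card ≤ Λ * ee W X := he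
        _ ≤ Λ * (X.card : ℝ) ^ 2 := mul_le_mul_of_nonneg_left hee hΛ0.le
        _ = (Λ * X.card) * X.card := by ring
    exact le_of_mul_le_mul_right h1 hN
  -- the far good pairs
  obtain ⟨R, hR⟩ : ∃ R : Pt → Pt → Prop, ∀ a b, R a b ↔ (Good W a b ∧ H < nn a b) :=
    ⟨fun a b => Good W a b ∧ H < nn a b, fun _ _ => Iff.rfl⟩
  obtain ⟨B, hB⟩ : ∃ B : Pt → Pt → Pt → Prop, ∀ a b b', B a b b' ↔
      Q ≤ Nat.gcd (gg a b) (gg a b') :=
    ⟨fun a b b' => Q ≤ Nat.gcd (gg a b) (gg a b'), fun _ _ _ => Iff.rfl⟩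
  have hcl := close W s H M Λ' X hX hXs hH hHM hΛ'0.le hno
  have hsplit : (ee W X : ℝ) ≤ ((X ×ˢ X).filter fun p => R p.1 p.2).card +
      ((X ×ˢ X).filter fun p => Good W p.1 p.2 ∧ nn p.1 p.2 ≤ H).card := by
    have h1 : ((X ×ˢ X).filter fun p => Good W p.1 p.2) ⊆
        ((X ×ˢ X).filter fun p => R p.1 p.2) ∪
          ((X ×ˢ X).filter fun p => Good W p.1 p.2 ∧ nn p.1 p.2 ≤ H) := by
      intro p hp
      rw [Finset.mem_filter] at hp
      rw [Finset.mem_union, Finset.mem_filter, Finset.mem_filter]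
      rcases lt_or_ge H (nn p.1 p.2) with h | h
      · exact Or.inl ⟨hp.1, (hR _ _).2 ⟨hp.2, h⟩⟩
      · exact Or.inr ⟨hp.1, hp.2, h⟩
    have h2 := (Finset.card_le_card h1).trans (Finset.card_union_le _ _)
    unfold ee
    exact_mod_cast h2
  set r : ℝ := (((X ×ˢ X).filter fun p => R p.1 p.2).card : ℝ) with hr
  set cl : ℝ := (((X ×ˢ X).filter fun p => Good W p.1 p.2 ∧ nn p.1 p.2 ≤ H).card : ℝ) with hcldef
  have h1 : 3 / (4 * Λ) * (X.card : ℝ) ^ 2 ≤ r := by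
    have hclb : 4 * Λ * cl ≤ s * X.card := by
      have ha : 16 * Λ * cl ≤ Λ' * cl :=
        mul_le_mul_of_nonneg_right hΛΛ (Nat.cast_nonneg _)
      nlinarith
    have hb : 4 * (s * (X.card : ℝ)) ≤ 4 * Λ * r + s * X.card := by
      have : Λ * (ee W X : ℝ) ≤ Λ * (r + cl) := mul_le_mul_of_nonneg_left hsplit hΛ0.le
      nlinarith
    have hc : (X.card : ℝ) ^ 2 ≤ s * X.card := by nlinarith
    rw [div_mul_eq_mul_div, div_le_iff₀ (by positivity)]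
    nlinarith
  -- the bad triples
  have htr := triples W s L M Q τ Λ' X hXL hX hXs hQ hQM hΛ'0.le hτ hno
  set T1 : ℝ := (((X ×ˢ X ×ˢ X).filter fun p => Good W p.1 p.2.1 ∧ Good W p.1 p.2.2 ∧
      p.2.1 ≠ p.2.2 ∧ Q ≤ Nat.gcd (gg p.1 p.2.1) (gg p.1 p.2.2)).card : ℝ) with hT1
  have hT : (((X ×ˢ X ×ˢ X).filter fun p => R p.1 p.2.1 ∧ R p.1 p.2.2 ∧
      (p.2.1 = p.2.2 ∨ B p.1 p.2.1 p.2.2)).card : ℝ) ≤ (X.card : ℝ) ^ 2 + T1 := by
    have h1 : ((X ×ˢ X ×ˢ X).filter fun p => R p.1 p.2.1 ∧ R p.1 p.2.2 ∧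
        (p.2.1 = p.2.2 ∨ B p.1 p.2.1 p.2.2)) ⊆
        ((X ×ˢ X).image fun q : Pt × Pt => (q.1, q.2, q.2)) ∪
        ((X ×ˢ X ×ˢ X).filter fun p => Good W p.1 p.2.1 ∧ Good W p.1 p.2.2 ∧
          p.2.1 ≠ p.2.2 ∧ Q ≤ Nat.gcd (gg p.1 p.2.1) (gg p.1 p.2.2)) := by
      rintro ⟨a, b, b'⟩ hp
      rw [Finset.mem_filter, Finset.mem_product, Finset.mem_product] at hp
      obtain ⟨⟨ha, hb, hb'⟩, hr1, hr2, hor⟩ := hp
      rw [Finset.mem_union]
      by_cases hbb : b = b'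
      · left
        subst hbb
        exact Finset.mem_image.2 ⟨(a, b), Finset.mem_product.2 ⟨ha, hb⟩, rfl⟩
      · right
        rw [Finset.mem_filter, Finset.mem_product, Finset.mem_product]
        exact ⟨⟨ha, hb, hb'⟩, ((hR _ _).1 hr1).1, ((hR _ _).1 hr2).1, hbb,
          (hB _ _ _).1 (hor.resolve_left hbb)⟩
    have h2 := (Finset.card_le_card h1).trans (Finset.card_union_le _ _)
    have h3 : ((X ×ˢ X).image fun q : Pt × Pt => (q.1, q.2, q.2)).card ≤ X.card * X.card := by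
      refine Finset.card_image_le.trans ?_
      rw [Finset.card_product]
    have h4 := h2.trans (Nat.add_le_add_right h3 _)
    rw [sq, hT1]
    exact_mod_cast h4
  set T2 : ℝ := (((X ×ˢ X ×ˢ X).filter fun p => R p.1 p.2.1 ∧ R p.1 p.2.2 ∧
      (p.2.1 = p.2.2 ∨ B p.1 p.2.1 p.2.2)).card : ℝ) with hT2
  have hT1b : T1 ≤ 2 * s * τ * (X.card : ℝ) ^ 2 / Λ' := by
    rw [le_div_iff₀ hΛ'0, mul_comm]
    exact htr
  have hΛ23 : 0 < Λ ^ 23 := by positivity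
  have hδN : (s : ℝ) / (1122 * Λ ^ 23) ≤ 1 / 2 * (3 / (4 * Λ)) ^ 22 * X.card := by
    have h1 : (1 : ℝ) / 2 * (3 / (4 * Λ)) ^ 22 * X.card =
        (3 ^ 22 / (2 * 4 ^ 22)) * (Λ * X.card) / Λ ^ 23 := by
      field_simp
    rw [h1, div_le_div_iff₀ (by positivity) (by positivity)]
    have h2 : (s : ℝ) * Λ ^ 23 ≤ (Λ * X.card) * Λ ^ 23 :=
      mul_le_mul_of_nonneg_right hsN hΛ23.le
    have h3 : (0 : ℝ) < (Λ * X.card) * Λ ^ 23 := by positivity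
    nlinarith
  have h2 : ((22 : ℕ) : ℝ) ^ 2 * T2 ≤ 1 / 2 * (3 / (4 * Λ)) ^ 22 * (X.card : ℝ) ^ 3 := by
    have ha : T2 ≤ (X.card : ℝ) ^ 2 * (s * (1 / s + 2 * τ / Λ')) := by
      calc T2 ≤ (X.card : ℝ) ^ 2 + T1 := hT
        _ ≤ (X.card : ℝ) ^ 2 + 2 * s * τ * (X.card : ℝ) ^ 2 / Λ' := by linarith
        _ = (X.card : ℝ) ^ 2 * (s * (1 / s + 2 * τ / Λ')) := by
            field_simp
    have hb : (s : ℝ) * (1 / s + 2 * τ / Λ') ≤ s / (10 ^ 6 * Λ ^ 23) := by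
      rw [le_div_iff₀ (by positivity)]
      nlinarith
    have hc : (484 : ℝ) * (s / (10 ^ 6 * Λ ^ 23)) ≤ s / (1122 * Λ ^ 23) := by
      rw [← mul_div_assoc, div_le_div_iff₀ (by positivity) (by positivity)]
      have : (0 : ℝ) < s * Λ ^ 23 := by positivity
      nlinarith
    have hN2 : (0 : ℝ) < (X.card : ℝ) ^ 2 := by positivity
    calc ((22 : ℕ) : ℝ) ^ 2 * T2 ≤ 484 * ((X.card : ℝ) ^ 2 * (s * (1 / s + 2 * τ / Λ'))) := by
          have h484 : ((22 : ℕ) : ℝ) ^ 2 = 484 := by norm_num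
          rw [h484]
          linarith
      _ ≤ 484 * ((X.card : ℝ) ^ 2 * (s / (10 ^ 6 * Λ ^ 23))) := by
          have := mul_le_mul_of_nonneg_left hb hN2.le
          linarith
      _ = (X.card : ℝ) ^ 2 * (484 * (s / (10 ^ 6 * Λ ^ 23))) := by ring
      _ ≤ (X.card : ℝ) ^ 2 * (1 / 2 * (3 / (4 * Λ)) ^ 22 * X.card) :=
          mul_le_mul_of_nonneg_left (hc.trans hδN) hN2.le
      _ = 1 / 2 * (3 / (4 * Λ)) ^ 22 * (X.card : ℝ) ^ 3 := by ring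
  obtain ⟨b, hbX, A, hAX, hAc, hA⟩ := tuples X hXn R B 22 (by norm_num) (3 / (4 * Λ))
    (by positivity) h1 (by convert h2)
  have hL : 1 ≤ L := by
    obtain ⟨x, hx⟩ := hXn
    have := mem_box.1 (hXL hx)
    have : (0 : ℤ) < (L : ℤ) := by omega
    exact_mod_cast this
  obtain ⟨F, hF, hFd, hFb, hFv⟩ := siegel L hL b (fun i => hXL (hbX i))
  refine ⟨A, hAX, ?_, F, hF, hFd, fun a ha => ?_⟩
  · have h3 := hδN.trans hAc
    rw [div_le_iff₀ (by positivity)] at h3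
    have h4 : (0 : ℝ) ≤ A.card := Nat.cast_nonneg _
    nlinarith [mul_nonneg h4 hΛ23.le]
  · obtain ⟨hAR, hAB⟩ := hA a ha
    refine vanish F b hFb a _ Q _ (hFv a (hXL (hAX ha))) (fun i => ?_) (fun i j hij => ?_) hGL
    · obtain ⟨⟨hne, hgood⟩, hfar⟩ := (hR _ _).1 (hAR i)
      by_contra hlt
      push Not at hlt
      have hW : W * gg a (b i) ≤ W * G := Nat.mul_le_mul_left _ hlt.le
      have : W * G ≤ H := by rwa [mul_comm]
      omega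
    · have := (hAB i j hij).2
      rw [hB, not_le] at this
      exact this.le

end Pool.Agent.NTL
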