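import Pool.Agent.Work.MP_96a720_co.L.Defs

/-!
Module Cover (S-M). PROOFS.

`lineCount`: let dx = b.1 - a.1, dy = b.2 - a.2, g = gg a b = gcd(dx, dy) >= 1, dx = g wx, dy = g wy with
gcd(wx, wy) = 1 (`Int.exists_gcd_one` or `Int.gcd_div_gcd_div_gcd`). `nn a b = g * max |wx| |wy|`. By symmetry of
the two coordinates prove the case |wy| <= |wx| (so wx <> 0, nn = g |wx|), the other case in the same way.
If p is on the line then wx (p.2 - a.2) = wy (p.1 - a.1), hence wx divides p.1 - a.1 (coprime), and p is determined by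
p.1 (cancel wx). So the number of p is at most the number of x in [1, n] with wx | x - a.1, at most n/|wx| + 1
(`Int.Ioc_filter_modEq_card` / `Int.card_Ioc...`, or the map x -> (x - a.1)/wx is injective with values in an interval
of length (n-1)/|wx|), and n/|wx| = n g / nn.

`cover`: let p be in `grid n`, not in S. Since `NoThree S` and not `NoThree (insert p S)` there are three distinct
collinear points of `insert p S`, one of them is p (otherwise contradiction), so (permuting the determinant condition,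
`linear_combination`) there are distinct a, b in S with (b.1-a.1)(p.2-a.2) = (p.1-a.1)(b.2-a.2). So `grid n` is
contained in S union the union over (a,b) in S.offDiag of the filtered sets of `lineCount`; count
(`Finset.card_union_le`, `Finset.card_biUnion_le`), `(grid n).card = n^2`.
-/

set_option autoImplicit false
open Classical

namespace Pool.Agent.NTL

private lemma key (n : ℕ) (T : Finset Pt) (f : Pt → ℤ) (r v : ℤ) (hr : 0 < r)
    (hinj : Set.InjOn f T) (hmem : ∀ p ∈ T, 1 ≤ f p ∧ f p ≤ n ∧ f p ≡ v [ZMOD r]) :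
    (T.card : ℝ) ≤ (n : ℝ) / (r : ℝ) + 1 := by
  have h1 : T.card ≤ ((Finset.Ioc (0:ℤ) n).filter (fun x => x ≡ v [ZMOD r])).card := by
    apply Finset.card_le_card_of_injOn f
    · intro p hp
      obtain ⟨h1, h2, h3⟩ := hmem p hp
      simp only [Finset.coe_filter, Finset.mem_Ioc, Set.mem_ofPred_eq]
      exact ⟨⟨by omega, h2⟩, h3⟩
    · exact hinj
  have h2 := Int.Ioc_filter_modEq_card (0:ℤ) (n:ℤ) hr v
  have hr' : (0:ℚ) < r := by exact_mod_cast hr
  have h3 : (((Finset.Ioc (0:ℤ) n).filter (fun x => x ≡ v [ZMOD r])).card : ℤ) ≤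
      max (⌊((n:ℤ) - v : ℚ) / (r : ℚ)⌋ - ⌊(((0:ℤ):ℚ) - v) / (r : ℚ)⌋) 0 := by
    rw [← h2]
  have h4 : ((⌊((n:ℤ) - v : ℚ) / (r : ℚ)⌋ - ⌊(((0:ℤ):ℚ) - v) / (r : ℚ)⌋ : ℤ) : ℚ) ≤ (n:ℚ) / r + 1 := by
    have e1 := Int.floor_le (((n:ℤ) - v : ℚ) / (r : ℚ))
    have e2 := Int.lt_floor_add_one ((((0:ℤ):ℚ) - v) / (r : ℚ))
    push_cast at e1 e2 ⊢
    have e3 : ((n:ℚ) - v) / r = n / r + (0 - v) / r := by ring
    linarith
  have h5 : ((((Finset.Ioc (0:ℤ) n).filter (fun x => x ≡ v [ZMOD r])).card : ℤ) : ℚ) ≤ (n:ℚ) / r + 1 := by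
    have h6 : ((max (⌊((n:ℤ) - v : ℚ) / (r : ℚ)⌋ - ⌊(((0:ℤ):ℚ) - v) / (r : ℚ)⌋) 0 : ℤ) : ℚ) ≤ (n:ℚ) / r + 1 := by
      rw [Int.cast_max]
      apply max_le h4
      push_cast
      positivity
    have h7 : ((((Finset.Ioc (0:ℤ) n).filter (fun x => x ≡ v [ZMOD r])).card : ℤ) : ℚ) ≤
      ((max (⌊((n:ℤ) - v : ℚ) / (r : ℚ)⌋ - ⌊(((0:ℤ):ℚ) - v) / (r : ℚ)⌋) 0 : ℤ) : ℚ) := by exact_mod_cast h3
    exact h7.trans h6
  have h8 : (T.card : ℚ) ≤ (n:ℚ) / r + 1 := by
    have : (T.card : ℚ) ≤ ((((Finset.Ioc (0:ℤ) n).filter (fun x => x ≡ v [ZMOD r])).card : ℤ) : ℚ) := by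
      push_cast
      exact_mod_cast h1
    exact this.trans h5
  exact_mod_cast h8

theorem lineCount (n : ℕ) (a b : Pt) (hab : a ≠ b) :
    (((grid n).filter fun p => (b.1 - a.1) * (p.2 - a.2) = (p.1 - a.1) * (b.2 - a.2)).card : ℝ) ≤
      (n : ℝ) * gg a b / nn a b + 1 := by
  have hd : (a.1 - b.1) ≠ 0 ∨ (a.2 - b.2) ≠ 0 := by
    by_contra hcon
    push Not at hcon
    apply hab
    ext
    · omega
    · omega
  have hgpos : 0 < gg a b := by
    unfold gg
    rw [Nat.pos_iff_ne_zero]
    intro h0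
    rw [Int.gcd_eq_zero_iff] at h0
    rcases hd with h | h
    · exact h h0.1
    · exact h h0.2
  obtain ⟨wx, wy, hcop, hx, hy⟩ := Int.exists_gcd_one (m := a.1 - b.1) (n := a.2 - b.2) hgpos
  have hcop' : IsCoprime wx wy := Int.isCoprime_iff_gcd_eq_one.2 hcop
  change _ = wx * ((gg a b : ℕ) : ℤ) at hx
  change _ = wy * ((gg a b : ℕ) : ℤ) at hy
  have hg0 : ((gg a b : ℕ) : ℤ) ≠ 0 := by exact_mod_cast hgpos.ne'
  have hnn : nn a b = max wx.natAbs wy.natAbs * gg a b := by
    unfold nn
    rw [hx, hy, Int.natAbs_mul, Int.natAbs_mul, Int.natAbs_natCast]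
    rcases le_total wx.natAbs wy.natAbs with h | h
    · rw [max_eq_right h, max_eq_right (Nat.mul_le_mul_right _ h)]
    · rw [max_eq_left h, max_eq_left (Nat.mul_le_mul_right _ h)]
  have hline : ∀ p : Pt, (b.1 - a.1) * (p.2 - a.2) = (p.1 - a.1) * (b.2 - a.2) →
      wx * (p.2 - a.2) = (p.1 - a.1) * wy := by
    intro p hp
    apply mul_right_cancel₀ hg0
    linear_combination (-1) * hp - (p.2 - a.2) * hx + (p.1 - a.1) * hy
  have hw : wx ≠ 0 ∨ wy ≠ 0 := by
    rcases hd with h | h
    · left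
      rintro rfl
      apply h
      rw [hx]; simp
    · right
      rintro rfl
      apply h
      rw [hy]; simp
  have hgR : (0:ℝ) < (gg a b : ℝ) := by exact_mod_cast hgpos
  rcases le_total wy.natAbs wx.natAbs with hle | hle
  · have hwx : wx ≠ 0 := by
      intro h0
      rw [h0] at hle
      simp at hle
      rcases hw with h | h
      · exact h h0
      · exact h hle
    have hrpos : 0 < |wx| := abs_pos.2 hwx
    have := key n ((grid n).filter fun p => (b.1 - a.1) * (p.2 - a.2) = (p.1 - a.1) * (b.2 - a.2))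
      Prod.fst |wx| a.1 hrpos ?_ ?_
    · have e : (n : ℝ) * gg a b / nn a b = (n : ℝ) / (|wx| : ℤ) := by
        rw [hnn, max_eq_left hle]
        push_cast
        rw [Nat.cast_natAbs]
        push_cast
        have : (0:ℝ) < |(wx:ℝ)| := by
          rw [abs_pos]
          exact_mod_cast hwx
        field_simp
      rw [e]
      exact this
    · intro p hp q hq hpq
      have hp' := hline p (Finset.mem_filter.1 hp).2
      have hq' := hline q (Finset.mem_filter.1 hq).2
      have hpq' : p.1 = q.1 := hpq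
      ext
      · exact hpq'
      · rw [hpq'] at hp'
        have : wx * (p.2 - a.2) = wx * (q.2 - a.2) := by rw [hp', hq']
        have := mul_left_cancel₀ hwx this
        omega
    · intro p hp
      have hg := mem_grid.1 (Finset.mem_filter.1 hp).1
      have hp' := hline p (Finset.mem_filter.1 hp).2
      refine ⟨hg.1, hg.2.1, ?_⟩
      have hdvd : wx ∣ (p.1 - a.1) * wy := ⟨_, hp'.symm⟩
      have hdvd2 : wx ∣ p.1 - a.1 := hcop'.dvd_of_dvd_mul_right hdvd
      rw [Int.modEq_comm, Int.modEq_iff_dvd]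
      exact (abs_dvd _ _).2 hdvd2
  · have hwy : wy ≠ 0 := by
      intro h0
      rw [h0] at hle
      simp at hle
      rcases hw with h | h
      · exact h hle
      · exact h h0
    have hrpos : 0 < |wy| := abs_pos.2 hwy
    have := key n ((grid n).filter fun p => (b.1 - a.1) * (p.2 - a.2) = (p.1 - a.1) * (b.2 - a.2))
      Prod.snd |wy| a.2 hrpos ?_ ?_
    · have e : (n : ℝ) * gg a b / nn a b = (n : ℝ) / (|wy| : ℤ) := by
        rw [hnn, max_eq_right hle]
        push_cast
        rw [Nat.cast_natAbs]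
        push_cast
        have : (0:ℝ) < |(wy:ℝ)| := by
          rw [abs_pos]
          exact_mod_cast hwy
        field_simp
      rw [e]
      exact this
    · intro p hp q hq hpq
      have hp' := hline p (Finset.mem_filter.1 hp).2
      have hq' := hline q (Finset.mem_filter.1 hq).2
      have hpq' : p.2 = q.2 := hpq
      ext
      · rw [hpq'] at hp'
        have : (p.1 - a.1) * wy = (q.1 - a.1) * wy := by rw [← hp', ← hq']
        have := mul_right_cancel₀ hwy this
        omega
      · exact hpq'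
    · intro p hp
      have hg := mem_grid.1 (Finset.mem_filter.1 hp).1
      have hp' := hline p (Finset.mem_filter.1 hp).2
      refine ⟨hg.2.2.1, hg.2.2.2, ?_⟩
      have hdvd : wy ∣ wx * (p.2 - a.2) := ⟨p.1 - a.1, by rw [hp']; ring⟩
      have hdvd2 : wy ∣ p.2 - a.2 := hcop'.symm.dvd_of_dvd_mul_left hdvd
      rw [Int.modEq_comm, Int.modEq_iff_dvd]
      exact (abs_dvd _ _).2 hdvd2

theorem cover (n : ℕ) (S : Finset Pt) (h : IsMax n S) :
    (n : ℝ) ^ 2 ≤ S.card + ∑ p ∈ S.offDiag, ((n : ℝ) * gg p.1 p.2 / nn p.1 p.2 + 1) := by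
  obtain ⟨hS, hN, hmax⟩ := h
  let L : Pt × Pt → Finset Pt := fun q =>
    (grid n).filter fun p => (q.2.1 - q.1.1) * (p.2 - q.1.2) = (p.1 - q.1.1) * (q.2.2 - q.1.2)
  have hsub : grid n ⊆ S ∪ S.offDiag.biUnion L := by
    intro p hp
    rw [Finset.mem_union]
    by_cases hpS : p ∈ S
    · exact Or.inl hpS
    right
    have hnot := hmax p hp hpS
    unfold NoThree at hnot
    push Not at hnot
    obtain ⟨a, ha, b, hb, c, hc, hab, hac, hbc, heq⟩ := hnot
    rw [Finset.mem_insert] at ha hb hc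
    rw [Finset.mem_biUnion]
    have hfin : ∀ u ∈ S, ∀ v ∈ S, u ≠ v →
        (v.1 - u.1) * (p.2 - u.2) = (p.1 - u.1) * (v.2 - u.2) →
        ∃ q ∈ S.offDiag, p ∈ L q := by
      intro u hu v hv huv he
      refine ⟨(u, v), Finset.mem_offDiag.2 ⟨hu, hv, huv⟩, ?_⟩
      simp only [L]
      rw [Finset.mem_filter]
      exact ⟨hp, he⟩
    rcases ha with ha | ha
    · subst ha
      rcases hb with hb | hb
      · exact absurd hb.symm hab
      rcases hc with hc | hc
      · exact absurd hc.symm hac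
      exact hfin b hb c hc hbc (by linear_combination heq)
    rcases hb with hb | hb
    · subst hb
      rcases hc with hc | hc
      · exact absurd hc.symm hbc
      exact hfin a ha c hc hac (by linear_combination (-1) * heq)
    rcases hc with hc | hc
    · subst hc
      exact hfin a ha b hb hab (by linear_combination heq)
    exact absurd heq (hN a ha b hb c hc hab hac hbc)
  have hcard : (grid n).card = n ^ 2 := by
    unfold grid
    rw [Finset.card_product, Int.card_Icc]
    have : ((n:ℤ) + 1 - 1).toNat = n := by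
      rw [add_sub_cancel_right]; exact Int.toNat_natCast n
    rw [this, sq]
  have h1 : n ^ 2 ≤ S.card + ∑ q ∈ S.offDiag, (L q).card := by
    rw [← hcard]
    calc (grid n).card ≤ (S ∪ S.offDiag.biUnion L).card := Finset.card_le_card hsub
      _ ≤ S.card + (S.offDiag.biUnion L).card := Finset.card_union_le _ _
      _ ≤ _ := Nat.add_le_add_left Finset.card_biUnion_le _
  have h2 : ((n:ℝ)) ^ 2 ≤ S.card + ∑ q ∈ S.offDiag, ((L q).card : ℝ) := by exact_mod_cast h1
  refine h2.trans ?_
  apply add_le_add le_rfl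
  apply Finset.sum_le_sum
  intro q hq
  exact lineCount n q.1 q.2 (Finset.mem_offDiag.1 hq).2.2

end Pool.Agent.NTL
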