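import Pool.Agent.Work.MP_96a720_co.L.CMin
import Pool.Agent.Work.MP_96a720_co.L.CHeight
import Pool.Agent.Work.MP_96a720_co.L.CShear
import Pool.Agent.Work.MP_96a720_co.L.CFive
import Pool.Agent.Work.MP_96a720_co.L.CRank
import Pool.Agent.Work.MP_96a720_co.L.CFew
import Pool.Agent.Work.MP_96a720_co.L.CPrime
import Pool.Agent.Work.MP_96a720_co.L.CClass

/-!
Module Curve (M, assembly). PROOF. If |A| <= 512 use C >= 512. Otherwise F over ℚ (`evQ_map`), `cmin` gives k, A1 (|A| <= 64 |A1|);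
`cheight` with R = L gives F1 with coefficients <= B = (45 L^8)^44; `cshear` gives A2, F2, R2 = 9 L,
|ev a (dy F2)| <= 3240 B L^8 on A2. The polynomial `dy F2` is nonzero (coefficient of y^(k-1) is k * coeff(y^k) <> 0) of
totalDegree <= k - 1, so by `Many` (over ℚ) A3 = {a in A2 : ev a (dy F2) <> 0} has 2|A3| >= |A2|. Let
P = floor((120 (9L)^6)^(1/10)) + 1, so P^10 > 120 (9 L)^6, P <= C0 L^(3/5), P >= 2. κ = 600:
P^600 = (P^10)^60 > (6*10^7)^60 L^360 >= 3240 * 45^44 * L^360 (3240 (45 L^8)^44 L^8 = 3240 * 45^44 L^360). `cprime` with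
h a = ev a (dy F2): prime p, P <= p <= 2^1201 P, A4 = {a in A3 : not p | ev a (dy F2)}, |A3| <= 2 |A4|.
`cclass`: A4 meets at most 8 p classes mod p (A4 nonempty gives the point a). For each class Z = points of A4 in it: all
5-tuples in Z satisfy `five` (p^10 >= P^10 > 120 (9L)^6; take a any point of Z), so `exists_rel` and `few` give |Z| <= 32.
So |A4| <= 256 p and |A| <= 64 |A2| <= 128 |A3| <= 256 |A4| <= 65536 p <= 65536 * 2^1201 * C0 L^(3/5).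
-/

set_option autoImplicit false
open Classical

namespace Pool.Agent.NTL

private lemma td_map (F : MvPolynomial (Fin 2) ℤ) :
    (MvPolynomial.map (Int.castRingHom ℚ) F).totalDegree ≤ F.totalDegree :=
  Finset.sup_mono (MvPolynomial.support_map_subset _ _)

private lemma dy_facts (k : ℕ) (hk : 2 ≤ k) (F : MvPolynomial (Fin 2) ℤ)
    (hd : F.totalDegree ≤ k) (hc : F.coeff (Finsupp.single 1 k) ≠ 0) :
    MvPolynomial.map (Int.castRingHom ℚ) (dy F) ≠ 0 ∧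
      (MvPolynomial.map (Int.castRingHom ℚ) (dy F)).totalDegree + 1 ≤ k := by
  constructor
  · intro h
    have h0 : dy F = 0 := by
      apply MvPolynomial.map_injective (Int.castRingHom ℚ) (RingHom.injective_int _)
      rw [h, map_zero]
    have h1 : MvPolynomial.coeff (Finsupp.single 1 (k - 1)) (dy F) = 0 := by rw [h0]; simp
    unfold dy at h1
    rw [MvPolynomial.coeff_pderiv, ← Finsupp.single_add, Nat.sub_add_cancel (by omega)] at h1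
    rcases mul_eq_zero.1 h1 with h2 | h2
    · exact hc h2
    · simp only [Finsupp.single_eq_same] at h2
      omega
  · have h1 : (dy F).totalDegree ≤ k - 1 := by
      rw [MvPolynomial.totalDegree, Finset.sup_le_iff]
      intro d hdd
      rw [MvPolynomial.mem_support_iff] at hdd
      unfold dy at hdd
      rw [MvPolynomial.coeff_pderiv] at hdd
      have h2 : MvPolynomial.coeff (d + Finsupp.single 1 1) F ≠ 0 := left_ne_zero_of_mul hdd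
      have h3 := (MvPolynomial.le_totalDegree (MvPolynomial.mem_support_iff.2 h2)).trans hd
      rw [Finsupp.sum_add_index' (fun _ => rfl) (fun _ _ _ => rfl),
        Finsupp.sum_single_index rfl] at h3
      omega
    have h2 : (MvPolynomial.map (Int.castRingHom ℚ) (dy F)).totalDegree ≤ (dy F).totalDegree :=
      td_map _
    omega

private lemma exists_P : ∃ c0 : ℝ, 0 < c0 ∧ ∀ L : ℕ, 1 ≤ L → ∃ P : ℕ, 2 ≤ P ∧
    120 * (9 * L) ^ 6 < P ^ 10 ∧ (P : ℝ) ≤ c0 * (L : ℝ) ^ (3 / 5 : ℝ) := by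
  refine ⟨(120 * 9 ^ 6 : ℝ) ^ (1 / 10 : ℝ) + 1, by positivity, fun L hL => ?_⟩
  have hL1 : (1 : ℝ) ≤ L := by exact_mod_cast hL
  have hL0 : (0 : ℝ) ≤ L := by linarith
  obtain ⟨x, hx⟩ : ∃ x : ℝ, x = (120 * (9 * (L : ℝ)) ^ 6) ^ (1 / 10 : ℝ) := ⟨_, rfl⟩
  have hb1 : (1 : ℝ) ≤ 120 * (9 * (L : ℝ)) ^ 6 := by
    have : (1 : ℝ) ≤ (9 * (L : ℝ)) ^ 6 := one_le_pow₀ (by linarith)
    linarith
  have hx1 : 1 ≤ x := by
    rw [hx]
    exact Real.one_le_rpow hb1 (by norm_num)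
  have hx10 : x ^ 10 = 120 * (9 * (L : ℝ)) ^ 6 := by
    rw [hx, ← Real.rpow_natCast, ← Real.rpow_mul (by positivity)]
    norm_num
  have hL35 : (1 : ℝ) ≤ (L : ℝ) ^ (3 / 5 : ℝ) := Real.one_le_rpow hL1 (by norm_num)
  have hxe : x = (120 * 9 ^ 6 : ℝ) ^ (1 / 10 : ℝ) * (L : ℝ) ^ (3 / 5 : ℝ) := by
    have h1 : (120 * (9 * (L : ℝ)) ^ 6) = (120 * 9 ^ 6 : ℝ) * (L : ℝ) ^ (6 : ℝ) := by
      have : (L : ℝ) ^ (6 : ℝ) = (L : ℝ) ^ 6 := by
        rw [← Real.rpow_natCast]; norm_num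
      rw [this]
      ring
    rw [hx, h1, Real.mul_rpow (by positivity) (by positivity), ← Real.rpow_mul hL0]
    norm_num
  refine ⟨⌊x⌋₊ + 1, ?_, ?_, ?_⟩
  · have : 1 ≤ ⌊x⌋₊ := Nat.one_le_floor_iff x |>.2 hx1
    omega
  · have h1 : x < ((⌊x⌋₊ + 1 : ℕ) : ℝ) := by
      push_cast
      exact Nat.lt_floor_add_one x
    have h2 : x ^ 10 < ((⌊x⌋₊ + 1 : ℕ) : ℝ) ^ 10 :=
      pow_lt_pow_left₀ h1 (by linarith) (by norm_num)
    rw [hx10] at h2
    exact_mod_cast h2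
  · push_cast
    have h1 : (⌊x⌋₊ : ℝ) ≤ x := Nat.floor_le (by linarith)
    have : (⌊x⌋₊ : ℝ) + 1 ≤ x + (L : ℝ) ^ (3 / 5 : ℝ) := by linarith
    calc (⌊x⌋₊ : ℝ) + 1 ≤ x + (L : ℝ) ^ (3 / 5 : ℝ) := this
      _ = ((120 * 9 ^ 6 : ℝ) ^ (1 / 10 : ℝ) + 1) * (L : ℝ) ^ (3 / 5 : ℝ) := by
        rw [add_mul, ← hxe, one_mul]

private lemma height_lt (L P : ℕ) (hP : 120 * (9 * L) ^ 6 < P ^ 10) :
    3240 * (45 * L ^ 8) ^ 44 * L ^ 8 < P ^ 600 := by
  have h1 : 3240 * (45 * L ^ 8) ^ 44 * L ^ 8 = (3240 * 45 ^ 44) * L ^ 360 := by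
    rw [mul_pow, ← pow_mul]
    rw [show L ^ 360 = L ^ (8 * 44) * L ^ 8 by rw [← pow_add]]
    simp only [mul_assoc]
  have h2 : (120 * (9 * L) ^ 6) ^ 60 = (120 * 9 ^ 6) ^ 60 * L ^ 360 := by
    rw [mul_pow 9 L 6, ← mul_assoc, mul_pow _ (L ^ 6) 60, ← pow_mul]
  have h3 : (P ^ 10) ^ 60 = P ^ 600 := by rw [← pow_mul]
  have h4 : (120 * (9 * L) ^ 6) ^ 60 < (P ^ 10) ^ 60 := Nat.pow_lt_pow_left hP (by norm_num)
  have h5 : (3240 * 45 ^ 44) * L ^ 360 ≤ (120 * 9 ^ 6) ^ 60 * L ^ 360 :=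
    Nat.mul_le_mul_right _ (by norm_num)
  rw [h1, ← h3]
  rw [h2] at h4
  exact lt_of_le_of_lt h5 h4

private lemma curve_aux (K : ℕ) (hK : K = 2 ^ (2 * 600 + 1)) (L P : ℕ) (hL : 1 ≤ L) (hP2 : 2 ≤ P)
    (hP : 120 * (9 * L) ^ 6 < P ^ 10) (A : Finset Pt) (hA : A ⊆ box L) (h3 : NoThree A)
    (hA512 : 512 < A.card) (F : MvPolynomial (Fin 2) ℤ) (hF : F ≠ 0) (hd : F.totalDegree ≤ 8)
    (hv : ∀ a ∈ A, ev a F = 0) : A.card ≤ 65536 * (K * P) := by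
  obtain ⟨k, hk2, hk, A1, hA1, hc1, hM1, hex⟩ := cmin A h3 hA512
    (MvPolynomial.map (Int.castRingHom ℚ) F)
    (fun h => hF (MvPolynomial.map_injective (Int.castRingHom ℚ) (RingHom.injective_int _)
      (by rw [h, map_zero])))
    ((td_map _).trans hd)
    (fun a ha => by rw [evQ_map, hv a ha, Int.cast_zero])
  have hR1 : ∀ a ∈ A1, a.1.natAbs ≤ L ∧ a.2.natAbs ≤ L := by
    intro a ha
    have := mem_box.1 (hA (hA1 ha))
    omega
  obtain ⟨F1, hF1, hd1, hv1, hB1⟩ := cheight L k hL hk A1 hR1 hex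
  obtain ⟨A2, hc2, hR2, h32, hM2, F2, hd2, hcf2, hv2, hB2⟩ :=
    cshear L k ((45 * L ^ 8) ^ 44) hL hk2 hk A1 hR1 (h3.mono hA1) hM1 F1 hF1 hd1 hv1 hB1
  obtain ⟨hD0, hDd⟩ := dy_facts k hk2 F2 hd2 hcf2
  have hM3 := hM2 _ hD0 hDd
  -- the points where the derivative does not vanish
  obtain ⟨A3, hA3⟩ : ∃ A3, A3 = A2.filter fun a => ev a (dy F2) ≠ 0 := ⟨_, rfl⟩
  have hc3 : A2.card ≤ 2 * A3.card := by
    have h1 := Finset.card_filter_add_card_filter_not (s := A2) (fun a => ev a (dy F2) = 0)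
    have h2 : (A2.filter fun a => evQ a (MvPolynomial.map (Int.castRingHom ℚ) (dy F2)) = 0) =
        A2.filter fun a => ev a (dy F2) = 0 := by
      apply Finset.filter_congr
      intro a _
      rw [evQ_map]
      exact Int.cast_eq_zero
    rw [h2] at hM3
    have h3 : A3.card = (A2.filter fun a => ¬ ev a (dy F2) = 0).card := by rw [hA3]
    omega
  obtain ⟨p, hp, hPp, hpP, hc4⟩ := cprime A3 (fun a => ev a (dy F2))
    (fun a ha => by rw [hA3, Finset.mem_filter] at ha; exact ha.2) P 600 hP2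
    (fun a ha => by
      rw [hA3, Finset.mem_filter] at ha
      exact lt_of_le_of_lt (hB2 a ha.1) (height_lt L P hP))
  rw [← hK] at hpP
  obtain ⟨A4, hA4⟩ : ∃ A4, A4 = A3.filter fun a => ¬ (p : ℤ) ∣ ev a (dy F2) := ⟨_, rfl⟩
  rw [← hA4] at hc4
  have hA42 : A4 ⊆ A2 := by
    rw [hA4, hA3]
    exact (Finset.filter_subset _ _).trans (Finset.filter_subset _ _)
  have hA4n : A4.Nonempty := by
    rw [← Finset.card_pos]
    omega
  have hA4p : ∀ a ∈ A4, ¬ (p : ℤ) ∣ ev a (dy F2) := by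
    intro a ha
    rw [hA4, Finset.mem_filter] at ha
    exact ha.2
  obtain ⟨a0, ha0⟩ := hA4n
  have hcl := cclass p hp F2 (hd2.trans hk) a0 (hA4p a0 ha0) A4 (fun a ha => hv2 a (hA42 ha))
  have hp10 : 120 * (9 * L) ^ 6 < p ^ 10 := lt_of_lt_of_le hP (Nat.pow_le_pow_left hPp _)
  have hfib : ∀ v ∈ A4.image (fun b : Pt => ((b.1 : ZMod p), (b.2 : ZMod p))),
      (A4.filter fun b : Pt => ((b.1 : ZMod p), (b.2 : ZMod p)) = v).card ≤ 32 := by
    intro v _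
    have hZ4 : (A4.filter fun b : Pt => ((b.1 : ZMod p), (b.2 : ZMod p)) = v) ⊆ A4 :=
      Finset.filter_subset _ _
    obtain ⟨c, hc0, hcZ⟩ := exists_rel
      (A4.filter fun b : Pt => ((b.1 : ZMod p), (b.2 : ZMod p)) = v) (fun b hb => by
        have hb' : ∀ i, b i ∈ A4 ∧ (((b i).1 : ZMod p), ((b i).2 : ZMod p)) = v :=
          fun i => Finset.mem_filter.1 (hb i)
        refine five p (9 * L) hp F2 (b 0) (hv2 _ (hA42 (hb' 0).1)) (hA4p _ (hb' 0).1) b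
          (fun i => ⟨hv2 _ (hA42 (hb' i).1), ?_, ?_⟩) (fun i => hR2 _ (hA42 (hb' i).1)) hp10
        · apply (ZMod.intCast_eq_intCast_iff_dvd_sub _ _ _).1
          exact (congrArg Prod.fst ((hb' 0).2.trans (hb' i).2.symm))
        · apply (ZMod.intCast_eq_intCast_iff_dvd_sub _ _ _).1
          exact (congrArg Prod.snd ((hb' 0).2.trans (hb' i).2.symm)))
    exact few k hk2 hk A2 h32 hM2 F2 hd2 hcf2 hv2 _ (hZ4.trans hA42) c hc0 hcZ
  have hc5 : A4.card ≤ 32 * (8 * p) := by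
    refine (Finset.card_le_mul_card_image A4 32 ?_).trans (Nat.mul_le_mul_left _ hcl)
    convert hfib
  have h65 : 65536 * p ≤ 65536 * (K * P) := Nat.mul_le_mul_left _ hpP
  omega

private lemma curve_aux' : ∃ K : ℕ, ∀ L P : ℕ, 1 ≤ L → 2 ≤ P → 120 * (9 * L) ^ 6 < P ^ 10 →
    ∀ A ⊆ box L, NoThree A → 512 < A.card → ∀ F : MvPolynomial (Fin 2) ℤ, F ≠ 0 →
      F.totalDegree ≤ 8 → (∀ a ∈ A, ev a F = 0) → A.card ≤ 65536 * (K * P) :=
  ⟨_, fun L P hL hP2 hP A hA h3 hs F hF hd hv =>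
    curve_aux _ rfl L P hL hP2 hP A hA h3 hs F hF hd hv⟩

theorem curve : ∃ C : ℝ, 0 < C ∧ ∀ L : ℕ, 1 ≤ L → ∀ A ⊆ box L, NoThree A →
    ∀ F : MvPolynomial (Fin 2) ℤ, F ≠ 0 → F.totalDegree ≤ 8 → (∀ a ∈ A, ev a F = 0) →
      (A.card : ℝ) ≤ C * (L : ℝ) ^ (3 / 5 : ℝ) := by
  obtain ⟨c0, hc0, hP⟩ := exists_P
  obtain ⟨K, hK⟩ := curve_aux'
  refine ⟨512 + 65536 * (K * c0), by positivity, fun L hL A hA h3 F hF hd hv => ?_⟩
  obtain ⟨P, hP2, hP10, hPc⟩ := hP L hL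
  have hL35 : (1 : ℝ) ≤ (L : ℝ) ^ (3 / 5 : ℝ) :=
    Real.one_le_rpow (by exact_mod_cast hL) (by norm_num)
  have hK0 : (0 : ℝ) ≤ K := Nat.cast_nonneg _
  rcases le_or_gt A.card 512 with hs | hs
  · have h1 : (A.card : ℝ) ≤ 512 := by exact_mod_cast hs
    have h2 : (0 : ℝ) ≤ 65536 * (K * c0) * (L : ℝ) ^ (3 / 5 : ℝ) := by positivity
    calc (A.card : ℝ) ≤ 512 * 1 := by linarith
      _ ≤ 512 * (L : ℝ) ^ (3 / 5 : ℝ) := by linarith
      _ ≤ (512 + 65536 * (K * c0)) * (L : ℝ) ^ (3 / 5 : ℝ) := by linarith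
  · have h1 := hK L P hL hP2 hP10 A hA h3 hs F hF hd hv
    have h2 : (A.card : ℝ) ≤ 65536 * (K * P) := by exact_mod_cast h1
    have h3 : (K : ℝ) * P ≤ K * (c0 * (L : ℝ) ^ (3 / 5 : ℝ)) := mul_le_mul_of_nonneg_left hPc hK0
    calc (A.card : ℝ) ≤ 65536 * (K * P) := h2
      _ ≤ 65536 * (K * (c0 * (L : ℝ) ^ (3 / 5 : ℝ))) := by linarith
      _ ≤ (512 + 65536 * (K * c0)) * (L : ℝ) ^ (3 / 5 : ℝ) := by
        have : (512 + 65536 * (K * c0)) * (L : ℝ) ^ (3 / 5 : ℝ) =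
          512 * (L : ℝ) ^ (3 / 5 : ℝ) + 65536 * (K * (c0 * (L : ℝ) ^ (3 / 5 : ℝ))) := by ring
        linarith

end Pool.Agent.NTL
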