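import Mathlib

set_option autoImplicit false
open Classical

namespace Pool.Agent.NTL

/-- Points of the integer lattice. -/
abbrev Pt := ℤ × ℤ

/-- No three distinct points of `A` lie on one line. -/
def NoThree (A : Finset Pt) : Prop :=
  ∀ a ∈ A, ∀ b ∈ A, ∀ c ∈ A, a ≠ b → a ≠ c → b ≠ c →
    (b.1 - a.1) * (c.2 - a.2) ≠ (c.1 - a.1) * (b.2 - a.2)

/-- The `n x n` grid. -/
noncomputable def grid (n : ℕ) : Finset Pt := Finset.Icc (1 : ℤ) n ×ˢ Finset.Icc (1 : ℤ) n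

/-- `S` is a maximal no-three-in-line subset of the `n x n` grid. -/
def IsMax (n : ℕ) (S : Finset Pt) : Prop :=
  S ⊆ grid n ∧ NoThree S ∧ ∀ p ∈ grid n, p ∉ S → ¬ NoThree (insert p S)

/-- The least size of a maximal no-three-in-line subset of the `n x n` grid. -/
noncomputable def m (n : ℕ) : ℕ := sInf {k | ∃ S : Finset Pt, IsMax n S ∧ S.card = k}

/-- The gcd of the coordinates of `a - b`. -/
def gg (a b : Pt) : ℕ := Int.gcd (a.1 - b.1) (a.2 - b.2)

/-- The maximum norm of `a - b`. -/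
def nn (a b : Pt) : ℕ := max (a.1 - b.1).natAbs (a.2 - b.2).natAbs

/-- A good pair: the primitive vector in the direction `a - b` has maximum norm at most `W`. -/
def Good (W : ℕ) (a b : Pt) : Prop := a ≠ b ∧ nn a b ≤ W * gg a b

/-- The number of good ordered pairs of `X`. -/
noncomputable def ee (W : ℕ) (X : Finset Pt) : ℕ :=
  ((X ×ˢ X).filter fun p => Good W p.1 p.2).card

/-- The box `[0, L)^2`. -/
noncomputable def box (L : ℕ) : Finset Pt := Finset.Ico (0 : ℤ) L ×ˢ Finset.Ico (0 : ℤ) L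

/-- A configuration: at most `s` points of `box L` without three in line, whose average degree in the good
graph is at least `s / Λ`. -/
def Conf (W s L : ℕ) (Λ : ℝ) : Prop :=
  ∃ X : Finset Pt, X ⊆ box L ∧ NoThree X ∧ X.Nonempty ∧ X.card ≤ s ∧
    (s : ℝ) * X.card ≤ Λ * ee W X

/-- The map `x ↦ t + q x`. -/
def aff (q : ℕ) (t : Pt) (x : Pt) : Pt := (t.1 + q * x.1, t.2 + q * x.2)

/-- Polynomials in `x = X 0`, `y = X 1`, evaluated at an integer point. -/
noncomputable def ev (a : Pt) (F : MvPolynomial (Fin 2) ℤ) : ℤ := MvPolynomial.eval ![a.1, a.2] F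

lemma mem_box {L : ℕ} {a : Pt} : a ∈ box L ↔ 0 ≤ a.1 ∧ a.1 < L ∧ 0 ≤ a.2 ∧ a.2 < L := by
  unfold box
  rw [Finset.mem_product, Finset.mem_Ico, Finset.mem_Ico]
  tauto

lemma mem_grid {n : ℕ} {a : Pt} : a ∈ grid n ↔ 1 ≤ a.1 ∧ a.1 ≤ n ∧ 1 ≤ a.2 ∧ a.2 ≤ n := by
  unfold grid
  rw [Finset.mem_product, Finset.mem_Icc, Finset.mem_Icc]
  tauto

lemma NoThree.mono {A B : Finset Pt} (h : NoThree B) (hs : A ⊆ B) : NoThree A :=
  fun a ha b hb c hc => h a (hs ha) b (hs hb) c (hs hc)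

lemma Conf.mono {W s L L' : ℕ} {Λ Λ' : ℝ} (h : Conf W s L Λ) (hL : L ≤ L') (hΛ : Λ ≤ Λ') :
    Conf W s L' Λ' := by
  obtain ⟨X, h1, h2, h3, h4, h5⟩ := h
  refine ⟨X, ?_, h2, h3, h4, h5.trans (mul_le_mul_of_nonneg_right hΛ (Nat.cast_nonneg _))⟩
  intro a ha
  have := mem_box.1 (h1 ha)
  rw [mem_box]
  have hL' : (L : ℤ) ≤ L' := by exact_mod_cast hL
  omega

end Pool.Agent.NTL
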