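import Pool.Agent.Work.MP_96a720_co.L.Defs

/-!
Module Dirs (M). PROOFS.

`dirCount`: for a fixed a and k >= 1 the points b <> a of S with nn a b = k * gg a b: map b to the vector
w = ((b.1-a.1)/g, (b.2-a.2)/g), g = gg a b (exact division), an integer vector of maximum norm exactly k. The map is
injective on these b: if b, b' have the same w then b - a = g w, b' - a = g' w, so a, b, b' are collinear
(det = g g' (w.1 w.2 - w.1 w.2) = 0) and `NoThree` gives b = b'. The number of integer vectors of maximum norm k is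
(2k+1)^2 - (2k-1)^2 = 8k (for the upper bound: |w.1| = k: 2(2k+1) vectors; |w.2| = k, |w.1| < k: 2(2k-1)), or use the
weaker statement through the box: the vectors lie in Icc(-k)k x {-k,k} union {-k,k} x Icc(-(k-1))(k-1).

`dirs`: write s = S.card, r(p) = gg/nn for p in S.offDiag; nn p = k(p) gg p with k(p) >= 1 natural (gg divides nn, as it
divides both coordinates; nn > 0), r(p) = 1/k(p). `Good W a b` (a <> b) iff k <= W. Let K = floor(T/(16 s)) (s > 0, as
T > 0 forces S.offDiag nonempty). (1) sum of r over k(p) <= K is <= sum_{k=1..K} (8 k s)/k = 8 s K <= T/2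
(fiberwise sum over k, `dirCount` summed over a in S). (2) sum of r over k(p) > W: each term <= 1/(W+1) <= 1/W, at most
s^2 terms, so <= s^2/W <= T/4 (W > 0 because 4 s^2 <= W T and s > 0). (3) so the sum over K < k(p) <= W is >= T/4, every
term is <= 1/(K+1) <= 16 s/T, so the number of these p (all good) is >= T/4 * T/(16 s) = T^2/(64 s); they are counted
by `ee W S` (pairs of S x S which are good, in particular different).
-/

set_option autoImplicit false
open Classical

namespace Pool.Agent.NTL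

private lemma gg_pos {a b : Pt} (h : a ≠ b) : 0 < gg a b := by
  unfold gg
  rw [Int.gcd_pos_iff]
  by_contra hc
  push Not at hc
  exact h (Prod.ext (by omega) (by omega))

private lemma gg_dvd_nn (a b : Pt) : gg a b ∣ nn a b := by
  unfold gg nn
  have h1 : Int.gcd (a.1 - b.1) (a.2 - b.2) ∣ (a.1 - b.1).natAbs := Nat.gcd_dvd_left _ _
  have h2 : Int.gcd (a.1 - b.1) (a.2 - b.2) ∣ (a.2 - b.2).natAbs := Nat.gcd_dvd_right _ _
  rcases le_total (a.1 - b.1).natAbs (a.2 - b.2).natAbs with h | h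
  · rw [max_eq_right h]; exact h2
  · rw [max_eq_left h]; exact h1

private lemma nn_pos {a b : Pt} (h : a ≠ b) : 0 < nn a b := by
  unfold nn
  by_contra hc
  push Not at hc
  have h1 := le_max_left (a.1 - b.1).natAbs (a.2 - b.2).natAbs
  have h2 := le_max_right (a.1 - b.1).natAbs (a.2 - b.2).natAbs
  exact h (Prod.ext (by omega) (by omega))

/-- exact division of the difference -/
private lemma exists_w {a b : Pt} (h : a ≠ b) : ∃ w : Pt, b.1 - a.1 = (gg a b : ℤ) * w.1 ∧
    b.2 - a.2 = (gg a b : ℤ) * w.2 ∧ nn a b = gg a b * max w.1.natAbs w.2.natAbs := by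
  have h1 : ((gg a b : ℕ) : ℤ) ∣ a.1 - b.1 := by
    unfold gg; exact Int.gcd_dvd_left ..
  have h2 : ((gg a b : ℕ) : ℤ) ∣ a.2 - b.2 := by
    unfold gg; exact Int.gcd_dvd_right ..
  obtain ⟨w1, hw1⟩ := h1
  obtain ⟨w2, hw2⟩ := h2
  refine ⟨(-w1, -w2), ?_, ?_, ?_⟩
  · show b.1 - a.1 = (gg a b : ℤ) * -w1
    linarith
  · show b.2 - a.2 = (gg a b : ℤ) * -w2
    linarith
  · show nn a b = gg a b * max (-w1).natAbs (-w2).natAbs
    unfold nn
    rw [hw1, hw2, Int.natAbs_mul, Int.natAbs_mul, Int.natAbs_natCast, Int.natAbs_neg,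
      Int.natAbs_neg, Nat.mul_max_mul_left]

theorem dirCount (S : Finset Pt) (hS : NoThree S) (a : Pt) (ha : a ∈ S) (k : ℕ) (hk : 1 ≤ k) :
    (S.filter fun b => b ≠ a ∧ nn a b = k * gg a b).card ≤ 8 * k := by
  have hex : ∀ b : Pt, ∃ w : Pt, b ≠ a → b.1 - a.1 = (gg a b : ℤ) * w.1 ∧
      b.2 - a.2 = (gg a b : ℤ) * w.2 ∧ nn a b = gg a b * max w.1.natAbs w.2.natAbs := by
    intro b
    by_cases h : b = a
    · exact ⟨0, fun h' => absurd h h'⟩
    · obtain ⟨w, hw⟩ := exists_w (Ne.symm h)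
      exact ⟨w, fun _ => hw⟩
  choose f hf using hex
  let T : Finset Pt := (Finset.Icc (-(k : ℤ)) k ×ˢ {-(k : ℤ), (k : ℤ)}) ∪
    ({-(k : ℤ), (k : ℤ)} ×ˢ Finset.Icc (-((k : ℤ) - 1)) ((k : ℤ) - 1))
  have hT : T.card ≤ 8 * k := by
    refine (Finset.card_union_le _ _).trans ?_
    rw [Finset.card_product, Finset.card_product, Int.card_Icc, Int.card_Icc]
    have h2 : ({-(k : ℤ), (k : ℤ)} : Finset ℤ).card = 2 := Finset.card_pair (by omega)
    rw [h2]
    have h3 : ((k : ℤ) + 1 - -(k : ℤ)).toNat = 2 * k + 1 := by omega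
    have h4 : ((k : ℤ) - 1 + 1 - -((k : ℤ) - 1)).toNat = 2 * k - 1 := by omega
    rw [h3, h4]
    omega
  refine (Finset.card_le_card_of_injOn f ?_ ?_).trans hT
  · intro b hb
    rw [Finset.mem_coe, Finset.mem_filter] at hb
    obtain ⟨hbS, hba, hk2⟩ := hb
    obtain ⟨h1, h2, h3⟩ := hf b hba
    have hg := gg_pos (Ne.symm hba)
    have h4 : max (f b).1.natAbs (f b).2.natAbs = k := by
      rw [h3, mul_comm k] at hk2
      exact Nat.eq_of_mul_eq_mul_left hg hk2
    rw [Finset.mem_coe]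
    simp only [T, Finset.mem_union, Finset.mem_product, Finset.mem_Icc, Finset.mem_insert,
      Finset.mem_singleton]
    have h5 := le_max_left (f b).1.natAbs (f b).2.natAbs
    have h6 := le_max_right (f b).1.natAbs (f b).2.natAbs
    rcases max_choice (f b).1.natAbs (f b).2.natAbs with h7 | h7
    · by_cases h8 : (f b).2.natAbs = k
      · left; omega
      · right; omega
    · left; omega
  · intro b hb b' hb' hbb
    rw [Finset.mem_coe, Finset.mem_filter] at hb hb'
    obtain ⟨h1, h2, -⟩ := hf b hb.2.1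
    obtain ⟨h1', h2', -⟩ := hf b' hb'.2.1
    by_contra hne
    refine hS a ha b hb.1 b' hb'.1 (Ne.symm hb.2.1) (Ne.symm hb'.2.1) hne ?_
    rw [h1, h2, h1', h2', hbb]
    ring

private noncomputable def kk (p : Pt × Pt) : ℕ := nn p.1 p.2 / gg p.1 p.2

private lemma kk_spec {p : Pt × Pt} (h : p.1 ≠ p.2) : nn p.1 p.2 = kk p * gg p.1 p.2 :=
  (Nat.div_mul_cancel (gg_dvd_nn _ _)).symm

private lemma kk_pos {p : Pt × Pt} (h : p.1 ≠ p.2) : 1 ≤ kk p := by
  rcases Nat.eq_zero_or_pos (kk p) with h0 | h0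
  · exfalso
    have h1 := kk_spec h
    rw [h0, zero_mul] at h1
    exact (nn_pos h).ne' h1
  · exact h0

private lemma r_eq {p : Pt × Pt} (h : p.1 ≠ p.2) :
    (gg p.1 p.2 : ℝ) / nn p.1 p.2 = 1 / (kk p : ℝ) := by
  rw [kk_spec h]
  have h1 : (gg p.1 p.2 : ℝ) ≠ 0 := by exact_mod_cast (gg_pos h).ne'
  have h2 : (kk p : ℝ) ≠ 0 := by
    have := kk_pos h
    exact_mod_cast (by omega : kk p ≠ 0)
  push_cast
  field_simp

private lemma card_fiber (S : Finset Pt) (hS : NoThree S) (k : ℕ) (hk : 1 ≤ k) :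
    (S.offDiag.filter fun p => kk p = k).card ≤ S.card * (8 * k) := by
  have h1 : (S.offDiag.filter fun p => kk p = k) ⊆
      S.biUnion fun a => (S.filter fun b => b ≠ a ∧ nn a b = k * gg a b).image fun b => (a, b) := by
    intro p hp
    rw [Finset.mem_filter, Finset.mem_offDiag] at hp
    rw [Finset.mem_biUnion]
    refine ⟨p.1, hp.1.1, ?_⟩
    rw [Finset.mem_image]
    refine ⟨p.2, ?_, rfl⟩
    rw [Finset.mem_filter]
    refine ⟨hp.1.2.1, Ne.symm hp.1.2.2, ?_⟩
    rw [kk_spec hp.1.2.2, hp.2]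
  refine (Finset.card_le_card h1).trans (Finset.card_biUnion_le.trans ?_)
  rw [← smul_eq_mul]
  refine Finset.sum_le_card_nsmul _ _ _ fun a ha => ?_
  exact Finset.card_image_le.trans (dirCount S hS a ha k hk)

theorem dirs (S : Finset Pt) (hS : NoThree S) (T : ℝ) (hT : 0 < T)
    (hT' : T ≤ ∑ p ∈ S.offDiag, (gg p.1 p.2 : ℝ) / nn p.1 p.2) (W : ℕ)
    (hW : 4 * (S.card : ℝ) ^ 2 ≤ W * T) : T ^ 2 ≤ 64 * S.card * ee W S := by
  have hs0 : 0 < S.card := by
    rcases Nat.eq_zero_or_pos S.card with h | h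
    · exfalso
      rw [Finset.card_eq_zero] at h
      subst h
      simp at hT'
      linarith
    · exact h
  have hs : (0 : ℝ) < S.card := by exact_mod_cast hs0
  have hW0 : (0 : ℝ) < W := by
    by_contra hc
    push Not at hc
    have h1 : (W : ℝ) * T ≤ 0 := mul_nonpos_of_nonpos_of_nonneg hc hT.le
    have h2 : (0 : ℝ) < 4 * (S.card : ℝ) ^ 2 := by positivity
    linarith
  set s : ℝ := (S.card : ℝ) with hsdef
  set K : ℕ := ⌊T / (16 * s)⌋₊ with hK
  have hK1 : (K : ℝ) ≤ T / (16 * s) := Nat.floor_le (by positivity)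
  have hK2 : T / (16 * s) < K + 1 := Nat.lt_floor_add_one _
  have hoff : ∀ p ∈ S.offDiag, p.1 ≠ p.2 := fun p hp => (Finset.mem_offDiag.1 hp).2.2
  have hsum : ∑ p ∈ S.offDiag, (gg p.1 p.2 : ℝ) / nn p.1 p.2 =
      ∑ p ∈ S.offDiag, 1 / (kk p : ℝ) :=
    Finset.sum_congr rfl fun p hp => r_eq (hoff p hp)
  rw [hsum] at hT'
  set A := S.offDiag.filter fun p => kk p ≤ K with hA
  set B := S.offDiag.filter fun p => ¬ kk p ≤ K with hB
  set B1 := B.filter fun p => kk p ≤ W with hB1
  set B2 := B.filter fun p => ¬ kk p ≤ W with hB2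
  have hsplit : ∑ p ∈ S.offDiag, 1 / (kk p : ℝ) =
      ∑ p ∈ A, 1 / (kk p : ℝ) + (∑ p ∈ B1, 1 / (kk p : ℝ) + ∑ p ∈ B2, 1 / (kk p : ℝ)) := by
    rw [hB1, hB2, Finset.sum_filter_add_sum_filter_not, hA, hB, Finset.sum_filter_add_sum_filter_not]
  -- part 1
  have h1 : ∑ p ∈ A, 1 / (kk p : ℝ) ≤ T / 2 := by
    have hmaps : ∀ p ∈ A, kk p ∈ Finset.Icc 1 K := by
      intro p hp
      rw [hA, Finset.mem_filter] at hp
      rw [Finset.mem_Icc]
      exact ⟨kk_pos (hoff p hp.1), hp.2⟩
    rw [← Finset.sum_fiberwise_of_maps_to hmaps]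
    have h2 : ∀ k ∈ Finset.Icc 1 K, ∑ p ∈ A with kk p = k, 1 / (kk p : ℝ) ≤ 8 * s := by
      intro k hk
      rw [Finset.mem_Icc] at hk
      have hk0 : (0 : ℝ) < k := by exact_mod_cast (by omega : 0 < k)
      have h3 : ∑ p ∈ A with kk p = k, 1 / (kk p : ℝ) = (A.filter fun p => kk p = k).card * (1 / (k : ℝ)) := by
        rw [← nsmul_eq_mul, ← Finset.sum_const]
        refine Finset.sum_congr rfl fun p hp => ?_
        rw [(Finset.mem_filter.1 hp).2]
      rw [h3]
      have h4 : (A.filter fun p => kk p = k).card ≤ S.card * (8 * k) := by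
        refine (Finset.card_le_card ?_).trans (card_fiber S hS k hk.1)
        exact Finset.filter_subset_filter _ (Finset.filter_subset _ _)
      have h5 : ((A.filter fun p => kk p = k).card : ℝ) ≤ s * (8 * k) := by
        rw [hsdef]
        exact_mod_cast h4
      calc ((A.filter fun p => kk p = k).card : ℝ) * (1 / (k : ℝ)) ≤ s * (8 * k) * (1 / (k : ℝ)) :=
            mul_le_mul_of_nonneg_right h5 (by positivity)
        _ = 8 * s := by field_simp
    calc ∑ k ∈ Finset.Icc 1 K, ∑ p ∈ A with kk p = k, 1 / (kk p : ℝ)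
        ≤ ∑ k ∈ Finset.Icc 1 K, 8 * s := Finset.sum_le_sum h2
      _ = K * (8 * s) := by rw [Finset.sum_const, Nat.card_Icc, nsmul_eq_mul]; simp
      _ ≤ T / (16 * s) * (8 * s) := mul_le_mul_of_nonneg_right hK1 (by positivity)
      _ = T / 2 := by field_simp; norm_num
  -- part 2
  have h2 : ∑ p ∈ B2, 1 / (kk p : ℝ) ≤ T / 4 := by
    have h3 : ∀ p ∈ B2, 1 / (kk p : ℝ) ≤ 1 / W := by
      intro p hp
      rw [hB2, Finset.mem_filter] at hp
      apply one_div_le_one_div_of_le hW0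
      exact_mod_cast (not_le.1 hp.2).le
    have h4 := Finset.sum_le_card_nsmul _ _ _ h3
    rw [nsmul_eq_mul] at h4
    have h5 : (B2.card : ℝ) ≤ s ^ 2 := by
      have h6 : B2.card ≤ S.card * S.card := by
        refine (Finset.card_le_card ((Finset.filter_subset _ _).trans (Finset.filter_subset _ _))).trans ?_
        rw [Finset.offDiag_card]
        exact Nat.sub_le _ _
      rw [hsdef, pow_two]
      exact_mod_cast h6
    calc ∑ p ∈ B2, 1 / (kk p : ℝ) ≤ B2.card * (1 / W) := h4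
      _ ≤ s ^ 2 * (1 / W) := mul_le_mul_of_nonneg_right h5 (by positivity)
      _ ≤ T / 4 := by
        rw [mul_one_div, div_le_iff₀ hW0]
        linarith
  -- part 3
  have h3 : ∑ p ∈ B1, 1 / (kk p : ℝ) ≤ B1.card * (16 * s / T) := by
    have h4 : ∀ p ∈ B1, 1 / (kk p : ℝ) ≤ 16 * s / T := by
      intro p hp
      rw [hB1, Finset.mem_filter, hB, Finset.mem_filter] at hp
      have h5 : (K : ℝ) + 1 ≤ kk p := by
        have := not_le.1 hp.1.2
        exact_mod_cast this
      have h6 : T / (16 * s) ≤ kk p := by linarith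
      have h7 : 0 < T / (16 * s) := by positivity
      calc 1 / (kk p : ℝ) ≤ 1 / (T / (16 * s)) := one_div_le_one_div_of_le h7 h6
        _ = 16 * s / T := by rw [one_div_div]
    have h5 := Finset.sum_le_card_nsmul _ _ _ h4
    rwa [nsmul_eq_mul] at h5
  have h4 : T / 4 ≤ B1.card * (16 * s / T) := by linarith
  have h5 : (B1.card : ℝ) ≤ ee W S := by
    have h6 : B1.card ≤ ee W S := by
      unfold ee
      apply Finset.card_le_card
      intro p hp
      rw [hB1, Finset.mem_filter, hB, Finset.mem_filter] at hp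
      have h7 := Finset.mem_offDiag.1 hp.1.1
      rw [Finset.mem_filter, Finset.mem_product]
      refine ⟨⟨h7.1, h7.2.1⟩, h7.2.2, ?_⟩
      rw [kk_spec h7.2.2]
      exact Nat.mul_le_mul_right _ hp.2
    exact_mod_cast h6
  have h6 : T / 4 ≤ ee W S * (16 * s / T) :=
    h4.trans (mul_le_mul_of_nonneg_right h5 (by positivity))
  have h7 : T / 4 * T ≤ ee W S * (16 * s / T) * T := mul_le_mul_of_nonneg_right h6 hT.le
  have h8 : (ee W S : ℝ) * (16 * s / T) * T = ee W S * (16 * s) := by field_simp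
  rw [h8] at h7
  nlinarith

end Pool.Agent.NTL
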