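import Pool.Agent.Work.MP_96a720_co.L.Start
import Pool.Agent.Work.MP_96a720_co.L.Core
import Pool.Agent.Work.MP_96a720_co.L.Curve
import Pool.Agent.Work.MP_96a720_co.L.AsymA
import Pool.Agent.Work.MP_96a720_co.L.AsymB
import Pool.Agent.Work.MP_96a720_co.L.AsymC
import Pool.Agent.Work.MP_96a720_co.L.DivB

/-!
Final assembly.
-/

set_option autoImplicit false
open Classical

namespace Pool.Agent.NTL

theorem bound : ∃ N : ℕ, ∀ n ≥ N, ∀ S : Finset Pt, IsMax n S →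
    (n : ℝ) ^ (2 / 3 + c0 : ℝ) ≤ S.card := by
  obtain ⟨A, hA, hdiv⟩ := Div.exists_card_divisors_le c0 c0_pos
  obtain ⟨C, hC, hcurve⟩ := curve
  have hE1 : ∀ᶠ n : ℕ in Filter.atTop, ∀ k ∈ Finset.range 680, ∀ s : ℕ, Bad n s →
      1 ≤ Lk n (k + 1) / 2 ∧ 1 ≤ Qn n ∧ Lk n k / Qn n + 1 ≤ Lk n (k + 1) ∧
      2070 * Lk n k ^ 10 * (Nat.sqrt (Lk n k) + 1) * Qn n ^ 231 <
        (Lk n (k + 1) / 2 / Wn n s) ^ 22 := by
    rw [Filter.eventually_all_finset]
    exact fun k hk => asymA k (Finset.mem_range.1 hk)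
  have hE2 : ∀ᶠ n : ℕ in Filter.atTop, ∀ k ∈ Finset.range 680, ∀ s : ℕ, Bad n s →
      1 ≤ Lam n k ∧ 16 * Lam n k ≤ Lam n (k + 1) ∧
      10 ^ 6 * Lam n k ^ 23 * (1 / (s : ℝ) + 2 * tau A n / Lam n (k + 1)) ≤ 1 ∧
      1200 * Lam n k ^ 23 * (C * (Lk n k : ℝ) ^ (3 / 5 : ℝ)) < s := by
    rw [Filter.eventually_all_finset]
    exact fun k hk => asymB A C hA hC k (Finset.mem_range.1 hk)
  obtain ⟨N, hN⟩ := Filter.eventually_atTop.1
    (hE1.and (hE2.and (asymC.and (asymD.and (Filter.eventually_ge_atTop 1)))))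
  refine ⟨N, fun n hn S hS => ?_⟩
  obtain ⟨h1, h2, h3, h4, hn1⟩ := hN n hn
  by_contra hlt
  push Not at hlt
  have hn1' : (1 : ℝ) ≤ (n : ℝ) := by exact_mod_cast hn1
  have h2s : 2 * S.card ≤ n := h4 _ hlt
  have hbad : Bad n S.card := ⟨start_lower n hn1 S hS h2s, hlt⟩
  obtain ⟨-, hW, hL0, hlast⟩ := h3 _ hbad
  have hconf0 : Conf (Wn n S.card) S.card (Lk n 0) (Lam n 0) := by
    have h := start n hn1 S hS h2s (Wn n S.card) hW
    rw [Lk_zero]
    exact h.mono le_rfl hL0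
  have hLam0 : 0 ≤ Lam n 680 := Real.rpow_nonneg (Nat.cast_nonneg _) _
  have hconfK : ¬ Conf (Wn n S.card) S.card (Lk n 680) (Lam n 680) := fun h =>
    absurd (conf_card _ _ _ _ hLam0 h) (not_le.2 hlast)
  obtain ⟨k, hk, hck, hck1⟩ : ∃ k, k < 680 ∧ Conf (Wn n S.card) S.card (Lk n k) (Lam n k) ∧
      ¬ Conf (Wn n S.card) S.card (Lk n (k + 1)) (Lam n (k + 1)) := by
    by_contra hcon
    push Not at hcon
    have hall : ∀ k, k ≤ 680 → Conf (Wn n S.card) S.card (Lk n k) (Lam n k) := by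
      intro k
      induction k with
      | zero => exact fun _ => hconf0
      | succ k ih => exact fun hk => hcon k (by omega) (ih (by omega))
    exact hconfK (hall 680 le_rfl)
  obtain ⟨a1, a2, a3, a4⟩ := h1 k (Finset.mem_range.2 hk) _ hbad
  obtain ⟨b1, b2, b3, b4⟩ := h2 k (Finset.mem_range.2 hk) _ hbad
  obtain ⟨X, hXL, hX3, hXn, hXs, hXe⟩ := hck
  have hLn : Lk n k ≤ n := by
    have : (Lk n k : ℝ) ≤ (n : ℝ) := by
      refine (Nat.floor_le (Real.rpow_nonneg (Nat.cast_nonneg _) _)).trans ?_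
      calc (n : ℝ) ^ (1 - (k : ℝ) / 2000) ≤ (n : ℝ) ^ (1 : ℝ) := by
            apply Real.rpow_le_rpow_of_exponent_le hn1'
            have : (0 : ℝ) ≤ (k : ℝ) / 2000 := by positivity
            linarith
        _ = n := Real.rpow_one _
    exact_mod_cast this
  obtain ⟨B, hBX, hsB, F, hF, hFd, hFv⟩ := core (Wn n S.card) S.card (Lk n k) (Lk n (k + 1))
    (Lk n (k + 1) / 2) (Qn n) (Lk n (k + 1) / 2 / Wn n S.card) (tau A n) (Lam n k)
    (Lam n (k + 1)) X hXL hX3 hXn hXs hXe hck1 a1 (Nat.mul_div_le _ _) a2 a3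
    (Nat.div_mul_le_self _ _) a4 (by
      intro j hj1 hjL
      apply Nat.le_floor
      refine (hdiv j hj1).trans ?_
      apply mul_le_mul_of_nonneg_left _ (by linarith)
      apply Real.rpow_le_rpow (Nat.cast_nonneg _) _ c0_pos.le
      exact_mod_cast hjL.trans hLn) b1 b2 b3
  have hL1 : 1 ≤ Lk n k := by
    obtain ⟨x, hx⟩ := hXn
    have := mem_box.1 (hXL hx)
    have : (0 : ℤ) < (Lk n k : ℤ) := by omega
    exact_mod_cast this
  have hc := hcurve (Lk n k) hL1 B (hBX.trans hXL) (hX3.mono hBX) F hF hFd hFv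
  have hΛ : 0 ≤ 1200 * Lam n k ^ 23 := by positivity
  have := mul_le_mul_of_nonneg_left hc hΛ
  linarith

/-- The least size `m n` of a maximal no-three-in-line set is at least `n^(2/3+c)` for large `n`. -/
theorem main : ∃ c : ℝ, 0 < c ∧ ∃ N : ℕ, ∀ n ≥ N, (n : ℝ) ^ (2 / 3 + c : ℝ) ≤ m n := by
  obtain ⟨N, hN⟩ := bound
  refine ⟨c0, c0_pos, N, fun n hn => ?_⟩
  have hne : {k | ∃ S : Finset Pt, IsMax n S ∧ S.card = k}.Nonempty := by
    obtain ⟨S, hS⟩ := exists_isMax n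
    exact ⟨S.card, S, hS, rfl⟩
  obtain ⟨S, hS, hcard⟩ := Nat.sInf_mem hne
  have h := hN n hn S hS
  unfold m
  rw [← hcard]
  exact h

end Pool.Agent.NTL
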