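import Mathlib

/-!
Parameters. ε = 1/2000, 680 levels, λ_k = 4 c 24^k with c = 1/(4000 * 24^680), so λ_680 = 1/1000.
-/

set_option autoImplicit false

namespace Pool.Agent.NTL

/-- the gain in the exponent -/
noncomputable def c0 : ℝ := 1 / (4000 * 24 ^ 680)

noncomputable def lam (k : ℕ) : ℝ := 4 * c0 * 24 ^ k

/-- side of the box at level `k` -/
noncomputable def Lk (n k : ℕ) : ℕ := ⌊(n : ℝ) ^ (1 - (k : ℝ) / 2000)⌋₊

/-- density loss at level `k` -/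
noncomputable def Lam (n k : ℕ) : ℝ := (n : ℝ) ^ lam k

noncomputable def Wn (n s : ℕ) : ℕ := ⌈8 * (s : ℝ) ^ 2 / n⌉₊

noncomputable def Qn (n : ℕ) : ℕ := ⌈4 * (n : ℝ) ^ (1 / 2000 : ℝ)⌉₊

noncomputable def tau (A : ℝ) (n : ℕ) : ℕ := ⌊A * (n : ℝ) ^ c0⌋₊

/-- The range of `s` to be excluded. -/
def Bad (n s : ℕ) : Prop :=
  (n : ℝ) ^ 2 ≤ 256 * (s : ℝ) ^ 3 ∧ (s : ℝ) < (n : ℝ) ^ (2 / 3 + c0 : ℝ)

lemma c0_pos : 0 < c0 := by unfold c0; positivity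

lemma lam_zero : lam 0 = 4 * c0 := by unfold lam; simp

lemma lam_succ (k : ℕ) : lam (k + 1) = 24 * lam k := by unfold lam; ring

lemma lam_last : lam 680 = 1 / 1000 := by
  unfold lam c0
  have h : (24 : ℝ) ^ 680 ≠ 0 := by positivity
  field_simp
  norm_num

lemma Lk_zero (n : ℕ) : Lk n 0 = n := by
  unfold Lk
  simp

end Pool.Agent.NTL
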