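import Pool.Agent.Work.MP_96a720_co.L.Cover
import Pool.Agent.Work.MP_96a720_co.L.Dirs
import Pool.Agent.Work.MP_96a720_co.L.Aff

/-!
Module Start (S-M). PROOFS.

`exists_isMax`: the empty set has no three in line and lies in `grid n`; take S in the finite powerset of `grid n`
with `NoThree S` and maximal cardinality; adding a point would contradict the maximality.
`start`: s = S.card. S is nonempty (n >= 1: if S is empty then `insert (1,1) S` has no three in line). From `cover`:
n^2 <= s + sum_{offDiag} (n r(p) + 1) = s + n R + (s^2 - s) = s^2 + n R, R = sum of r(p) = gg/nn over S.offDiag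
(`Finset.offDiag_card`), so R >= (n^2 - s^2)/n >= 3n/4 >= n/2 =: T (2 s <= n). `dirs` with this T and W
(4 s^2 <= W n/2): n^2/4 <= 64 s ee, i.e. n^2 <= 256 s ee(S), so s * s <= (256 s^3/n^2) * ee. The configuration is the
translate of S by (-1,-1): X with S = X.image (aff 1 (1,1)) (X = S.image (fun x => (x.1-1, x.2-1))), contained in
`box n`; use `noThree_image`, `ee_image` with q = 1.
`start_lower`: n^2 <= 256 s ee(S) <= 256 s^3.
-/

set_option autoImplicit false
open Classical

namespace Pool.Agent.NTL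

theorem exists_isMax (n : ℕ) : ∃ S, IsMax n S := by
  have hne : ((grid n).powerset.filter fun S => NoThree S).Nonempty := by
    refine ⟨∅, ?_⟩
    rw [Finset.mem_filter]
    refine ⟨Finset.empty_mem_powerset _, ?_⟩
    intro a ha
    exact absurd ha (Finset.notMem_empty a)
  obtain ⟨S, hS, hmax⟩ := Finset.exists_max_image _ Finset.card hne
  rw [Finset.mem_filter, Finset.mem_powerset] at hS
  refine ⟨S, hS.1, hS.2, ?_⟩
  intro p hp hpS h3
  have h1 := hmax (insert p S) (by
    rw [Finset.mem_filter, Finset.mem_powerset]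
    exact ⟨Finset.insert_subset hp hS.1, h3⟩)
  rw [Finset.card_insert_of_notMem hpS] at h1
  omega

private lemma main_ineq (n : ℕ) (hn : 1 ≤ n) (S : Finset Pt) (h : IsMax n S) (h2 : 2 * S.card ≤ n)
    (W : ℕ) (hW : 8 * S.card ^ 2 ≤ W * n) :
    (n : ℝ) ^ 2 ≤ 256 * S.card * ee W S := by
  have hc := cover n S h
  have hn' : (0 : ℝ) < n := by exact_mod_cast hn
  have h2' : 2 * (S.card : ℝ) ≤ n := by exact_mod_cast h2
  have hs0 : (0 : ℝ) ≤ S.card := Nat.cast_nonneg _
  set R : ℝ := ∑ p ∈ S.offDiag, (gg p.1 p.2 : ℝ) / nn p.1 p.2 with hR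
  have e1 : ∑ p ∈ S.offDiag, ((n : ℝ) * gg p.1 p.2 / nn p.1 p.2 + 1) =
      n * R + ((S.card : ℝ) ^ 2 - S.card) := by
    rw [Finset.sum_add_distrib, hR, Finset.mul_sum]
    congr 1
    · exact Finset.sum_congr rfl fun p _ => mul_div_assoc _ _ _
    · rw [Finset.sum_const, Finset.offDiag_card, nsmul_eq_mul, mul_one,
        Nat.cast_sub (Nat.le_mul_self _)]
      push_cast
      ring
  rw [e1] at hc
  have h3 : (n : ℝ) / 2 ≤ R := by
    have h4 : (n : ℝ) * (n / 2) ≤ n * R := by nlinarith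
    exact le_of_mul_le_mul_left h4 hn'
  have hW' : 8 * (S.card : ℝ) ^ 2 ≤ W * n := by exact_mod_cast hW
  have h5 := dirs S h.2.1 ((n : ℝ) / 2) (by positivity) h3 W (by linarith)
  nlinarith

theorem start (n : ℕ) (hn : 1 ≤ n) (S : Finset Pt) (h : IsMax n S) (h2 : 2 * S.card ≤ n) (W : ℕ)
    (hW : 8 * S.card ^ 2 ≤ W * n) :
    Conf W S.card n (256 * (S.card : ℝ) ^ 3 / (n : ℝ) ^ 2) := by
  have hm := main_ineq n hn S h h2 W hW
  have hn' : (0 : ℝ) < n := by exact_mod_cast hn
  have hne : S.Nonempty := by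
    rw [Finset.nonempty_iff_ne_empty]
    rintro rfl
    simp only [Finset.card_empty, Nat.cast_zero, mul_zero, zero_mul] at hm
    have : (0 : ℝ) < (n : ℝ) ^ 2 := by positivity
    linarith
  refine ⟨S.image (aff 1 (-1, -1)), ?_, (noThree_image 1 le_rfl _ S).2 h.2.1, hne.image _,
    Finset.card_image_le, ?_⟩
  · intro a ha
    rw [Finset.mem_image] at ha
    obtain ⟨x, hx, rfl⟩ := ha
    have hg := mem_grid.1 (h.1 hx)
    rw [mem_box]
    simp only [aff, Nat.cast_one, one_mul]
    omega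
  · rw [ee_image W 1 le_rfl, Finset.card_image_of_injective _ (aff_injective 1 le_rfl _)]
    have h3 : 256 * (S.card : ℝ) ^ 3 / (n : ℝ) ^ 2 * ee W S =
        (S.card : ℝ) ^ 2 * (256 * S.card * ee W S) / (n : ℝ) ^ 2 := by ring
    rw [h3, le_div_iff₀ (by positivity)]
    have h4 := mul_le_mul_of_nonneg_left hm (sq_nonneg (S.card : ℝ))
    linarith

theorem start_lower (n : ℕ) (hn : 1 ≤ n) (S : Finset Pt) (h : IsMax n S) (h2 : 2 * S.card ≤ n) :
    (n : ℝ) ^ 2 ≤ 256 * (S.card : ℝ) ^ 3 := by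
  have hm := main_ineq n hn S h h2 (8 * S.card ^ 2) (Nat.le_mul_of_pos_right _ hn)
  have h3 : (ee (8 * S.card ^ 2) S : ℝ) ≤ (S.card : ℝ) ^ 2 := by
    have h4 : ee (8 * S.card ^ 2) S ≤ S.card * S.card := by
      unfold ee
      refine (Finset.card_filter_le _ _).trans ?_
      rw [Finset.card_product]
    rw [← pow_two] at h4
    exact_mod_cast h4
  have h5 : 256 * (S.card : ℝ) * ee (8 * S.card ^ 2) S ≤ 256 * (S.card : ℝ) * (S.card : ℝ) ^ 2 :=
    mul_le_mul_of_nonneg_left h3 (by positivity)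
  calc (n : ℝ) ^ 2 ≤ _ := hm
    _ ≤ _ := h5
    _ = _ := by ring

end Pool.Agent.NTL
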